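import Mathlib
import Pool.Agent.R239.Fat.T14

/-! Random compositions of maps of the Riemann sphere: the event that a critical value is not
absorbed by an invariant open set. The scheme (rotation of the coordinates, bad events) is that of
`Pool.Agent.U523.RC` (random polynomials). -/

set_option autoImplicit false
set_option linter.unusedSectionVars false

open MeasureTheory Filter Topology Set
open scoped ENNReal OnePoint

namespace Pool.Agent.U202.RM

open Pool.Agent.R239.Fat (Sph LocInj Att Hyp Hol locInj_comp att_of_iter locInj_of_injective)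

/-- the Borel structure of the sphere -/
noncomputable scoped instance : MeasurableSpace Sph := borel _

scoped instance : BorelSpace Sph := ⟨rfl⟩

/-- a continuous family of holomorphic maps of the sphere, with a closed set of pairs (parameter,
critical value), and an open set `A` which is invariant under the maps with parameter in `S` -/
structure Fam (E : Type) [TopologicalSpace E] where
  f : E → Sph → Sph
  cont : Continuous fun p : E × Sph => f p.1 p.2
  hol : ∀ a, Hol (f a)
  Z : Set (E × Sph)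
  Zc : IsClosed Z
  ZL : ∀ a u, ¬ LocInj (f a) u → (a, f a u) ∈ Z
  cn : ℕ
  Zf : ∀ a, ∃ s : Finset Sph, s.card ≤ cn ∧ ∀ u, (a, u) ∈ Z → u ∈ s
  S : Set E
  A : Set Sph
  Ao : IsOpen A
  inv : ∀ a ∈ S, ∀ z ∈ A, f a z ∈ A

variable {E : Type} [TopologicalSpace E] (X : Fam E)

theorem fcont (a : E) : Continuous (X.f a) := (X.hol a).cont

/-- the composition of the first `n` maps of a sequence -/
def run (α : ℕ → E) : ℕ → Sph → Sph
  | 0 => id
  | n + 1 => fun z => X.f (α n) (run α n z)

/-- the shifted sequence -/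
def sh (j : ℕ) (α : ℕ → E) : ℕ → E := fun k => α (j + k)

theorem run_add (α : ℕ → E) (j k : ℕ) (z : Sph) :
    run X α (j + k) z = run X (sh j α) k (run X α j z) := by
  induction k with
  | zero => rfl
  | succ k ih =>
    show X.f (α (j + k)) (run X α (j + k) z) = X.f (α (j + k)) (run X (sh j α) k (run X α j z))
    rw [ih]

theorem run_hol (α : ℕ → E) (n : ℕ) : Hol (run X α n) := by
  induction n with
  | zero => exact Hol.id
  | succ n ih => exact ih.comp (X.hol (α n))

theorem run_cont (α : ℕ → E) (n : ℕ) : Continuous (run X α n) := (run_hol X α n).cont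

theorem run_A {α : ℕ → E} (hα : ∀ k, α k ∈ X.S) (n : ℕ) {z : Sph} (hz : z ∈ X.A) :
    run X α n z ∈ X.A := by
  induction n with
  | zero => exact hz
  | succ n ih => exact X.inv _ (hα n) _ ih

/-- the orbit is not absorbed -/
def stay : (N : ℕ) → (Fin N → E) → Sph → Prop
  | 0, _, z => z ∉ X.A
  | N + 1, c, z => z ∉ X.A ∧ stay N (Fin.tail c) (X.f (c 0) z)

theorem tail_cont (N : ℕ) : Continuous fun c : Fin (N + 1) → E => Fin.tail c :=
  continuous_pi fun i => continuous_apply i.succ

theorem stay_closed (N : ℕ) : IsClosed {q : (Fin N → E) × Sph | stay X N q.1 q.2} := by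
  induction N with
  | zero => exact (X.Ao.isClosed_compl).preimage continuous_snd
  | succ N ih =>
    have h0 : Continuous fun q : (Fin (N + 1) → E) × Sph => (q.1 0, q.2) :=
      ((continuous_apply 0).comp continuous_fst).prodMk continuous_snd
    have hc : Continuous fun q : (Fin (N + 1) → E) × Sph =>
        (Fin.tail q.1, X.f (q.1 0) q.2) :=
      ((tail_cont N).comp continuous_fst).prodMk (X.cont.comp h0)
    exact ((X.Ao.isClosed_compl).preimage continuous_snd).inter (ih.preimage hc)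

theorem stay_of (N : ℕ) : ∀ (c : Fin N → E) (α : ℕ → E), (∀ k (hk : k < N), α k = c ⟨k, hk⟩) →
    ∀ z, (∀ k ≤ N, run X α k z ∉ X.A) → stay X N c z := by
  induction N with
  | zero => intro c α _ z h; exact h 0 le_rfl
  | succ N ih =>
    intro c α hα z h
    refine ⟨h 0 (Nat.zero_le _), ih _ (sh 1 α) (fun k hk => ?_) _ (fun k hk => ?_)⟩
    · show α (1 + k) = c (Fin.succ ⟨k, hk⟩)
      rw [hα (1 + k) (by omega)]
      congr 1
      ext
      simp [add_comm]
    · have h1 := h (1 + k) (by omega)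
      rw [run_add] at h1
      have h2 : run X α 1 z = X.f (c 0) z := by
        show X.f (α 0) z = _
        rw [hα 0 (by omega)]
        rfl
      rwa [h2] at h1

/-- a critical value of the first map is not absorbed by the others -/
def Bad (N : ℕ) : Set (Fin (N + 1) → E) :=
  {c | ∃ u, (c 0, u) ∈ X.Z ∧ stay X N (Fin.tail c) u}

/-- the same event in the product of the first factor and the others -/
def BadA (N : ℕ) : Set (E × (Fin N → E)) :=
  {p | ∃ u, (p.1, u) ∈ X.Z ∧ stay X N p.2 u}

theorem BadA_closed (N : ℕ) : IsClosed (BadA X N) := by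
  have hc : Continuous fun q : (E × (Fin N → E)) × Sph => (q.1.2, q.2) :=
    (continuous_snd.comp continuous_fst).prodMk continuous_snd
  have hz : Continuous fun q : (E × (Fin N → E)) × Sph => (q.1.1, q.2) :=
    (continuous_fst.comp continuous_fst).prodMk continuous_snd
  have h1 := (X.Zc.preimage hz).inter ((stay_closed X N).preimage hc)
  have h2 := isClosedMap_fst_of_compactSpace _ h1
  convert h2 using 1
  ext p
  constructor
  · rintro ⟨u, hu, hs⟩
    exact ⟨(p, u), ⟨hu, hs⟩, rfl⟩
  · rintro ⟨⟨p', u⟩, ⟨hu, hs⟩, rfl⟩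
    exact ⟨u, hu, hs⟩

/-- rotation of the coordinates -/
def rot {N : ℕ} (i : Fin (N + 1)) (c : Fin (N + 1) → E) : Fin (N + 1) → E := fun k => c (k + i)

/-- periodic continuation -/
def per {N : ℕ} (c : Fin (N + 1) → E) : ℕ → E := fun k => c (Fin.ofNat (N + 1) k)

theorem per_per {N : ℕ} (c : Fin (N + 1) → E) (k : ℕ) : per c (k + (N + 1)) = per c k := by
  show c _ = c _
  congr 1
  ext
  simp [Fin.ofNat]

theorem per_val {N : ℕ} (c : Fin (N + 1) → E) (k : Fin (N + 1)) : per c k.val = c k := by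
  show c _ = c _
  congr 1
  ext
  simp [Fin.ofNat, Nat.mod_eq_of_lt k.2]

theorem rot_zero {N : ℕ} (c : Fin (N + 1) → E) (i : Fin (N + 1)) : rot i c 0 = per c i.val := by
  rw [per_val]
  show c (0 + i) = c i
  rw [zero_add]

theorem rot_tail {N : ℕ} (c : Fin (N + 1) → E) (i : Fin (N + 1)) (k : ℕ) (hk : k < N) :
    Fin.tail (rot i c) ⟨k, hk⟩ = sh (i.val + 1) (per c) k := by
  show c (Fin.succ ⟨k, hk⟩ + i) = c (Fin.ofNat (N + 1) (i.val + 1 + k))
  congr 1
  ext
  simp only [Fin.val_add, Fin.succ_mk, Fin.ofNat]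
  congr 1
  omega

theorem per_mem {N : ℕ} {c : Fin (N + 1) → E} (h : ∀ k, c k ∈ X.S) (k : ℕ) : per c k ∈ X.S := h _

theorem crit_run (α : ℕ → E) (n : ℕ) {u : Sph} (h : ¬ LocInj (run X α n) u) :
    ∃ i < n, (α i, run X α (i + 1) u) ∈ X.Z := by
  induction n with
  | zero => exact absurd (locInj_of_injective Function.injective_id u) h
  | succ n ih =>
    by_cases h1 : LocInj (run X α n) u
    · refine ⟨n, n.lt_succ_self, X.ZL _ _ fun h2 => h ?_⟩
      exact locInj_comp (run_cont X α n) h1 h2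
    · obtain ⟨i, hi, h'⟩ := ih h1
      exact ⟨i, by omega, h'⟩

theorem run_iter {α : ℕ → E} {n : ℕ} (hper : ∀ k, α (k + n) = α k) (k : ℕ) (z : Sph) :
    (run X α n)^[k] z = run X α (n * k) z := by
  induction k with
  | zero => rfl
  | succ k ih =>
    have h1 : sh (n * k) α = α := by
      funext i
      show α (n * k + i) = α i
      clear ih
      induction k with
      | zero => simp
      | succ k ih => rw [Nat.mul_succ, show n * k + n + i = (n * k + i) + n by ring, hper, ih]
    rw [Function.iterate_succ_apply', ih, Nat.mul_succ, run_add, h1]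

/-- every critical point of the composition is captured after two turns -/
theorem captured {N : ℕ} {c : Fin (N + 1) → E} (hS : ∀ k, c k ∈ X.S)
    (hB : ∀ i, rot i c ∉ Bad X N) {u : Sph} (hu : ¬ LocInj (run X (per c) (N + 1)) u) :
    run X (per c) (2 * (N + 1)) u ∈ X.A := by
  obtain ⟨i, hi, h⟩ := crit_run X _ _ hu
  have h1 := hB ⟨i, hi⟩
  have h2 : ¬ stay X N (Fin.tail (rot ⟨i, hi⟩ c)) (run X (per c) (i + 1) u) := by
    intro hst
    refine h1 ⟨run X (per c) (i + 1) u, ?_, hst⟩
    rw [rot_zero]; exact h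
  have h3 : ∃ k ≤ N, run X (sh (i + 1) (per c)) k (run X (per c) (i + 1) u) ∈ X.A := by
    by_contra hcon
    push Not at hcon
    exact h2 (stay_of X N _ (sh (i + 1) (per c)) (fun k hk => (rot_tail c ⟨i, hi⟩ k hk).symm) _
      hcon)
  obtain ⟨k, hk, hkD⟩ := h3
  rw [← run_add] at hkD
  set t := i + 1 + k with ht
  have hα : ∀ j, sh t (per c) j ∈ X.S := fun j => per_mem X hS _
  have h4 : run X (per c) (2 * (N + 1)) u =
      run X (sh t (per c)) (2 * (N + 1) - t) (run X (per c) t u) := by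
    rw [← run_add]
    congr 1
    omega
  rw [h4]
  exact run_A X hα _ hkD

/-- if all points of `A` are attracted then the composition is hyperbolic outside the bad events -/
theorem det_hyp {N : ℕ} {c : Fin (N + 1) → E} (hS : ∀ k, c k ∈ X.S)
    (hB : ∀ i, rot i c ∉ Bad X N) (hatt : ∀ z ∈ X.A, Att (run X (per c) (N + 1)) z) :
    Hyp (run X (per c) (N + 1)) := by
  intro u hu
  apply att_of_iter (run_cont X _ _) (m := 2)
  apply hatt
  rw [run_iter X (per_per c) 2, mul_comm (N + 1) 2]
  exact captured X hS hB hu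

section measure

variable [SecondCountableTopology E] [MeasurableSpace E] [BorelSpace E]

theorem stay_meas (N : ℕ) : MeasurableSet {q : (Fin N → E) × Sph | stay X N q.1 q.2} :=
  (stay_closed X N).measurableSet

theorem stay_meas' (N : ℕ) (z : Sph) : MeasurableSet {c : Fin N → E | stay X N c z} :=
  ((stay_closed X N).preimage (Continuous.prodMk_left z)).measurableSet

theorem BadA_meas (N : ℕ) : MeasurableSet (BadA X N) := (BadA_closed X N).measurableSet

theorem Bad_eq (N : ℕ) :
    Bad X N = (MeasurableEquiv.piFinSuccAbove (fun _ => E) 0) ⁻¹' BadA X N := by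
  ext c
  rfl

theorem Bad_meas (N : ℕ) : MeasurableSet (Bad X N) := by
  rw [Bad_eq]
  exact (MeasurableEquiv.measurable _) (BadA_meas X N)

theorem Bad_prob (N : ℕ) {B : ℝ≥0∞} (μs : Fin (N + 1) → Measure E)
    [∀ k, IsProbabilityMeasure (μs k)]
    (hB : ∀ z, Measure.pi (fun j : Fin N => μs j.succ) {c | stay X N c z} ≤ B) :
    Measure.pi μs (Bad X N) ≤ X.cn * B := by
  have mp := measurePreserving_piFinSuccAbove μs 0
  have hAm := BadA_meas X N
  set A := BadA X N with hA
  rw [Bad_eq, mp.measure_preimage hAm.nullMeasurableSet, Measure.prod_apply hAm]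
  have key : ∀ z, Measure.pi (fun j : Fin N => μs (Fin.succAbove 0 j)) {c | stay X N c z} ≤ B := by
    intro z
    have h1 := hB z
    simp only [Fin.succAbove_zero]
    exact h1
  calc ∫⁻ a, Measure.pi (fun j : Fin N => μs (Fin.succAbove 0 j)) (Prod.mk a ⁻¹' A) ∂(μs 0)
      ≤ ∫⁻ _, (X.cn * B : ℝ≥0∞) ∂(μs 0) := by
        refine lintegral_mono fun a => ?_
        obtain ⟨s, hs, hcr⟩ := X.Zf a
        calc Measure.pi (fun j : Fin N => μs (Fin.succAbove 0 j)) (Prod.mk a ⁻¹' A)
            ≤ Measure.pi (fun j : Fin N => μs (Fin.succAbove 0 j))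
                (⋃ u ∈ s, {c | stay X N c u}) := by
              refine measure_mono ?_
              rintro c ⟨u, hu, hst⟩
              rw [mem_iUnion₂]
              exact ⟨u, hcr u hu, hst⟩
          _ ≤ ∑ u ∈ s, Measure.pi (fun j : Fin N => μs (Fin.succAbove 0 j))
                {c | stay X N c u} := measure_biUnion_finset_le _ _
          _ ≤ ∑ _u ∈ s, B := Finset.sum_le_sum fun u _ => key _
          _ = s.card * B := by rw [Finset.sum_const, nsmul_eq_mul]
          _ ≤ X.cn * B := by gcongr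
    _ = X.cn * B := by simp

theorem rot_mp {N : ℕ} (i : Fin (N + 1)) (μs : Fin (N + 1) → Measure E)
    [∀ k, IsProbabilityMeasure (μs k)] :
    MeasurePreserving (rot i) (Measure.pi μs) (Measure.pi fun k => μs (k + i)) := by
  have h := measurePreserving_piCongrLeft (fun k : Fin (N + 1) => μs (k + i))
    (Equiv.addRight i).symm
  have h2 : rot i = (MeasurableEquiv.piCongrLeft (fun _ : Fin (N + 1) => E)
      (Equiv.addRight i).symm : (Fin (N + 1) → E) → (Fin (N + 1) → E)) := by
    funext c k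
    have h3 := MeasurableEquiv.piCongrLeft_apply_apply (Equiv.addRight i).symm
      (β := fun _ : Fin (N + 1) => E) c (Equiv.addRight i k)
    rw [Equiv.symm_apply_apply] at h3
    rw [h3]
    rfl
  rw [h2]
  have h4 : (fun k : Fin (N + 1) => μs ((Equiv.addRight i).symm k + i)) = μs := by
    funext k
    simp
  have h5 : Measure.pi (fun k : Fin (N + 1) => μs ((Equiv.addRight i).symm k + i)) =
      Measure.pi μs := by
    congr 1
  rw [h5] at h
  exact h

theorem exists_bound {ρ θ : ℝ} (h0 : 0 < ρ) (h1 : ρ < θ) :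
    ∃ C : ℝ, 0 < C ∧ ∀ n : ℕ, (n : ℝ) * ρ ^ n ≤ C * θ ^ n := by
  have hθ : 0 < θ := h0.trans h1
  have hq : ρ / θ < 1 := by rw [div_lt_one hθ]; exact h1
  have ht := tendsto_self_mul_const_pow_of_lt_one (r := ρ / θ) (by positivity) hq
  obtain ⟨C, hC⟩ := ht.bddAbove_range
  refine ⟨max C 1, lt_of_lt_of_le one_pos (le_max_right _ _), fun n => ?_⟩
  have h2 : (n : ℝ) * (ρ / θ) ^ n ≤ max C 1 := (hC ⟨n, rfl⟩).trans (le_max_left _ _)
  rw [div_pow, mul_div_assoc', div_le_iff₀ (by positivity)] at h2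
  exact h2

/-- **The main theorem**, for independent parameters with laws of a set `G` of laws with
exponential absorption. -/
theorem main_pi (G : Set (Measure E)) (hGS : ∀ μ ∈ G, ∀ᵐ a ∂μ, a ∈ X.S)
    (hatt : ∀ (N : ℕ) (c : Fin (N + 1) → E), (∀ k, c k ∈ X.S) → ∀ z ∈ X.A,
      Att (run X (per c) (N + 1)) z)
    {K₁ θ₁ : ℝ} (hK₁ : 0 < K₁) (hθ₁ : 0 < θ₁) (hθ₁' : θ₁ < 1)
    (hb : ∀ (N : ℕ) (μs : Fin N → Measure E) [∀ k, IsProbabilityMeasure (μs k)],
      (∀ k, μs k ∈ G) → ∀ z,
        Measure.pi μs {c | stay X N c z} ≤ ENNReal.ofReal (K₁ * θ₁ ^ N)) :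
    ∃ K θ : ℝ, 0 < K ∧ 0 < θ ∧ θ < 1 ∧ ∀ (N : ℕ) (μs : Fin (N + 1) → Measure E)
      [∀ k, IsProbabilityMeasure (μs k)], (∀ k, μs k ∈ G) →
      Measure.pi μs {c | ¬ Hyp (run X (per c) (N + 1))} ≤ ENNReal.ofReal (K * θ ^ (N + 1)) := by
  set θ := (1 + θ₁) / 2 with hθ
  have hθρ : θ₁ < θ := by rw [hθ]; linarith
  have hθ0 : 0 < θ := hθ₁.trans hθρ
  have hθ1 : θ < 1 := by rw [hθ]; linarith
  obtain ⟨C, hC, hCb⟩ := exists_bound hθ₁ hθρ
  set K := X.cn * K₁ * C / θ₁ + 1 with hK
  have hK0 : 0 < K := by positivity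
  refine ⟨K, θ, hK0, hθ0, hθ1, fun N μs _ hμs => ?_⟩
  set P := Measure.pi μs with hP
  have hsub : {c | ¬ Hyp (run X (per c) (N + 1))} ⊆
      (⋃ i : Fin (N + 1), rot i ⁻¹' Bad X N) ∪ (⋃ i : Fin (N + 1), {c | c i ∉ X.S}) := by
    intro c hc
    by_contra hcon
    simp only [mem_union, mem_iUnion, mem_preimage, mem_ofPred_eq, not_or, not_exists,
      not_not] at hcon
    obtain ⟨h1, h3⟩ := hcon
    exact hc (det_hyp X h3 h1 (hatt N c h3))
  have hB1 : P (⋃ i : Fin (N + 1), rot i ⁻¹' Bad X N) ≤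
      ENNReal.ofReal (X.cn * K₁ * C / θ₁ * θ ^ (N + 1)) := by
    calc P (⋃ i : Fin (N + 1), rot i ⁻¹' Bad X N)
        ≤ ∑ i : Fin (N + 1), P (rot i ⁻¹' Bad X N) := measure_iUnion_fintype_le _ _
      _ ≤ ∑ _i : Fin (N + 1), (X.cn : ℝ≥0∞) * ENNReal.ofReal (K₁ * θ₁ ^ N) := by
          refine Finset.sum_le_sum fun i _ => ?_
          rw [(rot_mp i μs).measure_preimage (Bad_meas X N).nullMeasurableSet]
          exact Bad_prob X N _ fun z => hb N _ (fun k => hμs _) z
      _ = ENNReal.ofReal ((N + 1 : ℝ) * (X.cn * (K₁ * θ₁ ^ N))) := by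
          rw [Finset.sum_const, Finset.card_univ, Fintype.card_fin, nsmul_eq_mul,
            ENNReal.ofReal_mul (by positivity : (0 : ℝ) ≤ (N + 1 : ℝ)),
            ENNReal.ofReal_mul (Nat.cast_nonneg _ : (0 : ℝ) ≤ (X.cn : ℝ)),
            ENNReal.ofReal_natCast]
          congr 1
          rw [← Nat.cast_succ, ENNReal.ofReal_natCast]
      _ ≤ ENNReal.ofReal (X.cn * K₁ * C / θ₁ * θ ^ (N + 1)) := by
          refine ENNReal.ofReal_le_ofReal ?_
          have h2 := hCb (N + 1)
          push_cast at h2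
          calc (N + 1 : ℝ) * (X.cn * (K₁ * θ₁ ^ N))
              = X.cn * K₁ / θ₁ * ((N + 1 : ℝ) * θ₁ ^ (N + 1)) := by
                rw [pow_succ]; field_simp
            _ ≤ X.cn * K₁ / θ₁ * (C * θ ^ (N + 1)) := by gcongr
            _ = X.cn * K₁ * C / θ₁ * θ ^ (N + 1) := by ring
  have hB3 : P (⋃ i : Fin (N + 1), {c | c i ∉ X.S}) = 0 := by
    rw [measure_iUnion_null_iff]
    intro i
    exact (measurePreserving_eval μs i).quasiMeasurePreserving.ae (hGS _ (hμs i))
  calc P _ ≤ P _ := measure_mono hsub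
    _ ≤ P (⋃ i : Fin (N + 1), rot i ⁻¹' Bad X N) + P (⋃ i : Fin (N + 1), {c | c i ∉ X.S}) :=
        measure_union_le _ _
    _ ≤ ENNReal.ofReal (X.cn * K₁ * C / θ₁ * θ ^ (N + 1)) + 0 := by
        rw [hB3]
        gcongr
    _ ≤ ENNReal.ofReal (K * θ ^ (N + 1)) := by
        rw [add_zero]
        refine ENNReal.ofReal_le_ofReal ?_
        have : X.cn * K₁ * C / θ₁ ≤ K := by rw [hK]; linarith
        gcongr

end measure

end Pool.Agent.U202.RM
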