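import Mathlib
import Pool.Agent.U202.RM.Fam

/-! Exponential absorption by an invariant open set which can be reached from every point. The
scheme is that of `Pool.Agent.U523.RC.A` (random polynomials). -/

set_option autoImplicit false
set_option linter.unusedSectionVars false

open MeasureTheory Filter Topology Set
open scoped ENNReal OnePoint

namespace Pool.Agent.U202.RM

open Pool.Agent.R239.Fat (Sph LocInj Att Hyp Hol locInj_comp att_of_iter locInj_of_injective)

/-- `z` can be moved into `A` by maps with parameters in `S` -/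
inductive Esc {E : Type} (f : E → Sph → Sph) (S : Set E) (A : Set Sph) : Sph → Prop
  | out (z : Sph) : z ∈ A → Esc f S A z
  | step (a : E) (z : Sph) : a ∈ S → Esc f S A (f a z) → Esc f S A z

variable {E : Type} [TopologicalSpace E] [SecondCountableTopology E] [MeasurableSpace E]
  [BorelSpace E] (X : Fam E) (μ : Measure E) [IsProbabilityMeasure μ]

/-- probability of not being absorbed -/
noncomputable def b : ℕ → Sph → ℝ≥0∞
  | 0 => indicator X.Aᶜ 1
  | n + 1 => indicator X.Aᶜ fun z => ∫⁻ a, b n (X.f a z) ∂μ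

theorem fmeas : Measurable fun p : E × Sph => X.f p.1 p.2 := X.cont.measurable

theorem fmeas' : Measurable fun p : Sph × E => X.f p.2 p.1 :=
  (X.cont.comp (continuous_snd.prodMk continuous_fst)).measurable

theorem Ac_meas : MeasurableSet X.Aᶜ := X.Ao.measurableSet.compl

theorem b_meas (n : ℕ) : Measurable (b X μ n) := by
  induction n with
  | zero => exact measurable_one.indicator (Ac_meas X)
  | succ n ih =>
    exact (Measurable.lintegral_prod_right' (f := fun p : Sph × E => b X μ n (X.f p.2 p.1))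
      (ih.comp (fmeas' X))).indicator (Ac_meas X)

theorem b_zero {n : ℕ} {z : Sph} (hz : z ∈ X.A) : b X μ n z = 0 := by
  cases n with
  | zero => exact indicator_of_notMem (s := X.Aᶜ) (notMem_compl_iff.2 hz) _
  | succ n => exact indicator_of_notMem (s := X.Aᶜ) (notMem_compl_iff.2 hz) _

theorem b_in (n : ℕ) {z : Sph} (hz : z ∉ X.A) : b X μ (n + 1) z = ∫⁻ a, b X μ n (X.f a z) ∂μ :=
  indicator_of_mem hz _

theorem b_zero_in {z : Sph} (hz : z ∉ X.A) : b X μ 0 z = 1 := indicator_of_mem (s := X.Aᶜ) hz _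

theorem b_le_one (n : ℕ) : ∀ z, b X μ n z ≤ 1 := by
  induction n with
  | zero => exact indicator_le_self' (f := (1 : Sph → ℝ≥0∞)) (fun _ _ => zero_le)
  | succ n ih =>
    intro z
    by_cases hz : z ∈ X.A
    · rw [b_zero X μ hz]; exact zero_le
    · rw [b_in X μ n hz]
      calc ∫⁻ a, b X μ n (X.f a z) ∂μ ≤ ∫⁻ _, 1 ∂μ := lintegral_mono fun a => ih _
        _ = 1 := by simp

theorem b_anti (n : ℕ) : ∀ z, b X μ (n + 1) z ≤ b X μ n z := by
  induction n with
  | zero =>
    intro z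
    by_cases hz : z ∈ X.A
    · rw [b_zero X μ hz]; exact zero_le
    · rw [b_zero_in X μ hz]; exact b_le_one X μ 1 z
  | succ n ih =>
    intro z
    exact indicator_le_indicator (lintegral_mono fun a => ih _)

theorem b_anti' {m n : ℕ} (h : m ≤ n) (z : Sph) : b X μ n z ≤ b X μ m z := by
  induction h with
  | refl => exact le_rfl
  | step _ ih => exact (b_anti X μ _ z).trans ih

theorem b_mul {m : ℕ} {c : ℝ≥0∞} (hc : ∀ z, b X μ m z ≤ c) (n : ℕ) :
    ∀ z, b X μ (n + m) z ≤ c * b X μ n z := by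
  induction n with
  | zero =>
    intro z
    rw [zero_add]
    by_cases hz : z ∈ X.A
    · rw [b_zero X μ hz]; exact zero_le
    · rw [b_zero_in X μ hz, mul_one]; exact hc z
  | succ n ih =>
    intro z
    by_cases hz : z ∈ X.A
    · rw [b_zero X μ hz]; exact zero_le
    · rw [show n + 1 + m = (n + m) + 1 by ring, b_in X μ _ hz, b_in X μ _ hz]
      calc ∫⁻ a, b X μ (n + m) (X.f a z) ∂μ ≤ ∫⁻ a, c * b X μ n (X.f a z) ∂μ :=
            lintegral_mono fun a => ih _
        _ = c * ∫⁻ a, b X μ n (X.f a z) ∂μ := by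
            rw [lintegral_const_mul]
            exact (b_meas X μ n).comp ((fmeas X).comp (measurable_id.prodMk measurable_const))

theorem b_pow {N : ℕ} {c : ℝ≥0∞} (hc : ∀ z, b X μ N z ≤ c) (k : ℕ) :
    ∀ z, b X μ (k * N) z ≤ c ^ k := by
  induction k with
  | zero => intro z; rw [zero_mul, pow_zero]; exact b_le_one X μ 0 z
  | succ k ih =>
    intro z
    calc b X μ ((k + 1) * N) z = b X μ (k * N + N) z := by rw [Nat.succ_mul]
      _ ≤ c * b X μ (k * N) z := b_mul X μ hc (k * N) z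
      _ ≤ c * c ^ k := by gcongr; exact ih z
      _ = c ^ (k + 1) := (pow_succ' c k).symm

variable (hS : ∀ a ∈ X.S, ∀ V ∈ 𝓝 a, 0 < μ V)

include hS in
/-- absorption with a positive probability, locally uniformly -/
theorem esc_unif {z : Sph} (h : Esc X.f X.S X.A z) :
    ∃ n : ℕ, ∃ p : ℝ≥0∞, 0 < p ∧ ∀ᶠ w in 𝓝 z, b X μ n w + p ≤ 1 := by
  induction h with
  | out z hz =>
    refine ⟨0, 1, one_pos, ?_⟩
    filter_upwards [X.Ao.mem_nhds hz] with w hw
    rw [b_zero X μ hw, zero_add]
  | step a z ha _ ih =>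
    obtain ⟨n, p, hp, hw⟩ := ih
    have h1 : ∀ᶠ q : E × Sph in 𝓝 (a, z), b X μ n (X.f q.1 q.2) + p ≤ 1 :=
      (X.cont.continuousAt (x := (a, z))).eventually hw
    rw [nhds_prod_eq, eventually_prod_iff] at h1
    obtain ⟨P, hP, Q, hQ, hPQ⟩ := h1
    obtain ⟨V, hVP, hV, haV⟩ := mem_nhds_iff.1 hP
    refine ⟨n + 1, p * μ V, ENNReal.mul_pos hp.ne' (hS a ha V (hV.mem_nhds haV)).ne', ?_⟩
    filter_upwards [hQ] with w hw
    by_cases hwA : w ∈ X.A
    · rw [b_zero X μ hwA, zero_add]
      have hp1 : p ≤ 1 := by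
        have := hPQ (hVP haV) hw
        exact (le_add_left le_rfl).trans this
      calc p * μ V ≤ 1 * 1 := mul_le_mul' hp1 prob_le_one
        _ = 1 := one_mul 1
    · rw [b_in X μ n hwA]
      have hm : Measurable fun c => b X μ n (X.f c w) :=
        (b_meas X μ n).comp ((fmeas X).comp (measurable_id.prodMk measurable_const))
      calc ∫⁻ c, b X μ n (X.f c w) ∂μ + p * μ V
          = (∫⁻ c in V, b X μ n (X.f c w) ∂μ + ∫⁻ c in Vᶜ, b X μ n (X.f c w) ∂μ) +
            ∫⁻ _ in V, p ∂μ := by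
            rw [lintegral_add_compl _ hV.measurableSet, setLIntegral_const]
        _ = ∫⁻ c in V, (b X μ n (X.f c w) + p) ∂μ + ∫⁻ c in Vᶜ, b X μ n (X.f c w) ∂μ := by
            rw [lintegral_add_left hm]
            ring
        _ ≤ ∫⁻ _ in V, 1 ∂μ + ∫⁻ _ in Vᶜ, 1 ∂μ := by
            refine add_le_add (setLIntegral_mono' hV.measurableSet fun c hc => hPQ (hVP hc) hw)
              (setLIntegral_mono' hV.measurableSet.compl fun c _ => b_le_one X μ n _)
        _ = 1 := by
            rw [lintegral_add_compl _ hV.measurableSet]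
            simp

variable (hreach : ∀ z, Esc X.f X.S X.A z)

include hS hreach in
/-- uniform absorption -/
theorem absorb : ∃ N : ℕ, 0 < N ∧ ∃ c : ℝ≥0∞, c < 1 ∧ ∀ z, b X μ N z ≤ c := by
  have h0 : ∃ n : ℕ, ∃ p : ℝ≥0∞, 0 < p ∧ ∀ z ∈ (univ : Set Sph), b X μ n z + p ≤ 1 := by
    refine (isCompact_univ (X := Sph)).induction_on
      (p := fun s => ∃ n : ℕ, ∃ p : ℝ≥0∞, 0 < p ∧ ∀ z ∈ s, b X μ n z + p ≤ 1)
      ⟨0, 1, one_pos, fun z hz => hz.elim⟩ ?_ ?_ ?_
    · rintro s t hst ⟨n, p, hp, h⟩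
      exact ⟨n, p, hp, fun z hz => h z (hst hz)⟩
    · rintro s t ⟨n, p, hp, h⟩ ⟨n', p', hp', h'⟩
      refine ⟨max n n', min p p', lt_min hp hp', fun z hz => ?_⟩
      rcases hz with hz | hz
      · exact (add_le_add (b_anti' X μ (le_max_left _ _) z) (min_le_left _ _)).trans (h z hz)
      · exact (add_le_add (b_anti' X μ (le_max_right _ _) z) (min_le_right _ _)).trans (h' z hz)
    · intro z _
      obtain ⟨n, p, hp, h⟩ := esc_unif X μ hS (hreach z)
      exact ⟨{w | b X μ n w + p ≤ 1}, mem_nhdsWithin_of_mem_nhds h, n, p, hp, fun w hw => hw⟩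
  obtain ⟨n, p, hp, h⟩ := h0
  refine ⟨n + 1, n.succ_pos, 1 - p, ENNReal.sub_lt_self ENNReal.one_ne_top one_ne_zero hp.ne',
    fun z => ?_⟩
  have h1 := h z (mem_univ z)
  have hp1 : p ≤ 1 := (le_add_left le_rfl).trans h1
  refine (b_anti X μ n z).trans (ENNReal.le_sub_of_add_le_right ?_ h1)
  exact ne_top_of_le_ne_top ENNReal.one_ne_top hp1

include hS hreach in
/-- exponential absorption -/
theorem absorb_exp : ∃ K θ : ℝ, 0 < K ∧ 0 < θ ∧ θ < 1 ∧
    ∀ n z, b X μ n z ≤ ENNReal.ofReal (K * θ ^ n) := by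
  obtain ⟨N, hN, c, hc, h⟩ := absorb X μ hS hreach
  set q : ℝ := max c.toReal (1 / 2) with hq
  have hct : c ≠ ⊤ := (hc.trans ENNReal.one_lt_top).ne
  have hq0 : 0 < q := lt_of_lt_of_le (by norm_num) (le_max_right _ _)
  have hq1 : q < 1 := by
    refine max_lt ?_ (by norm_num)
    rw [← ENNReal.toReal_one]
    exact (ENNReal.toReal_lt_toReal hct ENNReal.one_ne_top).2 hc
  have hcq : c ≤ ENNReal.ofReal q := by
    rw [← ENNReal.ofReal_toReal hct]
    exact ENNReal.ofReal_le_ofReal (le_max_left _ _)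
  have hN' : (0 : ℝ) < N := by exact_mod_cast hN
  set θ : ℝ := q ^ (1 / (N : ℝ)) with hθ
  have hθ0 : 0 < θ := Real.rpow_pos_of_pos hq0 _
  have hθ1 : θ < 1 := Real.rpow_lt_one hq0.le hq1 (by positivity)
  have hθN : θ ^ N = q := by
    rw [hθ, ← Real.rpow_natCast, ← Real.rpow_mul hq0.le, one_div, inv_mul_cancel₀ hN'.ne',
      Real.rpow_one]
  refine ⟨1 / q, θ, by positivity, hθ0, hθ1, fun n z => ?_⟩
  have h1 : b X μ n z ≤ c ^ (n / N) :=
    (b_anti' X μ (Nat.div_mul_le_self n N) z).trans (b_pow X μ h (n / N) z)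
  refine h1.trans ((pow_le_pow_left' hcq _).trans ?_)
  rw [← ENNReal.ofReal_pow hq0.le]
  refine ENNReal.ofReal_le_ofReal ?_
  rw [one_div, inv_mul_eq_div, le_div_iff₀ hq0, ← pow_succ, ← hθN, ← pow_mul]
  refine pow_le_pow_of_le_one hθ0.le hθ1.le ?_
  have := Nat.div_add_mod n N
  have := Nat.mod_lt n hN
  rw [Nat.mul_add, mul_one]
  omega

theorem stay_prob (N : ℕ) : ∀ z, Measure.pi (fun _ : Fin N => μ) {c | stay X N c z} = b X μ N z := by
  induction N with
  | zero =>
    intro z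
    by_cases hz : z ∈ X.A
    · have : {c : Fin 0 → E | stay X 0 c z} = ∅ := by
        ext c; simp [stay, hz]
      rw [this, measure_empty, b_zero X μ hz]
    · have : {c : Fin 0 → E | stay X 0 c z} = univ := by
        ext c; simp [stay, hz]
      rw [this, measure_univ, b_zero_in X μ hz]
  | succ N ih =>
    intro z
    by_cases hz : z ∈ X.A
    · have : {c : Fin (N + 1) → E | stay X (N + 1) c z} = ∅ := by
        ext c; simp [stay, hz]
      rw [this, measure_empty, b_zero X μ hz]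
    · have mp := measurePreserving_piFinSuccAbove (fun _ : Fin (N + 1) => μ) 0
      set A : Set (E × (Fin N → E)) := {p | stay X N p.2 (X.f p.1 z)} with hA
      have hAm : MeasurableSet A := by
        have hm : Measurable fun p : E × (Fin N → E) => (p.2, X.f p.1 z) :=
          measurable_snd.prodMk ((fmeas X).comp (measurable_fst.prodMk measurable_const))
        exact hm (stay_meas X N)
      have h1 : {c : Fin (N + 1) → E | stay X (N + 1) c z} =
          (MeasurableEquiv.piFinSuccAbove (fun _ => E) 0) ⁻¹' A := by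
        ext c
        simp only [mem_ofPred_eq, stay, hz, not_false_eq_true, true_and, mem_preimage, hA]
        rfl
      rw [h1, mp.measure_preimage hAm.nullMeasurableSet, Measure.prod_apply hAm, b_in X μ N hz]
      refine lintegral_congr fun a => ?_
      rw [← ih]
      rfl

include hS hreach in
/-- **Independent identically distributed parameters.** -/
theorem main_iid (h0 : ∀ᵐ a ∂μ, a ∈ X.S)
    (hatt : ∀ (N : ℕ) (c : Fin (N + 1) → E), (∀ k, c k ∈ X.S) → ∀ z ∈ X.A,
      Att (run X (per c) (N + 1)) z) :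
    ∃ K θ : ℝ, 0 < K ∧ 0 < θ ∧ θ < 1 ∧ ∀ N : ℕ,
      Measure.pi (fun _ : Fin (N + 1) => μ) {c | ¬ Hyp (run X (per c) (N + 1))} ≤
        ENNReal.ofReal (K * θ ^ (N + 1)) := by
  obtain ⟨K₁, θ₁, hK₁, hθ₁, hθ₁', hb⟩ := absorb_exp X μ hS hreach
  obtain ⟨K, θ, hK, h1, h2, h3⟩ := main_pi X {μ} (by rintro _ rfl; exact h0) hatt hK₁ hθ₁ hθ₁'
    (by
      intro N μs _ hμs z
      have : μs = fun _ => μ := funext fun k => hμs k
      subst this
      rw [stay_prob]
      exact hb N z)
  exact ⟨K, θ, hK, h1, h2, fun N => h3 N _ fun _ => rfl⟩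

end Pool.Agent.U202.RM
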