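import Mathlib
import Pool.Agent.U202.RM.Absorb
import Pool.Agent.R239.Fat.T10

/-! Families with an invariant open set which are open under small Moebius maps: the random
compositions are hyperbolic with large probability. -/

set_option autoImplicit false
set_option linter.unusedSectionVars false

open MeasureTheory Filter Topology Set Metric
open scoped ENNReal OnePoint

namespace Pool.Agent.U202.RM

open Pool.Agent.R239.Fat

/-- `M` is the Moebius map with the matrix `(α, β; γ, κ)` of determinant one, `δ`-close to `1` -/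
def Near (δ : ℝ) (α β γ κ : ℂ) : Prop :=
  α * κ - β * γ = 1 ∧ ‖α - 1‖ < δ ∧ ‖β‖ < δ ∧ ‖γ‖ < δ ∧ ‖κ - 1‖ < δ

theorem mob_nhds (p : Sph) {δ : ℝ} (hδ : 0 < δ) :
    {q | ∃ α β γ κ : ℂ, Near δ α β γ κ ∧ q = mob α β γ κ p} ∈ 𝓝 p := by
  induction p using OnePoint.rec with
  | infty =>
    have h1 := image_nhds_inf (V := ball (0 : ℂ) δ) (ball_mem_nhds 0 hδ)
    refine mem_of_superset h1 ?_
    rintro _ ⟨w, hw, rfl⟩
    refine ⟨1, 0, w, 1, ⟨by ring, by simpa using hδ, by simpa using hδ, by simpa using hw,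
      by simpa using hδ⟩, ?_⟩
    rw [mob_inf (by simp)]
  | coe z =>
    have h1 := nhds_coe (ball_mem_nhds z hδ)
    refine mem_of_superset h1 ?_
    rintro _ ⟨w, hw, rfl⟩
    have hw' : ‖w - z‖ < δ := by rw [← dist_eq_norm]; exact hw
    refine ⟨1, w - z, 0, 1, ⟨by ring, by simpa using hδ, hw', by simpa using hδ,
      by simpa using hδ⟩, ?_⟩
    have h2 := tr_coe (w - z) z
    unfold tr at h2
    rw [h2]
    congr 1
    ring

theorem near_inv {δ : ℝ} {α β γ κ : ℂ} (h : Near δ α β γ κ) : Near δ κ (-β) (-γ) α := by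
  obtain ⟨h1, h2, h3, h4, h5⟩ := h
  exact ⟨by linear_combination h1, h5, by rwa [norm_neg], by rwa [norm_neg], h2⟩

theorem near_ne {δ : ℝ} {α β γ κ : ℂ} (h : Near δ α β γ κ) : α * κ - β * γ ≠ 0 := by
  rw [h.1]; exact one_ne_zero

theorem mob_inv {δ : ℝ} {α β γ κ : ℂ} (h : Near δ α β γ κ) (p : Sph) :
    mob κ (-β) (-γ) α (mob α β γ κ p) = p := (mobH α β γ κ (near_ne h)).left_inv p

variable {E : Type} [TopologicalSpace E] (X : Fam E)

/-- the parameters in `S` are stable under small Moebius maps -/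
def MO : Prop := ∀ a ∈ X.S, ∃ δ : ℝ, 0 < δ ∧ ∀ α β γ κ : ℂ, Near δ α β γ κ →
  ∃ a' ∈ X.S, X.f a' = mob α β γ κ ∘ X.f a

/-- the points which cannot be moved into `A` -/
def KK : Set Sph := {x | ¬ Esc X.f X.S X.A x}

/-- their images -/
def WW : Set Sph := {w | ∃ a ∈ X.S, ∃ x ∈ KK X, w = X.f a x}

theorem KK_map {x : Sph} (hx : x ∈ KK X) {a : E} (ha : a ∈ X.S) : X.f a x ∈ KK X :=
  fun h => hx (Esc.step a x ha h)

theorem WW_KK : WW X ⊆ KK X := by
  rintro _ ⟨a, ha, x, hx, rfl⟩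
  exact KK_map X hx ha

theorem WW_map {w : Sph} (hw : w ∈ WW X) {a : E} (ha : a ∈ X.S) : X.f a w ∈ WW X :=
  ⟨a, ha, w, WW_KK X hw, rfl⟩

theorem WW_disj {w : Sph} (hw : w ∈ WW X) : w ∉ X.A := fun h => WW_KK X hw (Esc.out w h)

variable {X}

theorem WW_open (h : MO X) : IsOpen (WW X) := by
  rw [isOpen_iff_mem_nhds]
  rintro _ ⟨a, ha, x, hx, rfl⟩
  obtain ⟨δ, hδ, h1⟩ := h a ha
  refine mem_of_superset (mob_nhds (X.f a x) hδ) ?_
  rintro _ ⟨α, β, γ, κ, hn, rfl⟩
  obtain ⟨a', ha', h2⟩ := h1 α β γ κ hn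
  exact ⟨a', ha', x, hx, by rw [h2]; rfl⟩

theorem closure_sub (h : MO X) {C B : Set Sph} (hCB : ∀ a ∈ X.S, ∀ x ∈ C, X.f a x ∈ B) {a : E}
    (ha : a ∈ X.S) : closure (X.f a '' C) ⊆ B := by
  intro p hp
  obtain ⟨δ, hδ, h1⟩ := h a ha
  obtain ⟨q, ⟨α, β, γ, κ, hn, rfl⟩, x, hx, hxq⟩ := mem_closure_iff_nhds.1 hp _ (mob_nhds p hδ)
  obtain ⟨a', ha', h2⟩ := h1 _ _ _ _ (near_inv hn)
  have h3 : X.f a' x = p := by
    rw [h2]
    show mob κ (-β) (-γ) α (X.f a x) = p
    rw [hxq, mob_inv hn]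
  rw [← h3]
  exact hCB a' ha' x hx

/-- the enlarged absorbing set -/
def enl (X : Fam E) (h : MO X) : Fam E :=
  { X with
    A := X.A ∪ WW X
    Ao := X.Ao.union (WW_open h)
    inv := by
      rintro a ha z (hz | hz)
      · exact Or.inl (X.inv a ha z hz)
      · exact Or.inr (WW_map X hz ha) }

theorem enl_run (h : MO X) (α : ℕ → E) (n : ℕ) : run (enl X h) α n = run X α n := by
  induction n with
  | zero => rfl
  | succ n ih =>
    funext z
    show X.f (α n) (run (enl X h) α n z) = X.f (α n) (run X α n z)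
    rw [ih]

theorem esc_mono {f : E → Sph → Sph} {S : Set E} {A B : Set Sph} (hAB : A ⊆ B) {z : Sph}
    (h : Esc f S A z) : Esc f S B z := by
  induction h with
  | out z hz => exact Esc.out z (hAB hz)
  | step a z ha _ ih => exact Esc.step a z ha ih

theorem enl_reach (h : MO X) (hne : X.S.Nonempty) (z : Sph) :
    Esc (enl X h).f (enl X h).S (enl X h).A z := by
  show Esc X.f X.S (X.A ∪ WW X) z
  by_cases hz : z ∈ KK X
  · obtain ⟨a, ha⟩ := hne
    exact Esc.step a z ha (Esc.out _ (Or.inr ⟨a, ha, z, hz, rfl⟩))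
  · unfold KK at hz
    rw [mem_ofPred_eq, not_not] at hz
    exact esc_mono subset_union_left hz

theorem exists_coe {O : Set Sph} (hO : IsOpen O) (hne : O.Nonempty) : ∃ z : ℂ, (z : Sph) ∈ O :=
  (OnePoint.denseRange_coe (X := ℂ)).exists_mem_open hO hne

theorem enl_att (h : MO X) (hA : X.A.Nonempty) (hd : ¬ Dense X.A) (N : ℕ) (c : Fin (N + 1) → E)
    (hc : ∀ k, c k ∈ (enl X h).S) :
    ∀ z ∈ (enl X h).A, Att (run (enl X h) (per c) (N + 1)) z := by
  rw [enl_run]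
  have hα : ∀ k, per c k ∈ X.S := fun k => hc _
  have key : ∀ C : Set Sph, IsOpen C → (∀ a ∈ X.S, ∀ x ∈ C, X.f a x ∈ C) →
      (∃ z₀ : ℂ, (z₀ : Sph) ∉ closure C) → ∀ x ∈ C, Att (run X (per c) (N + 1)) x := by
    intro C hC hinv ⟨z₀, hz₀⟩
    refine trap_att (run_hol X _ _) hC (K := closure (X.f (per c N) '' C))
      isClosed_closure.isCompact (closure_sub h hinv (hα N)) hz₀ fun x hx => ?_
    have h1 : ∀ n, run X (per c) n x ∈ C := by
      intro n
      induction n with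
      | zero => exact hx
      | succ n ih => exact hinv _ (hα n) _ ih
    exact subset_closure ⟨_, h1 N, rfl⟩
  rintro z (hz | hz)
  · refine key X.A X.Ao (fun a ha x hx => X.inv a ha x hx) ?_ z hz
    have h2 : (closure X.A)ᶜ.Nonempty := by
      rw [nonempty_compl]
      exact fun h3 => hd (dense_iff_closure_eq.2 h3)
    exact exists_coe isClosed_closure.isOpen_compl h2
  · refine key (WW X) (WW_open h) (fun a ha x hx => WW_map X hx ha) ?_ z hz
    obtain ⟨z₀, hz₀⟩ := exists_coe X.Ao hA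
    refine ⟨z₀, fun h2 => ?_⟩
    obtain ⟨w, hw1, hw2⟩ := mem_closure_iff.1 h2 X.A X.Ao hz₀
    exact WW_disj X hw2 hw1

/-- **Random compositions of maps with a common attracting region.** -/
theorem region_iid [SecondCountableTopology E] [MeasurableSpace E] [BorelSpace E] (X : Fam E)
    (μ : Measure E) [IsProbabilityMeasure μ] (h : MO X) (hA : X.A.Nonempty) (hd : ¬ Dense X.A)
    (hS : ∀ a ∈ X.S, ∀ V ∈ 𝓝 a, 0 < μ V) (h0 : ∀ᵐ a ∂μ, a ∈ X.S) :
    ∃ K θ : ℝ, 0 < K ∧ 0 < θ ∧ θ < 1 ∧ ∀ N : ℕ,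
      Measure.pi (fun _ : Fin (N + 1) => μ) {c | ¬ Hyp (run X (per c) (N + 1))} ≤
        ENNReal.ofReal (K * θ ^ (N + 1)) := by
  have hne : X.S.Nonempty := by
    obtain ⟨a, ha⟩ := h0.exists
    exact ⟨a, ha⟩
  obtain ⟨K, θ, h1, h2, h3, h4⟩ := main_iid (enl X h) μ hS (enl_reach h hne) h0
    (enl_att h hA hd)
  refine ⟨K, θ, h1, h2, h3, fun N => ?_⟩
  have h5 := h4 N
  simp only [enl_run] at h5
  exact h5

end Pool.Agent.U202.RM
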