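import Mathlib
import Pool.Agent.U202.RM.Region
import Pool.Agent.H790R3.RB.TINJL
import Pool.Agent.H790R3.RB.TWR
import Pool.Agent.H790R3.RB.TPQ

/-! The family of all rational maps of degree `d`. -/

set_option autoImplicit false
set_option linter.unusedSectionVars false

open MeasureTheory Filter Topology Set Metric Polynomial
open scoped ENNReal OnePoint

namespace Pool.Agent.U202.RM

open Pool.Agent.R239.Fat
open Pool.Agent.H790R3.RB (CV hF cr ND sp pr hc wr pol hF_contDiff hF_smul cr_smul_left cr_self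
  cr_eq_zero_iff)
open Pool.Agent.H790R3.RB.SP (pr_zero pr_ne pr_hc sp_pr sp_cont pr_eq_iff continuousAt_pr)

/-- nondegenerate maps form an open set -/
theorem ND_open {d : ℕ} {x₀ : CV d} (h : ND x₀) : ∀ᶠ x in 𝓝 x₀, ND x := by
  have hK : IsCompact (sphere (0 : ℂ × ℂ) 1) := isCompact_sphere _ _
  have h1 : ∀ᶠ x in 𝓝 x₀, ∀ y ∈ sphere (0 : ℂ × ℂ) 1, hF x y ≠ 0 := by
    apply hK.eventually_forall_of_forall_eventually
    intro y hy
    have h2 : ContinuousAt (fun q : CV d × (ℂ × ℂ) => hF q.1 q.2) (x₀, y) :=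
      (hF_contDiff d 1).continuous.continuousAt
    apply h2.eventually_ne
    intro h3
    have h4 : y = 0 := h y h3
    rw [h4] at hy
    simp at hy
  filter_upwards [h1] with x hx p hp
  by_contra hne
  have hn : ‖p‖ ≠ 0 := norm_ne_zero_iff.2 hne
  apply hx (((‖p‖⁻¹ : ℝ) : ℂ) • p)
  · rw [mem_sphere_zero_iff_norm, norm_smul]
    simp [hn]
  · rw [hF_smul, hp, smul_zero]

theorem isOpen_ND (d : ℕ) : IsOpen {x : CV d | ND x} := isOpen_iff_mem_nhds.2 fun _ h => ND_open h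

theorem wr_cont (d : ℕ) : Continuous fun q : CV d × (ℂ × ℂ) => wr q.1 q.2 := by
  unfold wr
  fun_prop

theorem euler {d : ℕ} (x : CV d) (p : ℂ × ℂ) : fderiv ℂ (hF x) p p = (d : ℂ) • hF x p :=
  Pool.Agent.H790R3.RB.INJL.euler x p

theorem derivative_pol {d : ℕ} (x : CV d) (i : Fin 2) :
    derivative (pol x i) = Pool.Agent.H790R3.RB.WR.WU fun j => x (i, j) := by
  unfold pol Pool.Agent.H790R3.RB.WR.WU
  rw [derivative_sum]
  refine Finset.sum_congr rfl fun j _ => ?_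
  rw [derivative_monomial, C_mul_X_pow_eq_monomial]

theorem wr_wronskian {d : ℕ} (hd : 2 ≤ d) (x : CV d) (ζ : ℂ) :
    wr x (ζ, 1) = d * (derivative (pol x 0) * pol x 1 - pol x 0 * derivative (pol x 1)).eval ζ := by
  have h1 := (Pool.Agent.H790R3.RB.WR d x hd).2.2 (ζ, 1) (1, 0) (ζ, 1)
  rw [euler, Pool.Agent.H790R3.RB.WR.fderiv_hF, Pool.Agent.H790R3.RB.PQ.hF_one] at h1
  unfold cr at h1
  simp only [Prod.smul_fst, Prod.smul_snd, smul_eq_mul, mul_one, mul_zero, add_zero, zero_mul,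
    sub_zero] at h1
  rw [← h1, ← Pool.Agent.H790R3.RB.WR.WU_eval, ← Pool.Agent.H790R3.RB.WR.WU_eval,
    ← derivative_pol, ← derivative_pol, eval_sub, eval_mul, eval_mul]
  ring

theorem crit_zero {d : ℕ} (hd : 2 ≤ d) {x : CV d} (hx : ND x) {u : Sph} (h : ¬ LocInj (sp x) u) :
    wr x (hc u) = 0 := by
  by_contra hne
  have h1 := Pool.Agent.H790R3.RB.INJL Pool.Agent.H790R3.RB.SP Pool.Agent.H790R3.RB.WR d x (hc u) hd hx (pr_hc u).2 hne
  rw [(pr_hc u).1] at h1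
  exact h h1

theorem zeros_finite {d : ℕ} (hd : 2 ≤ d) {x : CV d} (hx : ND x) :
    ∃ s : Finset Sph, s.card ≤ 2 * d ∧ ∀ u, wr x (hc u) = 0 → u ∈ s := by
  classical
  obtain ⟨-, ⟨W, hW, hWe, -⟩, -⟩ := Pool.Agent.H790R3.RB.WR d x hd
  obtain ⟨hcop, hmax⟩ := Pool.Agent.H790R3.RB.PQ.part1 (by omega : 1 ≤ d) x hx
  have hW0 : W ≠ 0 := by
    rintro rfl
    have h1 := wronskian_ne hcop (by omega)
    apply h1
    refine Polynomial.funext fun ζ => ?_
    have h2 := wr_wronskian hd x ζ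
    rw [← hWe, eval_zero] at h2
    have h3 : (d : ℂ) ≠ 0 := by
      have : d ≠ 0 := by omega
      exact_mod_cast this
    rw [eval_zero]
    exact (mul_eq_zero.1 h2.symm).resolve_left h3
  refine ⟨insert (OnePoint.infty : Sph) (W.roots.toFinset.image fun z : ℂ => (z : Sph)), ?_, fun u hu => ?_⟩
  · refine (Finset.card_insert_le _ _).trans ?_
    have h1 : (W.roots.toFinset.image fun z : ℂ => (z : Sph)).card ≤ 2 * d - 2 :=
      Finset.card_image_le.trans ((Multiset.toFinset_card_le _).trans ((card_roots' _).trans hW))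
    omega
  · induction u using OnePoint.rec with
    | infty => exact Finset.mem_insert_self _ _
    | coe z =>
      refine Finset.mem_insert_of_mem (Finset.mem_image_of_mem _ ?_)
      rw [Multiset.mem_toFinset, mem_roots hW0, IsRoot, hWe]
      exact hu

/-- the nondegenerate coefficient vectors -/
abbrev NDs (d : ℕ) : Type := {x : CV d // ND x}

theorem hF_hc_ne {d : ℕ} (x₀ : NDs d) (s₀ : Sph) : hF x₀.1 (hc s₀) ≠ 0 :=
  fun h => (pr_hc s₀).2 (x₀.2 _ h)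

theorem val_tendsto {d : ℕ} (x₀ : NDs d) :
    Tendsto (fun y : NDs d => y.1) (𝓝 x₀) (𝓝[{x | ND x}] x₀.1) :=
  tendsto_nhdsWithin_iff.2 ⟨continuous_subtype_val.continuousAt,
    Eventually.of_forall fun p => p.2⟩

theorem val_tendsto' {d : ℕ} (x₀ : NDs d) (s₀ : Sph) :
    Tendsto (fun p : NDs d × Sph => ((p.1.1, p.2) : CV d × Sph)) (𝓝 x₀ ×ˢ 𝓝 s₀)
      (𝓝[{x | ND x}] x₀.1 ×ˢ 𝓝 s₀) := (val_tendsto x₀).prodMap tendsto_id

theorem sp_tendsto {d : ℕ} (x₀ : NDs d) (s₀ : Sph) :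
    Tendsto (fun q : CV d × Sph => sp q.1 q.2) (𝓝[{x | ND x}] x₀.1 ×ˢ 𝓝 s₀)
      (𝓝 (pr (hF x₀.1 (hc s₀)))) := jc (hF_hc_ne x₀ s₀)

theorem sp_joint_at {d : ℕ} (x₀ : NDs d) (s₀ : Sph) :
    Tendsto (fun p : NDs d × Sph => sp p.1.1 p.2) (𝓝 x₀ ×ˢ 𝓝 s₀) (𝓝 (pr (hF x₀.1 (hc s₀)))) :=
  Tendsto.comp (g := fun q : CV d × Sph => sp q.1 q.2)
    (f := fun p : NDs d × Sph => ((p.1.1, p.2) : CV d × Sph)) (sp_tendsto x₀ s₀)
    (val_tendsto' x₀ s₀)

theorem sp_joint (d : ℕ) : Continuous fun p : NDs d × Sph => sp p.1.1 p.2 := by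
  refine continuous_iff_continuousAt.2 fun p => ?_
  have h := sp_joint_at p.1 p.2
  rw [← nhds_prod_eq] at h
  exact h

theorem Z_closed {d : ℕ} (hd : 2 ≤ d) :
    IsClosed {q : NDs d × Sph | wr q.1.1 (hc q.2) = 0} := by
  rw [← isOpen_compl_iff, isOpen_iff_mem_nhds]
  rintro ⟨⟨x₀, hx₀⟩, s₀⟩ hq
  have hq' : wr x₀ (hc s₀) ≠ 0 := hq
  have h1 := ((wr_cont d).continuousAt (x := (x₀, hc s₀))).eventually_ne hq'
  rw [nhds_prod_eq, eventually_prod_iff] at h1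
  obtain ⟨P, hP, Q, hQ, hPQ⟩ := h1
  have h2 : ∀ᶠ y : NDs d in 𝓝 ⟨x₀, hx₀⟩, P y.1 := continuous_subtype_val.continuousAt.eventually hP
  rw [nhds_prod_eq]
  filter_upwards [prod_mem_prod h2 (pr_nhds s₀ hQ)]
  rintro ⟨y, s⟩ ⟨hy, p, hp, hp0, hps⟩
  show ¬ wr y.1 (hc s) = 0
  subst hps
  have h3 := pr_hc (pr p)
  have h4 : cr (hc (pr p)) p = 0 := (pr_eq_iff h3.2 hp0).1 h3.1
  obtain ⟨a, ha, h5⟩ := (cr_eq_zero_iff h3.2 hp0).1 h4
  rw [h5, (Pool.Agent.H790R3.RB.WR d y.1 hd).1]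
  exact mul_ne_zero (pow_ne_zero _ ha) (hPQ hy hp)

/-- the pairs (map, zero of the Wronskian) -/
def Zs (d : ℕ) : Set (NDs d × Sph) := {q | wr q.1.1 (hc q.2) = 0}

theorem mem_Zs {d : ℕ} {a : NDs d} {u : Sph} : (a, u) ∈ Zs d ↔ wr a.1 (hc u) = 0 := Iff.rfl

theorem Zs_finite {d : ℕ} (hd : 2 ≤ d) (a : NDs d) :
    ∃ s : Finset Sph, s.card ≤ 2 * d ∧ ∀ u, (a, u) ∈ Zs d → u ∈ s := by
  obtain ⟨s, hs, h⟩ := zeros_finite hd a.2
  exact ⟨s, hs, fun u hu => h u (mem_Zs.1 hu)⟩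

/-- the pairs (map, critical value) -/
def Vs (d : ℕ) : Set (NDs d × Sph) := {q | ∃ u, (q.1, u) ∈ Zs d ∧ q.2 = sp q.1.1 u}

theorem Vs_closed {d : ℕ} (hd : 2 ≤ d) : IsClosed (Vs d) := by
  have h1 : IsClosed {q : (NDs d × Sph) × Sph | (q.1.1, q.2) ∈ Zs d ∧
      q.1.2 = sp q.1.1.1 q.2} := by
    have e1 : Continuous fun q : (NDs d × Sph) × Sph => (q.1.1, q.2) :=
      (continuous_fst.comp continuous_fst).prodMk continuous_snd
    refine ((Z_closed hd).preimage e1).inter (isClosed_eq (continuous_snd.comp continuous_fst) ?_)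
    exact (sp_joint d).comp e1
  have h2 := isClosedMap_fst_of_compactSpace _ h1
  convert h2 using 1
  ext p
  constructor
  · rintro ⟨u, hu, hs⟩
    exact ⟨(p, u), ⟨hu, hs⟩, rfl⟩
  · rintro ⟨⟨p', u⟩, ⟨hu, hs⟩, rfl⟩
    exact ⟨u, hu, hs⟩

theorem Vs_finite {d : ℕ} (hd : 2 ≤ d) (a : NDs d) :
    ∃ s : Finset Sph, s.card ≤ 2 * d ∧ ∀ v, (a, v) ∈ Vs d → v ∈ s := by
  classical
  obtain ⟨s, hs, h⟩ := Zs_finite hd a
  refine ⟨s.image (sp a.1), Finset.card_image_le.trans hs, ?_⟩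
  rintro v ⟨u, hu, hv⟩
  have hv' : v = sp a.1 u := hv
  rw [hv']
  exact Finset.mem_image_of_mem _ (h u hu)

/-- the family of all rational maps of degree `d`, with a set `S` and an invariant open set -/
noncomputable def fam {d : ℕ} (hd : 2 ≤ d) (S : Set (NDs d)) (A : Set Sph) (hA : IsOpen A)
    (hinv : ∀ a ∈ S, ∀ z ∈ A, sp a.1 z ∈ A) : Fam (NDs d) where
  f a := sp a.1
  cont := sp_joint d
  hol a := hol_sp (by omega) a.2
  Z := Vs d
  Zc := Vs_closed hd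
  ZL a u h := ⟨u, mem_Zs.2 (crit_zero hd a.2 h), rfl⟩
  cn := 2 * d
  Zf a := Vs_finite hd a
  S := S
  A := A
  Ao := hA
  inv := hinv

/-- the coefficient vector of the composition with a Moebius map -/
def post {d : ℕ} (α β γ κ : ℂ) (x : CV d) : CV d := fun q =>
  if q.1 = 0 then α * x (0, q.2) + β * x (1, q.2) else γ * x (0, q.2) + κ * x (1, q.2)

theorem hF_post {d : ℕ} (α β γ κ : ℂ) (x : CV d) (p : ℂ × ℂ) : hF (post α β γ κ x) p =
    (α * (hF x p).1 + β * (hF x p).2, γ * (hF x p).1 + κ * (hF x p).2) := by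
  unfold hF post
  refine Prod.ext ?_ ?_
  · simp only [if_true, Finset.mul_sum, ← Finset.sum_add_distrib]
    exact Finset.sum_congr rfl fun j _ => by ring
  · simp only [Fin.isValue, one_ne_zero, if_false, Finset.mul_sum, ← Finset.sum_add_distrib]
    exact Finset.sum_congr rfl fun j _ => by ring

theorem post_ND {d : ℕ} {α β γ κ : ℂ} (h : α * κ - β * γ ≠ 0) {x : CV d} (hx : ND x) :
    ND (post α β γ κ x) := by
  intro p hp
  by_contra hne
  rw [hF_post] at hp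
  exact lin_ne h (fun h0 => hne (hx p h0)) hp

theorem sp_post {d : ℕ} {α β γ κ : ℂ} (h : α * κ - β * γ ≠ 0) {x : CV d} (hx : ND x) :
    sp (post α β γ κ x) = mob α β γ κ ∘ sp x := by
  funext s
  obtain ⟨p, hp, rfl⟩ := exists_pr s
  rw [sp_pr (post_ND h hx) hp, hF_post]
  show _ = mob α β γ κ (sp x (pr p))
  rw [sp_pr hx hp, mob_pr h fun h0 => hp (hx p h0)]

theorem post_near {d : ℕ} {α β γ κ : ℂ} {δ : ℝ} (h : Near δ α β γ κ) (x : CV d) :
    ‖post α β γ κ x - x‖ ≤ 2 * δ * ‖x‖ := by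
  obtain ⟨-, h1, h2, h3, h4⟩ := h
  have hδ : 0 ≤ δ := (norm_nonneg _).trans h2.le
  refine (pi_norm_le_iff_of_nonneg (by positivity)).2 ?_
  rintro ⟨i, j⟩
  have e0 : ‖x (0, j)‖ ≤ ‖x‖ := norm_le_pi_norm x _
  have e1 : ‖x (1, j)‖ ≤ ‖x‖ := norm_le_pi_norm x _
  show ‖post α β γ κ x (i, j) - x (i, j)‖ ≤ _
  unfold post
  fin_cases i
  · simp only [Fin.zero_eta, Fin.isValue, if_true]
    have : α * x (0, j) + β * x (1, j) - x (0, j) = (α - 1) * x (0, j) + β * x (1, j) := by ring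
    rw [this]
    refine (norm_add_le _ _).trans ?_
    rw [norm_mul, norm_mul]
    have := mul_le_mul h1.le e0 (norm_nonneg _) hδ
    have := mul_le_mul h2.le e1 (norm_nonneg _) hδ
    linarith
  · simp only [Fin.mk_one, Fin.isValue, one_ne_zero, if_false]
    have : γ * x (0, j) + κ * x (1, j) - x (1, j) = γ * x (0, j) + (κ - 1) * x (1, j) := by ring
    rw [this]
    refine (norm_add_le _ _).trans ?_
    rw [norm_mul, norm_mul]
    have := mul_le_mul h3.le e0 (norm_nonneg _) hδ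
    have := mul_le_mul h4.le e1 (norm_nonneg _) hδ
    linarith

end Pool.Agent.U202.RM
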