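import Mathlib
import Pool.Agent.U202.RM.Conc

/-! Random compositions of rational maps of degree `d`: the form for random variables. -/

set_option autoImplicit false
set_option linter.unusedSectionVars false

open MeasureTheory Filter Topology Set Metric ProbabilityTheory
open scoped ENNReal OnePoint

namespace Pool.Agent.U202.RM

open Pool.Agent.R239.Fat (Sph LocInj Att Hyp)
open Pool.Agent.H790R3.RB (CV hF cr ND sp pr hc)

/-- the composition of the first `n` maps -/
noncomputable def comp {d : ℕ} (x : ℕ → CV d) : ℕ → Sph → Sph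
  | 0 => id
  | n + 1 => sp (x n) ∘ comp x n

/-- stability of a set of coefficient vectors under small Moebius maps -/
def Stable {d : ℕ} (S : Set (CV d)) : Prop :=
  ∀ x ∈ S, ∃ δ : ℝ, 0 < δ ∧ ∀ α β γ κ : ℂ, Near δ α β γ κ → post α β γ κ x ∈ S

/-- the compositions of independent maps with the law `μ` are hyperbolic with large probability -/
def Concl {d : ℕ} (μ : Measure (CV d)) : Prop :=
  ∃ K θ : ℝ, 0 < K ∧ 0 < θ ∧ θ < 1 ∧
    ∀ (Ω : Type) [MeasurableSpace Ω] (P : Measure Ω) [IsProbabilityMeasure P]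
      (x : ℕ → Ω → CV d), (∀ i, Measurable (x i)) → iIndepFun x P →
      (∀ i, P.map (x i) = μ) → ∀ σ : ℕ → ℕ → ℕ, (∀ n, InjOn (σ n) (Iio n)) →
        (∀ n, P {ω | ¬ Hyp (comp (fun k => x (σ n k) ω) n)} ≤ ENNReal.ofReal (K * θ ^ n)) ∧
        ∀ᵐ ω ∂P, ∀ᶠ n in atTop, Hyp (comp (fun k => x (σ n k) ω) n)

theorem sum_fin {K θ : ℝ} (hK : 0 < K) (h0 : 0 < θ) (h1 : θ < 1) :
    (∑' n : ℕ, ENNReal.ofReal (K * θ ^ n)) ≠ ⊤ := by
  have hs : Summable fun n : ℕ => K * θ ^ n :=
    (summable_geometric_of_lt_one h0.le h1).mul_left K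
  rw [← ENNReal.ofReal_tsum_of_nonneg (fun n => by positivity) hs]
  exact ENNReal.ofReal_ne_top

theorem comp_eq {d : ℕ} (hd : 2 ≤ d) (S : Set (NDs d)) (A : Set Sph) (hA : IsOpen A)
    (hinv : ∀ a ∈ S, ∀ z ∈ A, sp a.1 z ∈ A) {x : ℕ → CV d} {α : ℕ → NDs d} {n : ℕ}
    (h : ∀ k < n, (α k).1 = x k) : run (fam hd S A hA hinv) α n = comp x n := by
  induction n with
  | zero => rfl
  | succ n ih =>
    funext z
    show sp (α n).1 (run (fam hd S A hA hinv) α n z) = sp (x n) (comp x n z)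
    rw [ih fun k hk => h k (by omega), h n (by omega)]

theorem hyp_id : Hyp (id : Sph → Sph) := fun _ hc =>
  absurd ⟨univ, univ_mem, injOn_id univ⟩ hc

theorem law_thm {d : ℕ} (hd : 2 ≤ d) (μ : Measure (CV d)) [IsProbabilityMeasure μ]
    (S : Set (CV d)) (hS : ∀ x ∈ S, ND x) (h0 : μ Sᶜ = 0) (hpos : ∀ x ∈ S, ∀ V ∈ 𝓝 x, 0 < μ V)
    (hst : Stable S) (A : Set Sph) (hA : IsOpen A) (hne : A.Nonempty) (hnd : ¬ Dense A)
    (hinv : ∀ x ∈ S, ∀ z ∈ A, sp x z ∈ A) : Concl μ := by
  classical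
  -- the projection to the nondegenerate vectors
  have hSne : S.Nonempty := by
    by_contra h
    rw [not_nonempty_iff_eq_empty] at h
    rw [h, compl_empty, measure_univ] at h0
    exact one_ne_zero h0
  obtain ⟨a₀, ha₀⟩ := hSne
  have hNm : MeasurableSet {x : CV d | ND x} := (isOpen_ND d).measurableSet
  have hemb : MeasurableEmbedding (fun a : NDs d => a.1) := MeasurableEmbedding.subtype_coe hNm
  obtain ⟨g, hg, hgi⟩ := hemb.exists_measurable_extend (g := fun a : NDs d => a) measurable_id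
    fun _ => ⟨⟨a₀, hS a₀ ha₀⟩⟩
  have hgi' : ∀ a : NDs d, g a.1 = a := fun a => congrFun hgi a
  have hgS : ∀ x ∈ S, (g x).1 = x := fun x hx => by
    have := hgi' ⟨x, hS x hx⟩
    simp only at this
    rw [this]
  set ν : Measure (NDs d) := μ.map g with hν
  have hνp : IsProbabilityMeasure ν := Measure.isProbabilityMeasure_map hg.aemeasurable
  set S' : Set (NDs d) := {a | a.1 ∈ S} with hS'
  have hae : ∀ᵐ x ∂μ, x ∈ S := by
    rw [ae_iff]
    exact h0
  have hνS : ∀ᵐ a ∂ν, a ∈ S' := by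
    rw [ae_iff]
    obtain ⟨T, hT, hTm, hT0⟩ := exists_measurable_superset_of_null h0
    have h1 : {a : NDs d | ¬ a ∈ S'} ⊆ (fun a : NDs d => a.1) ⁻¹' T := fun a ha => hT ha
    refine measure_mono_null h1 ?_
    rw [hν, Measure.map_apply hg (hemb.measurable hTm)]
    refine measure_mono_null ?_ hT0
    intro x hx
    by_contra hxT
    have hxS : x ∈ S := by
      by_contra h
      exact hxT (hT h)
    have h2 : (g x).1 ∈ T := hx
    rw [hgS x hxS] at h2
    exact hxT h2
  have hopen : IsOpenEmbedding (fun a : NDs d => a.1) := (isOpen_ND d).isOpenEmbedding_subtypeVal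
  have hνpos : ∀ a ∈ S', ∀ V ∈ 𝓝 a, 0 < ν V := by
    intro a ha V hV
    obtain ⟨O, hOV, hO, haO⟩ := _root_.mem_nhds_iff.1 hV
    refine lt_of_lt_of_le ?_ (measure_mono hOV)
    rw [hν, Measure.map_apply hg hO.measurableSet]
    have h1 : (fun a : NDs d => a.1) '' O ⊆ g ⁻¹' O := by
      rintro _ ⟨b, hb, rfl⟩
      show g b.1 ∈ O
      rw [hgi' b]
      exact hb
    refine lt_of_lt_of_le ?_ (measure_mono h1)
    exact hpos a.1 ha _ ((hopen.isOpenMap O hO).mem_nhds ⟨a, haO, rfl⟩)
  have hinv' : ∀ a ∈ S', ∀ z ∈ A, sp a.1 z ∈ A := fun a ha => hinv a.1 ha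
  set X := fam hd S' A hA hinv' with hX
  have hMO : MO X := by
    intro a ha
    obtain ⟨δ, hδ, h1⟩ := hst a.1 ha
    refine ⟨δ, hδ, fun α β γ κ hn => ?_⟩
    have h2 := h1 α β γ κ hn
    refine ⟨⟨post α β γ κ a.1, hS _ h2⟩, h2, ?_⟩
    exact sp_post (near_ne hn) a.2
  obtain ⟨K, θ, hK, hθ0, hθ1, hmain⟩ := region_iid X ν hMO hne hnd hνpos hνS
  refine ⟨K, θ, hK, hθ0, hθ1, fun Ω _ P _ x hx hind hlaw σ hσ => ?_⟩
  have hxS : ∀ i, ∀ᵐ ω ∂P, x i ω ∈ S := by
    intro i
    have h2 : ∀ᵐ a ∂(P.map (x i)), a ∈ S := by rw [hlaw i]; exact hae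
    exact ae_of_ae_map (hx i).aemeasurable h2
  set y : ℕ → Ω → NDs d := fun i ω => g (x i ω) with hy
  have hym : ∀ i, Measurable (y i) := fun i => hg.comp (hx i)
  have hyind : iIndepFun y P := hind.comp (fun _ => g) fun _ => hg
  have hylaw : ∀ i, P.map (y i) = ν := by
    intro i
    rw [hν, ← hlaw i, Measure.map_map hg (hx i)]
    rfl
  have key : ∀ n, P {ω | ¬ Hyp (comp (fun k => x (σ n k) ω) n)} ≤
      ENNReal.ofReal (K * θ ^ n) := by
    intro n
    cases n with
    | zero =>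
      have : {ω | ¬ Hyp (comp (fun k => x (σ 0 k) ω) 0)} = ∅ := by
        ext ω
        simp only [mem_ofPred_eq, mem_empty_iff_false, iff_false, not_not]
        exact hyp_id
      rw [this, measure_empty]
      exact zero_le
    | succ N =>
      set V : Ω → (Fin (N + 1) → NDs d) := fun ω k => y (σ (N + 1) k.val) ω with hV
      have hVm : Measurable V := measurable_pi_lambda _ fun k => hym _
      have hinj : Function.Injective fun k : Fin (N + 1) => σ (N + 1) k.val := by
        intro k l hkl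
        exact Fin.ext (hσ (N + 1) k.2 l.2 hkl)
      have hlawV : P.map V = Measure.pi fun _ : Fin (N + 1) => ν := by
        have h2 := (iIndepFun_iff_map_fun_eq_pi_map (μ := P)
          (f := fun k : Fin (N + 1) => y (σ (N + 1) k.val))
          (fun k => (hym _).aemeasurable)).1 (hyind.precomp hinj)
        rw [hV, h2]
        congr 1
        funext k
        exact hylaw _
      set B : Set (Fin (N + 1) → NDs d) := {c | ¬ Hyp (run X (per c) (N + 1))} with hB
      have hBle : (Measure.pi fun _ : Fin (N + 1) => ν) B ≤ ENNReal.ofReal (K * θ ^ (N + 1)) :=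
        hmain N
      have hnull : P (⋃ k : Fin (N + 1), {ω | x (σ (N + 1) k.val) ω ∉ S}) = 0 := by
        rw [measure_iUnion_null_iff]
        intro k
        exact hxS _
      have hsub : {ω | ¬ Hyp (comp (fun k => x (σ (N + 1) k) ω) (N + 1))} ⊆
          V ⁻¹' (toMeasurable (Measure.pi fun _ : Fin (N + 1) => ν) B) ∪
            (⋃ k : Fin (N + 1), {ω | x (σ (N + 1) k.val) ω ∉ S}) := by
        intro ω hω
        by_contra hcon
        simp only [mem_union, mem_iUnion, not_or, not_exists, mem_ofPred_eq, not_not] at hcon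
        obtain ⟨h2, h3⟩ := hcon
        have h4 : V ω ∉ B := fun h => h2 (subset_toMeasurable _ _ h)
        rw [hB, mem_ofPred_eq, not_not] at h4
        apply hω
        have h5 : run X (per (V ω)) (N + 1) = comp (fun k => x (σ (N + 1) k) ω) (N + 1) := by
          refine comp_eq hd S' A hA hinv' fun k hk => ?_
          have h6 : per (V ω) k = V ω ⟨k, hk⟩ := per_val (V ω) ⟨k, hk⟩
          rw [h6]
          exact hgS _ (h3 ⟨k, hk⟩)
        rw [← h5]
        exact h4
      calc P _ ≤ P _ := measure_mono hsub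
        _ ≤ P (V ⁻¹' (toMeasurable (Measure.pi fun _ : Fin (N + 1) => ν) B)) +
            P (⋃ k : Fin (N + 1), {ω | x (σ (N + 1) k.val) ω ∉ S}) :=
            measure_union_le _ _
        _ = P (V ⁻¹' (toMeasurable (Measure.pi fun _ : Fin (N + 1) => ν) B)) := by
            rw [hnull, add_zero]
        _ = (P.map V) (toMeasurable (Measure.pi fun _ : Fin (N + 1) => ν) B) :=
            (Measure.map_apply hVm (measurableSet_toMeasurable _ _)).symm
        _ = (Measure.pi fun _ : Fin (N + 1) => ν) B := by rw [hlawV, measure_toMeasurable]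
        _ ≤ _ := hBle
  refine ⟨key, ?_⟩
  have h2 := ae_eventually_notMem (μ := P) (s := fun n =>
    {ω | ¬ Hyp (comp (fun k => x (σ n k) ω) n)})
    (ne_top_of_le_ne_top (sum_fin hK hθ0 hθ1) (ENNReal.tsum_le_tsum key))
  filter_upwards [h2] with ω hω
  filter_upwards [hω] with n hn
  exact not_not.1 hn

end Pool.Agent.U202.RM
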