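import Mathlib
import Pool.Agent.U202.RM.Final

/-! Maps with an attracting cycle have a trap which is a trap of all maps nearby. -/

set_option autoImplicit false
set_option linter.unusedSectionVars false

open MeasureTheory Filter Topology Set Metric
open scoped ENNReal

namespace Pool.Agent.U202.RM

open Pool.Agent.R239.Fat (Sph LocInj Att Hyp Snk AttBy absorb_compact lin_ne jc_compact)
open Pool.Agent.H790R3.RB (CV hF cr ND sp pr hc cr_eq_zero_iff)
open Pool.Agent.H790R3.RB.SP (pr_zero pr_ne pr_hc sp_pr sp_cont pr_eq_iff)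

/-- a chain of open sets -/
theorem chain {g : Sph → Sph} (hg : Continuous g) {V : Set Sph} (hV : IsOpen V) (m : ℕ) :
    ∀ K : Set Sph, IsCompact K → (∀ w ∈ K, g^[m] w ∈ V) →
      ∃ O : Set Sph, IsOpen O ∧ K ⊆ O ∪ V ∧ (∀ w ∈ closure O, g w ∈ O ∪ V) ∧
        ∀ w ∈ closure O, ∃ j, g^[j] w ∈ V := by
  induction m with
  | zero =>
    intro K _ hKV
    exact ⟨∅, isOpen_empty, fun w hw => Or.inr (hKV w hw), by simp, by simp⟩
  | succ m ih =>
    intro K hK hKV
    obtain ⟨O, hO, h1, h2, h3⟩ := ih (g '' K) (hK.image hg) (by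
      rintro _ ⟨w, hw, rfl⟩
      have := hKV w hw
      rwa [Function.iterate_succ_apply] at this)
    set T : Set Sph := (g ⁻¹' (O ∪ V)) ∩ (g^[m + 1]) ⁻¹' V with hT
    have hTo : IsOpen T := ((hO.union hV).preimage hg).inter (hV.preimage (hg.iterate _))
    have hKT : K ⊆ T := fun w hw => ⟨h1 ⟨w, hw, rfl⟩, hKV w hw⟩
    obtain ⟨O', hO', hKO', hcl⟩ := normal_exists_closure_subset hK.isClosed hTo hKT
    refine ⟨O ∪ O', hO.union hO', fun w hw => Or.inl (Or.inr (hKO' hw)), ?_, ?_⟩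
    · intro w hw
      rw [closure_union] at hw
      rcases hw with hw | hw
      · rcases h2 w hw with h | h
        · exact Or.inl (Or.inl h)
        · exact Or.inr h
      · rcases (hcl hw).1 with h | h
        · exact Or.inl (Or.inl h)
        · exact Or.inr h
    · intro w hw
      rw [closure_union] at hw
      rcases hw with hw | hw
      · exact h3 w hw
      · exact ⟨m + 1, (hcl hw).2⟩

/-- a map with an attracting cycle has a trap -/
theorem exists_trap {g : Sph → Sph} (hg : Continuous g) (hsurj : Function.Surjective g) {n : ℕ}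
    {a : Sph} (h : Snk g n a) :
    ∃ D : Set Sph, IsOpen D ∧ D.Nonempty ∧ ¬ Dense D ∧ ∀ w ∈ closure D, g w ∈ D := by
  obtain ⟨hn, ha, -⟩ := id h
  set A : Set Sph := range fun i : ℕ => g^[i] a with hA
  have hAf : A.Finite := by
    have h1 : A ⊆ (fun i : ℕ => g^[i] a) '' (Finset.range n : Set ℕ) := by
      rintro _ ⟨i, rfl⟩
      refine ⟨i % n, by simpa using Nat.mod_lt i hn, ?_⟩
      exact (Function.IsPeriodicPt.iterate_mod_apply (f := g) ha i)
    exact (Set.Finite.image _ (Finset.finite_toSet _)).subset h1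
  have hmap : ∀ b ∈ A, g b ∈ A := by
    rintro _ ⟨i, rfl⟩
    exact ⟨i + 1, Function.iterate_succ_apply' g i a⟩
  have hs : ∀ b ∈ A, ∃ n, Snk g n b := by
    rintro _ ⟨i, rfl⟩
    refine ⟨n, hn, ?_, ?_⟩
    · rw [← Function.iterate_add_apply, Nat.add_comm, Function.iterate_add_apply, ha]
    · obtain ⟨U, hU, hUV⟩ := h.2.2
      -- choose `j` with `i + j` a multiple of `n`
      obtain ⟨j, hj⟩ : ∃ j, i + j = n * i := ⟨n * i - i, by
        have : i ≤ n * i := Nat.le_mul_of_pos_left i hn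
        omega⟩
      have e1 : g^[j] (g^[i] a) = a := by
        rw [← Function.iterate_add_apply, Nat.add_comm, hj, Function.iterate_mul]
        exact Function.iterate_fixed ha i
      refine ⟨g^[j] ⁻¹' U, (hg.iterate j).continuousAt.preimage_mem_nhds (by
        show U ∈ 𝓝 (g^[j] (g^[i] a)); rw [e1]; exact hU), fun V hV => ?_⟩
      have e2 : (g^[i]) ⁻¹' V ∈ 𝓝 a := (hg.iterate i).continuousAt.preimage_mem_nhds hV
      obtain ⟨k₀, hk₀⟩ := eventually_atTop.1 (hUV _ e2)
      filter_upwards [eventually_ge_atTop (k₀ + i)] with k hk w hw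
      have h2 : g^[i] (g^[n * (k - i)] (g^[j] w)) ∈ V := hk₀ (k - i) (by omega) _ hw
      rw [← Function.iterate_add_apply, ← Function.iterate_add_apply] at h2
      have h3 : i + n * (k - i) + j = n * k := by
        have h4 : n * k = n * (k - i) + n * i := by
          rw [← Nat.mul_add]; congr 1; omega
        omega
      rwa [h3] at h2
  obtain ⟨U, hU, hAU, h1, h2⟩ := Pool.Agent.R239.Fat.absorb hg hAf hmap hs
  obtain ⟨V, hV, hAV, hVU⟩ := normal_exists_closure_subset hAf.isClosed hU hAU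
  obtain ⟨n₀, hn₀⟩ := h2 V hV hAV
  obtain ⟨O, hO, h3, h4, h5⟩ := chain hg hV n₀ (g '' closure V)
    (isClosed_closure.isCompact.image hg) (by
      rintro _ ⟨w, hw, rfl⟩
      rw [← Function.iterate_succ_apply]
      exact hn₀ (n₀ + 1) (by omega) w (hVU hw))
  refine ⟨O ∪ V, hO.union hV, ⟨a, Or.inr (hAV ⟨0, rfl⟩)⟩, ?_, ?_⟩
  · intro hdense
    -- all points are attracted
    have hall : ∀ z, AttBy g A z := by
      intro z
      rw [h1]
      have hz : z ∈ closure (O ∪ V) := hdense z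
      rw [closure_union] at hz
      rcases hz with hz | hz
      · obtain ⟨j, hj⟩ := h5 z hz
        exact ⟨j, hVU (subset_closure hj)⟩
      · exact ⟨0, hVU hz⟩
    obtain ⟨q, hq⟩ : ∃ q : Sph, q ∉ A := by
      by_contra hcon
      push Not at hcon
      have h6 : (univ : Set Sph).Finite := hAf.subset fun z _ => hcon z
      have h7 : (univ : Set ℂ).Finite := by
        refine Set.Finite.of_finite_image (f := fun z : ℂ => (z : Sph)) (h6.subset (subset_univ _))
          OnePoint.coe_injective.injOn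
      exact Set.infinite_univ h7
    obtain ⟨m, hm⟩ := absorb_compact hg hAf hmap hs isCompact_univ (fun z _ => hall z)
      (V := {q}ᶜ) isOpen_compl_singleton (fun b hb => by rintro rfl; exact hq hb)
    obtain ⟨z, hz⟩ := (hsurj.iterate m) q
    exact hm m le_rfl z (mem_univ z) hz
  · intro w hw
    rw [closure_union] at hw
    rcases hw with hw | hw
    · exact h4 w hw
    · exact h3 ⟨w, hw, rfl⟩

/-- rational maps are surjective -/
theorem sp_surj {d : ℕ} (hd : 1 ≤ d) {x : CV d} (hx : ND x) : Function.Surjective (sp x) := by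
  intro s
  obtain ⟨p, hp, rfl⟩ := Pool.Agent.R239.Fat.exists_pr s
  -- a root of the binary form
  suffices h : ∃ q : ℂ × ℂ, q ≠ 0 ∧ cr (hF x q) p = 0 by
    obtain ⟨q, hq, hc0⟩ := h
    refine ⟨pr q, ?_⟩
    rw [sp_pr hx hq]
    exact (pr_eq_iff (fun h0 => hq (hx q h0)) hp).2 hc0
  set b : Fin (d + 1) → ℂ := fun j => x (0, j) * p.2 - x (1, j) * p.1 with hb
  have hcr : ∀ q : ℂ × ℂ, cr (hF x q) p =
      ∑ j : Fin (d + 1), b j * (q.1 ^ (j : ℕ) * q.2 ^ (d - (j : ℕ))) := by
    intro q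
    unfold cr hF
    simp only [Finset.sum_mul, ← Finset.sum_sub_distrib, hb]
    exact Finset.sum_congr rfl fun j _ => by ring
  by_cases hbd : b (Fin.last d) = 0
  · refine ⟨(1, 0), by simp, ?_⟩
    rw [hcr, Fin.sum_univ_castSucc]
    simp only [Fin.val_castSucc, one_pow, one_mul, Fin.val_last, Nat.sub_self, pow_zero, mul_one,
      hbd, add_zero]
    refine Finset.sum_eq_zero fun j _ => ?_
    have : d - (j : ℕ) ≠ 0 := by have := j.2; omega
    rw [zero_pow this, mul_zero]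
  · set F : Polynomial ℂ := ∑ j : Fin (d + 1), Polynomial.monomial (j : ℕ) (b j) with hFdef
    have hcoef : F.coeff d = b (Fin.last d) := by
      rw [hFdef, Polynomial.finset_sum_coeff, Fin.sum_univ_castSucc]
      simp only [Polynomial.coeff_monomial, Fin.val_castSucc, Fin.val_last, if_true]
      rw [Finset.sum_eq_zero, zero_add]
      intro j _
      have : (j : ℕ) ≠ d := by have := j.2; omega
      rw [if_neg this]
    have hdeg : F.degree ≠ 0 := by
      intro h0
      have h1 : F.natDegree = 0 := Polynomial.natDegree_eq_of_degree_eq_some h0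
      have h2 : F.coeff d = 0 := Polynomial.coeff_eq_zero_of_natDegree_lt (by omega)
      exact hbd (by rw [← hcoef, h2])
    obtain ⟨z, hz⟩ := IsAlgClosed.exists_root F hdeg
    refine ⟨(z, 1), by simp, ?_⟩
    rw [hcr]
    have h1 : F.eval z = ∑ j : Fin (d + 1), b j * z ^ (j : ℕ) := by
      rw [hFdef, Polynomial.eval_finset_sum]
      exact Finset.sum_congr rfl fun j _ => Polynomial.eval_monomial
    rw [Polynomial.IsRoot, h1] at hz
    rw [← hz]
    exact Finset.sum_congr rfl fun j _ => by simp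

/-- nearby maps have the same trap -/
theorem trap_near {d : ℕ} {x₀ : CV d} (hx₀ : ND x₀) {K D : Set Sph} (hK : IsCompact K)
    (hD : IsOpen D) (h : ∀ w ∈ K, sp x₀ w ∈ D) :
    ∃ ε₀ : ℝ, 0 < ε₀ ∧ ∀ x : CV d, ‖x - x₀‖ < ε₀ → ND x ∧ ∀ w ∈ K, sp x w ∈ D := by
  have h1 : ∀ᶠ x in 𝓝 x₀, ∀ w ∈ K, ND x → sp x w ∈ D := by
    apply hK.eventually_forall_of_forall_eventually
    intro w hw
    have h2 := Pool.Agent.R239.Fat.jc (x₀ := x₀) (s₀ := w) fun h => (pr_hc w).2 (hx₀ _ h)
    have h3 : D ∈ 𝓝 (pr (hF x₀ (hc w))) := hD.mem_nhds (h w hw)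
    have h4 := h2.eventually h3
    rw [Pool.Agent.R239.Fat.ev_iff] at h4
    exact h4
  obtain ⟨ε₀, hε₀, h2⟩ := Metric.eventually_nhds_iff.1 (h1.and (ND_open hx₀))
  refine ⟨ε₀, hε₀, fun x hx => ?_⟩
  obtain ⟨h3, h4⟩ := h2 (by rw [dist_eq_norm]; exact hx)
  exact ⟨h4, fun w hw => h3 w hw h4⟩

/-- **Random perturbations of a map with an attracting cycle.** -/
theorem sink_thm {d : ℕ} (hd : 2 ≤ d) {x₀ : CV d} (hx₀ : ND x₀) {n : ℕ} {a : Sph}
    (h : Snk (sp x₀) n a) :
    ∃ ε₀ : ℝ, 0 < ε₀ ∧ ∀ (μ : Measure (CV d)) [IsProbabilityMeasure μ] (S : Set (CV d)),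
      (∀ x ∈ S, ‖x - x₀‖ < ε₀) → μ Sᶜ = 0 → (∀ x ∈ S, ∀ V ∈ 𝓝 x, 0 < μ V) → Stable S →
      Concl μ := by
  obtain ⟨D, hD, hne, hnd, hinv⟩ := exists_trap (sp_cont hx₀) (sp_surj (by omega) hx₀) h
  obtain ⟨ε₀, hε₀, h1⟩ := trap_near hx₀ isClosed_closure.isCompact hD hinv
  refine ⟨ε₀, hε₀, fun μ _ S hS h0 hpos hst => ?_⟩
  exact law_thm hd μ S (fun x hx => (h1 x (hS x hx)).1) h0 hpos hst D hD hne hnd
    fun x hx z hz => (h1 x (hS x hx)).2 z (subset_closure hz)

/-- open sets are stable -/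
theorem stable_of_isOpen {d : ℕ} {S : Set (CV d)} (hS : IsOpen S) : Stable S := by
  intro x hx
  obtain ⟨r, hr, hrS⟩ := Metric.isOpen_iff.1 hS x hx
  refine ⟨r / (2 * ‖x‖ + 1), by positivity, fun α β γ κ hn => hrS ?_⟩
  rw [mem_ball_iff_norm]
  refine (post_near hn x).trans_lt ?_
  have h1 : (0 : ℝ) < 2 * ‖x‖ + 1 := by positivity
  rw [show 2 * (r / (2 * ‖x‖ + 1)) * ‖x‖ = r * (2 * ‖x‖ / (2 * ‖x‖ + 1)) by field_simp]
  have h2 : 2 * ‖x‖ / (2 * ‖x‖ + 1) < 1 := by rw [div_lt_one h1]; linarith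
  calc r * (2 * ‖x‖ / (2 * ‖x‖ + 1)) < r * 1 := mul_lt_mul_of_pos_left h2 hr
    _ = r := mul_one r

end Pool.Agent.U202.RM
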