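import Mathlib
import Pool.Agent.U202.RM.Trap

/-! Families of blocks: compositions of `T` or of `T + 1` maps of a family. -/

set_option autoImplicit false
set_option linter.unusedSectionVars false

open MeasureTheory Filter Topology Set Metric
open scoped ENNReal

namespace Pool.Agent.U202.RM

open Pool.Agent.R239.Fat (Sph LocInj Att Hyp Hol mob)
open Pool.Agent.H790R3.RB (CV hF cr ND sp pr hc)

variable {E : Type} [TopologicalSpace E] (X : Fam E)

theorem run_joint {Y : Type} [TopologicalSpace Y] {α : Y → ℕ → E}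
    (hα : ∀ i, Continuous fun y => α y i) (n : ℕ) :
    Continuous fun p : Y × Sph => run X (α p.1) n p.2 := by
  induction n with
  | zero => exact continuous_snd
  | succ n ih =>
    have h1 : Continuous fun p : Y × Sph => (α p.1 n, run X (α p.1) n p.2) :=
      ((hα n).comp continuous_fst).prodMk ih
    exact X.cont.comp h1

/-- the length of a block -/
def bl (T : ℕ) (b : Bool) : ℕ := if b then T + 1 else T

/-- the position of the `i`-th map of a block -/
def pos (T : ℕ) (b : Bool) (i : ℕ) : Fin (2 * T + 1) := Fin.ofNat (2 * T + 1) (if b then T + i else i)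

/-- the sequence of the maps of a block -/
def cc {F : Type} (T : ℕ) (b : Bool) (c : Fin (2 * T + 1) → F) : ℕ → F := fun i => c (pos T b i)

theorem cc_cont (T : ℕ) (b : Bool) (i : ℕ) :
    Continuous fun c : Fin (2 * T + 1) → E => cc T b c i := continuous_apply _

theorem pos_inj {T : ℕ} {b : Bool} {i j : ℕ} (hi : i < bl T b) (hj : j < bl T b)
    (h : pos T b i = pos T b j) : i = j := by
  unfold pos at h
  unfold bl at hi hj
  have h1 := congrArg Fin.val h
  simp only [Fin.ofNat] at h1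
  cases b with
  | true =>
    simp only [if_true] at h1 hi hj
    rw [Nat.mod_eq_of_lt (by omega), Nat.mod_eq_of_lt (by omega)] at h1
    omega
  | false =>
    simp only [Bool.false_eq_true, if_false] at h1 hi hj
    rw [Nat.mod_eq_of_lt (by omega), Nat.mod_eq_of_lt (by omega)] at h1
    exact h1

/-- the critical values of blocks -/
def bz (T : ℕ) : Set ((Bool × (Fin (2 * T + 1) → E)) × Sph) :=
  {q | ∃ i < bl T q.1.1, ∃ v, (cc T q.1.1 q.1.2 i, v) ∈ X.Z ∧
    q.2 = run X (sh (i + 1) (cc T q.1.1 q.1.2)) (bl T q.1.1 - (i + 1)) v}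

theorem bz_slice (T : ℕ) (b : Bool) (i m : ℕ) :
    IsClosed {q : (Bool × (Fin (2 * T + 1) → E)) × Sph | ∃ v, (cc T b q.1.2 i, v) ∈ X.Z ∧
      q.2 = run X (sh (i + 1) (cc T b q.1.2)) m v} := by
  have e1 : Continuous fun q : ((Bool × (Fin (2 * T + 1) → E)) × Sph) × Sph =>
      (cc T b q.1.1.2 i, q.2) :=
    ((cc_cont T b i).comp (continuous_snd.comp (continuous_fst.comp continuous_fst))).prodMk
      continuous_snd
  have e2 : Continuous fun q : ((Bool × (Fin (2 * T + 1) → E)) × Sph) × Sph =>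
      run X (sh (i + 1) (cc T b q.1.1.2)) m q.2 :=
    run_joint X (Y := (Bool × (Fin (2 * T + 1) → E)) × Sph)
      (α := fun y => sh (i + 1) (cc T b y.1.2))
      (fun k => (cc_cont T b (i + 1 + k)).comp (continuous_snd.comp continuous_fst)) m
  have h1 : IsClosed {q : ((Bool × (Fin (2 * T + 1) → E)) × Sph) × Sph |
      (cc T b q.1.1.2 i, q.2) ∈ X.Z ∧ q.1.2 = run X (sh (i + 1) (cc T b q.1.1.2)) m q.2} :=
    (X.Zc.preimage e1).inter (isClosed_eq (continuous_snd.comp continuous_fst) e2)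
  have h2 := isClosedMap_fst_of_compactSpace _ h1
  convert h2 using 1
  ext p
  constructor
  · rintro ⟨u, hu, hs⟩
    exact ⟨(p, u), ⟨hu, hs⟩, rfl⟩
  · rintro ⟨⟨p', u⟩, ⟨hu, hs⟩, rfl⟩
    exact ⟨u, hu, hs⟩

theorem fib_closed {Y Z : Type} [TopologicalSpace Y] [TopologicalSpace Z] (b : Bool) :
    IsClosed {q : (Bool × Y) × Z | q.1.1 = b} :=
  (isClosed_discrete ({b} : Set Bool)).preimage (continuous_fst.comp continuous_fst)

theorem fib_open {Y Z : Type} [TopologicalSpace Y] [TopologicalSpace Z] (b : Bool) :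
    IsOpen {q : (Bool × Y) × Z | q.1.1 = b} :=
  (isOpen_discrete ({b} : Set Bool)).preimage (continuous_fst.comp continuous_fst)

theorem bz_closed (T : ℕ) : IsClosed (bz X T) := by
  have h : bz X T = ⋃ b : Bool, ⋃ i : Fin (bl T b), ({q | q.1.1 = b} ∩
      {q : (Bool × (Fin (2 * T + 1) → E)) × Sph | ∃ v, (cc T b q.1.2 i, v) ∈ X.Z ∧
        q.2 = run X (sh (i + 1) (cc T b q.1.2)) (bl T b - (i + 1)) v}) := by
    ext q
    constructor
    · rintro ⟨i, hi, v, h1, h2⟩
      simp only [mem_iUnion]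
      exact ⟨q.1.1, ⟨i, hi⟩, rfl, v, h1, h2⟩
    · simp only [mem_iUnion]
      rintro ⟨b, i, hb, v, h1, h2⟩
      have hb' : q.1.1 = b := hb
      subst hb'
      exact ⟨i, i.2, v, h1, h2⟩
  rw [h]
  exact isClosed_iUnion_of_finite fun b => isClosed_iUnion_of_finite fun i =>
    (fib_closed b).inter (bz_slice X T b i _)

theorem bz_finite (T : ℕ) (e : Bool × (Fin (2 * T + 1) → E)) :
    ∃ s : Finset Sph, s.card ≤ (T + 1) * X.cn ∧ ∀ v, (e, v) ∈ bz X T → v ∈ s := by
  classical
  choose s hs hs' using X.Zf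
  refine ⟨(Finset.range (bl T e.1)).biUnion fun i => (s (cc T e.1 e.2 i)).image
    (run X (sh (i + 1) (cc T e.1 e.2)) (bl T e.1 - (i + 1))), ?_, ?_⟩
  · refine (Finset.card_biUnion_le_card_mul _ _ X.cn fun i _ =>
      Finset.card_image_le.trans (hs _)).trans ?_
    rw [Finset.card_range]
    refine Nat.mul_le_mul_right _ ?_
    unfold bl
    split_ifs <;> omega
  · rintro v ⟨i, hi, w, h1, h2⟩
    rw [Finset.mem_biUnion]
    refine ⟨i, Finset.mem_range.2 hi, ?_⟩
    have h2' : v = run X (sh (i + 1) (cc T e.1 e.2)) (bl T e.1 - (i + 1)) w := h2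
    rw [h2']
    exact Finset.mem_image_of_mem _ (hs' _ _ h1)

theorem blk_cont (T : ℕ) : Continuous fun p : (Bool × (Fin (2 * T + 1) → E)) × Sph =>
    run X (cc T p.1.1 p.1.2) (bl T p.1.1) p.2 := by
  have hG : ∀ b : Bool, Continuous fun p : (Bool × (Fin (2 * T + 1) → E)) × Sph =>
      run X (cc T b p.1.2) (bl T b) p.2 := fun b =>
    run_joint X (Y := Bool × (Fin (2 * T + 1) → E)) (α := fun y => cc T b y.2)
      (fun k => (cc_cont T b k).comp continuous_snd) _
  rw [continuous_def]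
  intro O hO
  have h : (fun p : (Bool × (Fin (2 * T + 1) → E)) × Sph =>
      run X (cc T p.1.1 p.1.2) (bl T p.1.1) p.2) ⁻¹' O =
      ⋃ b : Bool, ({q | q.1.1 = b} ∩ (fun p : (Bool × (Fin (2 * T + 1) → E)) × Sph =>
        run X (cc T b p.1.2) (bl T b) p.2) ⁻¹' O) := by
    ext q
    simp only [mem_iUnion]
    constructor
    · intro hq
      exact ⟨q.1.1, rfl, hq⟩
    · rintro ⟨b, hb, hq⟩
      have hb' : q.1.1 = b := hb
      subst hb'
      exact hq
  rw [h]
  exact isOpen_iUnion fun b => (fib_open b).inter (hO.preimage (hG b))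

/-- the family of the blocks -/
noncomputable def blk (T : ℕ) (S : Set (Bool × (Fin (2 * T + 1) → E))) (A : Set Sph)
    (hA : IsOpen A)
    (hinv : ∀ e ∈ S, ∀ z ∈ A, run X (cc T e.1 e.2) (bl T e.1) z ∈ A) :
    Fam (Bool × (Fin (2 * T + 1) → E)) where
  f e := run X (cc T e.1 e.2) (bl T e.1)
  cont := blk_cont X T
  hol e := run_hol X _ _
  Z := bz X T
  Zc := bz_closed X T
  ZL e u h := by
    obtain ⟨i, hi, h1⟩ := crit_run X _ _ h
    refine ⟨i, hi, _, h1, ?_⟩
    show run X (cc T e.1 e.2) (bl T e.1) u =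
      run X (sh (i + 1) (cc T e.1 e.2)) (bl T e.1 - (i + 1)) (run X (cc T e.1 e.2) (i + 1) u)
    rw [← run_add, show i + 1 + (bl T e.1 - (i + 1)) = bl T e.1 by omega]
  cn := (T + 1) * X.cn
  Zf e := bz_finite X T e
  S := S
  A := A
  Ao := hA
  inv := hinv

theorem run_congr {α β : ℕ → E} {n : ℕ} (h : ∀ i < n, α i = β i) : run X α n = run X β n := by
  induction n with
  | zero => rfl
  | succ n ih =>
    funext z
    show X.f (α n) (run X α n z) = X.f (β n) (run X β n z)
    rw [ih fun i hi => h i (by omega), h n (by omega)]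

/-- the polydiscs -/
def SH {d : ℕ} (T : ℕ) (H : Fin (2 * T + 1) → CV d) (δ : ℝ) :
    Set (Bool × (Fin (2 * T + 1) → NDs d)) := {e | ∀ j, ‖(e.2 j).1 - H j‖ < δ}

theorem blk_MO {d : ℕ} (hd : 2 ≤ d) {S₀ : Set (NDs d)} {A₀ : Set Sph} {hA₀ : IsOpen A₀}
    {hinv₀ : ∀ a ∈ S₀, ∀ z ∈ A₀, sp a.1 z ∈ A₀} {T : ℕ} (hT : T ≠ 0) (H : Fin (2 * T + 1) → CV d)
    (δ : ℝ) (A : Set Sph) (hA : IsOpen A)
    (hinv : ∀ e ∈ SH T H δ, ∀ z ∈ A,
      run (fam hd S₀ A₀ hA₀ hinv₀) (cc T e.1 e.2) (bl T e.1) z ∈ A) :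
    MO (blk (fam hd S₀ A₀ hA₀ hinv₀) T (SH T H δ) A hA hinv) := by
  classical
  rintro ⟨b, c⟩ he
  set X := fam hd S₀ A₀ hA₀ hinv₀ with hX
  obtain ⟨n, hn⟩ : ∃ n, bl T b = n + 1 := ⟨bl T b - 1, by unfold bl; split_ifs <;> omega⟩
  set j₀ := pos T b n with hj₀
  have hm : 0 < δ - ‖(c j₀).1 - H j₀‖ := by have := he j₀; simp only at this; linarith
  set m := δ - ‖(c j₀).1 - H j₀‖ with hmdef
  refine ⟨m / (2 * ‖(c j₀).1‖ + 1), by positivity, fun α β γ κ hnear => ?_⟩
  set y : NDs d := ⟨post α β γ κ (c j₀).1, post_ND (near_ne hnear) (c j₀).2⟩ with hy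
  refine ⟨(b, Function.update c j₀ y), ?_, ?_⟩
  · intro j
    show ‖(Function.update c j₀ y j).1 - H j‖ < δ
    by_cases hj : j = j₀
    · subst hj
      rw [Function.update_self]
      have h1 : ‖post α β γ κ (c j₀).1 - (c j₀).1‖ < m := by
        refine (post_near hnear _).trans_lt ?_
        have h1 : (0 : ℝ) < 2 * ‖(c j₀).1‖ + 1 := by positivity
        rw [show 2 * (m / (2 * ‖(c j₀).1‖ + 1)) * ‖(c j₀).1‖ =
          m * (2 * ‖(c j₀).1‖ / (2 * ‖(c j₀).1‖ + 1)) by field_simp]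
        have h2 : 2 * ‖(c j₀).1‖ / (2 * ‖(c j₀).1‖ + 1) < 1 := by rw [div_lt_one h1]; linarith
        calc m * (2 * ‖(c j₀).1‖ / (2 * ‖(c j₀).1‖ + 1)) < m * 1 := mul_lt_mul_of_pos_left h2 hm
          _ = m := mul_one m
      have h2 := norm_add_le (post α β γ κ (c j₀).1 - (c j₀).1) ((c j₀).1 - H j₀)
      rw [sub_add_sub_cancel] at h2
      show ‖post α β γ κ (c j₀).1 - H j₀‖ < δ
      linarith
    · rw [Function.update_of_ne hj]
      exact he j
  · show run X (cc T b (Function.update c j₀ y)) (bl T b) =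
      mob α β γ κ ∘ run X (cc T b c) (bl T b)
    rw [hn]
    have h1 : run X (cc T b (Function.update c j₀ y)) n = run X (cc T b c) n := by
      refine run_congr X fun i hi => ?_
      show Function.update c j₀ y (pos T b i) = c (pos T b i)
      refine Function.update_of_ne (fun h => ?_) _ _
      have := pos_inj (by omega) (by omega) h
      omega
    have h2 : cc T b (Function.update c j₀ y) n = y := Function.update_self _ _ _
    funext z
    show sp (cc T b (Function.update c j₀ y) n).1 (run X (cc T b (Function.update c j₀ y)) n z) =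
      mob α β γ κ (sp (c j₀).1 (run X (cc T b c) n z))
    rw [h1, h2]
    exact congrFun (sp_post (near_ne hnear) (c j₀).2) _

end Pool.Agent.U202.RM
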