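import Mathlib
import Pool.Agent.U202.RM.Trap

/-! Rational maps of degree at least two have critical points and fixed points. -/

set_option autoImplicit false
set_option linter.unusedSectionVars false

open Filter Topology Set Metric Polynomial

namespace Pool.Agent.U202.RM

open Pool.Agent.R239.Fat (Sph LocInj Hol mob mob_pr exists_pr lin_ne ne_of_locInj locInj_comp
  locInj_of_injective mobH mob_cont)
open Pool.Agent.H790R3.RB (CV hF cr ND sp pr hc wr pol)
open Pool.Agent.H790R3.RB.SP (pr_hc sp_pr sp_cont)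

/-- reversal of the coefficients -/
def rv {d : ℕ} (x : CV d) : CV d := fun q => x (q.1, Fin.rev q.2)

theorem hF_rv {d : ℕ} (x : CV d) (p : ℂ × ℂ) : hF (rv x) p = hF x p.swap := by
  have key : ∀ i : Fin 2, ∑ j : Fin (d + 1), x (i, Fin.rev j) * (p.1 ^ (j : ℕ) *
      p.2 ^ (d - (j : ℕ))) = ∑ j : Fin (d + 1), x (i, j) * (p.2 ^ (j : ℕ) *
      p.1 ^ (d - (j : ℕ))) := by
    intro i
    rw [← Equiv.sum_comp Fin.revPerm fun j : Fin (d + 1) => x (i, j) * (p.2 ^ (j : ℕ) *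
      p.1 ^ (d - (j : ℕ)))]
    refine Finset.sum_congr rfl fun j _ => ?_
    have h1 : ((Fin.revPerm j : Fin (d + 1)) : ℕ) = d - (j : ℕ) := by
      rw [Fin.revPerm_apply, Fin.val_rev]; omega
    have h2 : d - (d - (j : ℕ)) = (j : ℕ) := by have := j.2; omega
    rw [h1, h2, Fin.revPerm_apply]
    ring
  unfold hF rv
  exact Prod.ext (key 0) (key 1)

theorem rv_ND {d : ℕ} {x : CV d} (hx : ND x) : ND (rv x) := by
  intro p hp
  rw [hF_rv] at hp
  have h1 := hx _ hp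
  have h2 : p = (p.swap).swap := (Prod.swap_swap p).symm
  rw [h2, h1]
  rfl

theorem wr_rv {d : ℕ} (hd : 2 ≤ d) (x : CV d) (p : ℂ × ℂ) : wr (rv x) p = - wr x p.swap := by
  have h1 := (Pool.Agent.H790R3.RB.WR d (rv x) hd).2.2 p (1, 0) (0, 1)
  have h2 := (Pool.Agent.H790R3.RB.WR d x hd).2.2 p.swap (0, 1) (1, 0)
  have h3 : hF (rv x) = hF x ∘ (ContinuousLinearEquiv.prodComm ℂ ℂ ℂ) := by
    funext q
    rw [hF_rv]
    rfl
  rw [h3, ContinuousLinearEquiv.comp_right_fderiv] at h1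
  have e1 : ((fderiv ℂ (hF x) ((ContinuousLinearEquiv.prodComm ℂ ℂ ℂ) p)).comp
      ((ContinuousLinearEquiv.prodComm ℂ ℂ ℂ : (ℂ × ℂ) ≃L[ℂ] ℂ × ℂ) : (ℂ × ℂ) →L[ℂ] ℂ × ℂ)) (1, 0) =
      fderiv ℂ (hF x) p.swap (0, 1) := rfl
  have e2 : ((fderiv ℂ (hF x) ((ContinuousLinearEquiv.prodComm ℂ ℂ ℂ) p)).comp
      ((ContinuousLinearEquiv.prodComm ℂ ℂ ℂ : (ℂ × ℂ) ≃L[ℂ] ℂ × ℂ) : (ℂ × ℂ) →L[ℂ] ℂ × ℂ)) (0, 1) =
      fderiv ℂ (hF x) p.swap (1, 0) := rfl
  rw [e1, e2, h2] at h1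
  have c1 : cr (0, 1) (1, 0) = -1 := by unfold cr; norm_num
  have c2 : cr (1, 0) (0, 1) = 1 := by unfold cr; norm_num
  rw [c1, c2] at h1
  linear_combination -h1

theorem crit_fin {d : ℕ} (hd : 2 ≤ d) {x : CV d} (hx : ND x) {z : ℂ} (h : wr x (z, 1) = 0) :
    ¬ LocInj (sp x) (z : Sph) := by
  intro hl
  have hd0 : (d : ℂ) ≠ 0 := by
    have : d ≠ 0 := by omega
    exact_mod_cast this
  rw [wr_wronskian hd] at h
  have hW := (mul_eq_zero.1 h).resolve_left hd0
  by_cases hQ : (pol x 1).eval z = 0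
  · -- swap numerator and denominator
    set y : CV d := fun r => x (1 - r.1, r.2) with hy
    have h0 : pol y 0 = pol x 1 := rfl
    have h1 : pol y 1 = pol x 0 := rfl
    have hF' : ∀ p, hF y p = ((hF x p).2, (hF x p).1) := fun p => rfl
    have hyn : ND y := by
      intro p hp
      apply hx
      rw [hF'] at hp
      exact Prod.ext (congrArg Prod.snd hp) (congrArg Prod.fst hp)
    have hdet : (0 : ℂ) * 0 - 1 * 1 ≠ 0 := by norm_num
    have h3 : ∀ s, sp y s = mob 0 1 1 0 (sp x s) := by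
      intro s
      obtain ⟨p, hp, rfl⟩ := exists_pr s
      rw [sp_pr hyn hp, sp_pr hx hp, mob_pr hdet (fun h => hp (hx p h)), hF']
      congr 1
      exact Prod.ext (by simp) (by simp)
    have hP : (pol y 1).eval z ≠ 0 := by
      intro hP
      have h4 : hF x (z, 1) = 0 := by
        rw [Pool.Agent.H790R3.RB.PQ.hF_one]
        exact Prod.ext hP hQ
      have h5 := hx _ h4
      exact one_ne_zero (congrArg Prod.snd h5)
    have hl' : LocInj (sp y) (z : Sph) := by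
      obtain ⟨U, hU, hinj⟩ := hl
      refine ⟨U, hU, fun a ha b hb hab => hinj ha hb ?_⟩
      rw [h3, h3] at hab
      exact (mobH 0 1 1 0 hdet).injective hab
    have h6 := ne_of_locInj hP hl'
    rw [h0, h1] at h6
    apply h6
    have h7 : derivative (pol x 1) * pol x 0 - pol x 1 * derivative (pol x 0) =
        -(derivative (pol x 0) * pol x 1 - pol x 0 * derivative (pol x 1)) := by ring
    rw [h7, eval_neg, hW, neg_zero]
  · exact ne_of_locInj hQ hl hW

theorem crit_inf {d : ℕ} (hd : 2 ≤ d) {x : CV d} (hx : ND x) (h : wr x (1, 0) = 0) :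
    ¬ LocInj (sp x) (OnePoint.infty : Sph) := by
  intro hl
  have hdet : (0 : ℂ) * 0 - 1 * 1 ≠ 0 := by norm_num
  have h1 : sp (rv x) = sp x ∘ mob 0 1 1 0 := by
    funext s
    obtain ⟨p, hp, rfl⟩ := exists_pr s
    show _ = sp x (mob 0 1 1 0 (pr p))
    have h2 := lin_ne hdet hp
    rw [sp_pr (rv_ND hx) hp, mob_pr hdet hp, sp_pr hx h2, hF_rv]
    congr 2
    exact Prod.ext (by simp) (by simp)
  have h3 : mob 0 1 1 0 ((0 : ℂ) : Sph) = OnePoint.infty :=
    Pool.Agent.R239.Fat.mob_coe_inf hdet (by norm_num)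
  have h4 : LocInj (sp (rv x)) ((0 : ℂ) : Sph) := by
    rw [h1]
    refine locInj_comp (mob_cont hdet) (locInj_of_injective (mobH 0 1 1 0 hdet).injective _) ?_
    rw [h3]
    exact hl
  refine crit_fin hd (rv_ND hx) (z := 0) ?_ h4
  rw [wr_rv hd]
  show - wr x (1, 0) = 0
  rw [h, neg_zero]

theorem exists_crit {d : ℕ} (hd : 2 ≤ d) {x : CV d} (hx : ND x) : ∃ c, ¬ LocInj (sp x) c := by
  by_cases h0 : wr x (1, 0) = 0
  · exact ⟨_, crit_inf hd hx h0⟩
  · obtain ⟨-, ⟨W, hW, hWe, hWc⟩, -⟩ := Pool.Agent.H790R3.RB.WR d x hd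
    have hdeg : W.degree ≠ 0 := by
      intro h1
      have h2 : W.natDegree = 0 := natDegree_eq_of_degree_eq_some h1
      have h3 : W.coeff (2 * d - 2) = 0 := coeff_eq_zero_of_natDegree_lt (by omega)
      exact h0 (by rw [← hWc, h3])
    obtain ⟨z, hz⟩ := IsAlgClosed.exists_root W hdeg
    refine ⟨(z : Sph), crit_fin hd hx ?_⟩
    rw [← hWe]
    exact hz

theorem exists_fixed {d : ℕ} (hd : 2 ≤ d) {x : CV d} (hx : ND x) : ∃ α, sp x α = α := by
  by_cases h : sp x (OnePoint.infty : Sph) = OnePoint.infty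
  · exact ⟨_, h⟩
  · obtain ⟨α, hα, -⟩ := Pool.Agent.R239.Fat.exists_fix hd hx h
    exact ⟨_, hα⟩

end Pool.Agent.U202.RM
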