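import Mathlib
import Pool.Agent.U202.RM.Trap

/-! Either a map has a trap or small perturbations move every point to every point. -/

set_option autoImplicit false
set_option linter.unusedSectionVars false

open Filter Topology Set Metric
open scoped OnePoint

namespace Pool.Agent.U202.RM

open Pool.Agent.R239.Fat (Sph LocInj Att Hyp Hol mob Comp MStep KStep hz hz_apply mstep_conj
  kstep_mstep hol_conj trap Big big_open big_inf big_coe nhds_coe expand_inf locInj_conj_iff)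

/-- an open, nonempty, not dense set whose closure is mapped into it -/
def HasTrap (g : Sph → Sph) : Prop :=
  ∃ D : Set Sph, IsOpen D ∧ D.Nonempty ∧ ¬ Dense D ∧ ∀ w ∈ closure D, g w ∈ D

theorem HasTrap.conj {g : Sph → Sph} (h : Sph ≃ₜ Sph)
    (ht : HasTrap fun y => h (g (h.symm y))) : HasTrap g := by
  obtain ⟨D, hD, hne, hnd, hm⟩ := ht
  refine ⟨h ⁻¹' D, hD.preimage h.continuous, ?_, fun hd => hnd ?_, fun w hw => ?_⟩
  · obtain ⟨y, hy⟩ := hne
    exact ⟨h.symm y, by show h (h.symm y) ∈ D; rwa [h.apply_symm_apply]⟩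
  · have h1 := h.surjective.denseRange.dense_image h.continuous hd
    rwa [image_preimage_eq D h.surjective] at h1
  · have h1 : h w ∈ closure D := by
      rw [← h.preimage_closure] at hw
      exact hw
    have h2 := hm (h w) h1
    simp only [h.symm_apply_apply] at h2
    exact h2

theorem kick_or_trap {f : Sph → Sph} (hf : Continuous f) {ε : ℝ} (hε : 0 < ε) (x : Sph) :
    (∃ n G, n ≠ 0 ∧ Comp (KStep f ε) n G ∧ G x = ∞) ∨ HasTrap f := by
  by_cases hyes : ∃ n G, n ≠ 0 ∧ Comp (KStep f ε) n G ∧ G x = ∞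
  · exact Or.inl hyes
  right
  have hno : ∀ n G, n ≠ 0 → Comp (KStep f ε) n G → G x ≠ ∞ := by
    intro n G hn hG h
    exact hyes ⟨n, G, hn, hG, h⟩
  obtain ⟨W, hWo, hWb, hW, u₀, hu₀, -, -⟩ := trap hε x hno
  set D : Set Sph := (fun z : ℂ => (z : Sph)) '' W with hD
  set R : ℝ := 1 / ε + ε with hR
  have hDR : ∀ w ∈ D, ¬ Big R w := by
    rintro _ ⟨z, hz, rfl⟩ hb
    exact absurd (big_coe.1 hb) (not_lt.2 (hWb z hz))
  have hcR : ∀ w ∈ closure D, ¬ Big R w := by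
    intro w hw hb
    obtain ⟨y, hy1, hy2⟩ := mem_closure_iff.1 hw _ (big_open R) hb
    exact hDR y hy2 hy1
  have hfD : ∀ w ∈ D, f w ∈ D := by
    rintro _ ⟨z, hz, rfl⟩
    obtain ⟨u, hu, hb⟩ := hW z hz
    exact ⟨u, hb (mem_ball_self hε), hu.symm⟩
  refine ⟨D, OnePoint.isOpenEmbedding_coe.isOpenMap W hWo, ⟨_, u₀, hu₀, rfl⟩, fun hd => ?_,
    fun w hw => ?_⟩
  · exact hcR ∞ (hd ∞) (big_inf R)
  · have h1 : f w ∈ closure (f '' D) := image_closure_subset_closure_image hf ⟨w, hw, rfl⟩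
    have h2 : f w ∈ closure D := by
      refine closure_mono ?_ h1
      rintro _ ⟨y, hy, rfl⟩
      exact hfD y hy
    have h3 : f w ≠ ∞ := fun h => hcR _ h2 (by rw [h]; exact big_inf R)
    obtain ⟨v, hv⟩ := OnePoint.ne_infty_iff_exists.1 h3
    have h4 : (fun z : ℂ => (z : Sph)) '' ball v ε ∈ 𝓝 (f w) := by
      rw [← hv]
      exact nhds_coe (ball_mem_nhds v hε)
    obtain ⟨_, ⟨u, hu, rfl⟩, y, hy, hyu⟩ := mem_closure_iff_nhds.1 h1 _ h4
    obtain ⟨z, hz, rfl⟩ := hy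
    obtain ⟨u', hu', hb⟩ := hW z hz
    have h5 : u' = u := by
      rw [hu'] at hyu
      exact OnePoint.coe_injective hyu
    rw [h5] at hb
    rw [← hv]
    exact ⟨v, hb (by rw [mem_ball_comm]; exact hu), rfl⟩

/-- **Dichotomy.** -/
theorem move {f : Sph → Sph} (hf : Hol f) (hno : ¬ HasTrap f) {ε : ℝ} (hε : 0 < ε) (x q : Sph) :
    ∃ n G, n ≠ 0 ∧ Comp (MStep f ε) n G ∧ G x = q := by
  induction q using OnePoint.rec with
  | infty =>
    rcases kick_or_trap hf.cont hε x with ⟨n, G, hn, hG, h⟩ | h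
    · exact ⟨n, G, hn, hG.mono fun m hm => kstep_mstep hε hm, h⟩
    · exact absurd h hno
  | coe z =>
    have hF : Hol (fun y => hz z (f ((hz z).symm y))) := hol_conj z hf
    set η := ε / (1 + ‖z‖) ^ 2 with hη
    have hη0 : 0 < η := by positivity
    rcases kick_or_trap hF.cont hη0 (hz z x) with ⟨n, G, hn, hG, hGx⟩ | h
    · refine ⟨n, _, hn, hG.conj (hz z).symm fun m hm => mstep_conj z ?_ hη0 (kstep_mstep hη0 hm),
        ?_⟩
      · rw [hη, div_mul_cancel₀ _ (by positivity)]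
      · show (hz z).symm (G ((hz z).symm.symm x)) = (z : Sph)
        rw [Homeomorph.symm_symm, hGx, ← hz_apply z, Homeomorph.symm_apply_apply]
    · exact absurd (h.conj (hz z)) hno

/-- two maps with the same superattracting fixed point at infinity -/
theorem super_inf {g₀ g₁ : Sph → Sph} (h0 : Hol g₀) (h1 : Hol g₁) (i0 : g₀ ∞ = ∞) (i1 : g₁ ∞ = ∞)
    (c0 : ¬ LocInj g₀ ∞) (c1 : ¬ LocInj g₁ ∞) :
    ∃ A : Set Sph, IsOpen A ∧ A.Nonempty ∧ ¬ Dense A ∧ (∀ w ∈ closure A, g₀ w ∈ A) ∧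
      ∀ w ∈ closure A, g₁ w ∈ A := by
  obtain ⟨ρ₀, hρ₀, he₀⟩ := expand_inf h0 c0 i0
  obtain ⟨ρ₁, hρ₁, he₁⟩ := expand_inf h1 c1 i1
  set ρ := max ρ₀ ρ₁ with hρ
  have hρ0 : 0 < ρ := lt_max_of_lt_left hρ₀
  have hcl : ∀ w ∈ closure {x : Sph | Big ρ x}, ∀ z : ℂ, w = (z : Sph) → ρ ≤ ‖z‖ := by
    rintro w hw z rfl
    by_contra hlt
    push Not at hlt
    have h2 : (fun z : ℂ => (z : Sph)) '' ball 0 ρ ∈ 𝓝 (z : Sph) :=
      nhds_coe (isOpen_ball.mem_nhds (by rw [mem_ball_zero_iff]; exact hlt))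
    obtain ⟨_, ⟨y, hy, rfl⟩, hb⟩ := mem_closure_iff_nhds.1 hw _ h2
    rw [mem_ball_zero_iff] at hy
    have := big_coe.1 hb
    linarith
  have key : ∀ g : Sph → Sph, g ∞ = ∞ → (∀ z : ℂ, ρ ≤ ‖z‖ → ∀ v : ℂ, g (z : Sph) = (v : Sph) →
      4 * ‖z‖ ≤ ‖v‖) → ∀ w ∈ closure {x : Sph | Big ρ x}, g w ∈ {x : Sph | Big ρ x} := by
    intro g hi he w hw
    induction w using OnePoint.rec with
    | infty => rw [hi]; exact big_inf ρ
    | coe z =>
      intro v hv
      have h3 := hcl _ hw z rfl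
      have h4 := he z h3 v hv
      linarith
  refine ⟨{x | Big ρ x}, big_open ρ, ⟨∞, big_inf ρ⟩, fun hd => ?_, key g₀ i0 fun z hz => he₀ z
    ((le_max_left _ _).trans hz), key g₁ i1 fun z hz => he₁ z ((le_max_right _ _).trans hz)⟩
  have h5 := hcl _ (hd ((0 : ℂ) : Sph)) 0 rfl
  rw [norm_zero] at h5
  linarith

/-- two maps with the same superattracting fixed point -/
theorem super_trap {g₀ g₁ : Sph → Sph} (h0 : Hol g₀) (h1 : Hol g₁) {c : Sph} (i0 : g₀ c = c)
    (i1 : g₁ c = c) (c0 : ¬ LocInj g₀ c) (c1 : ¬ LocInj g₁ c) :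
    ∃ A : Set Sph, IsOpen A ∧ A.Nonempty ∧ ¬ Dense A ∧ (∀ w ∈ closure A, g₀ w ∈ A) ∧
      ∀ w ∈ closure A, g₁ w ∈ A := by
  induction c using OnePoint.rec with
  | infty => exact super_inf h0 h1 i0 i1 c0 c1
  | coe z =>
    have e0 : (fun y => hz z (g₀ ((hz z).symm y))) ∞ = ∞ := by
      show hz z (g₀ ((hz z).symm ∞)) = ∞
      rw [← hz_apply z, Homeomorph.symm_apply_apply, i0]
    have e1 : (fun y => hz z (g₁ ((hz z).symm y))) ∞ = ∞ := by
      show hz z (g₁ ((hz z).symm ∞)) = ∞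
      rw [← hz_apply z, Homeomorph.symm_apply_apply, i1]
    have k0 : ¬ LocInj (fun y => hz z (g₀ ((hz z).symm y))) ∞ := by
      rw [← hz_apply z, locInj_conj_iff]; exact c0
    have k1 : ¬ LocInj (fun y => hz z (g₁ ((hz z).symm y))) ∞ := by
      rw [← hz_apply z, locInj_conj_iff]; exact c1
    obtain ⟨D, hD, hne, hnd, hm0, hm1⟩ := super_inf (hol_conj z h0) (hol_conj z h1) e0 e1 k0 k1
    set h := hz z with hh
    have hcl : ∀ w, w ∈ closure (h ⁻¹' D) → h w ∈ closure D := by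
      intro w hw
      rw [← h.preimage_closure] at hw
      exact hw
    refine ⟨h ⁻¹' D, hD.preimage h.continuous, ?_, fun hd => hnd ?_, fun w hw => ?_, fun w hw => ?_⟩
    · obtain ⟨y, hy⟩ := hne
      exact ⟨h.symm y, by show h (h.symm y) ∈ D; rwa [h.apply_symm_apply]⟩
    · have h1 := h.surjective.denseRange.dense_image h.continuous hd
      rwa [image_preimage_eq D h.surjective] at h1
    · have h2 := hm0 (h w) (hcl w hw)
      simp only [h.symm_apply_apply] at h2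
      exact h2
    · have h2 := hm1 (h w) (hcl w hw)
      simp only [h.symm_apply_apply] at h2
      exact h2

end Pool.Agent.U202.RM
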