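import Mathlib
import Pool.Agent.U202.RM.Blk
import Pool.Agent.U202.RM.Move
import Pool.Agent.U202.RM.Crit

/-! Near every rational map there are blocks of two consecutive lengths with a common trap. -/

set_option autoImplicit false
set_option linter.unusedSectionVars false

open Filter Topology Set Metric

namespace Pool.Agent.U202.RM

open Pool.Agent.R239.Fat (Sph LocInj Hol mob Comp MStep hol_sp)
open Pool.Agent.H790R3.RB (CV hF cr ND sp pr hc)
open Pool.Agent.H790R3.RB.SP (sp_cont)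

theorem seq_of_comp {d : ℕ} {x₀ : CV d} (hx₀ : ND x₀) {ε : ℝ} (hε : 0 < ε) {n : ℕ}
    {G : Sph → Sph} (h : Comp (MStep (sp x₀) ε) n G) :
    ∃ y : ℕ → CV d, (∀ k, ND (y k) ∧ ‖y k - x₀‖ ≤ 2 * ε * ‖x₀‖) ∧ comp y n = G := by
  obtain ⟨m, hm, hmG⟩ := h.seq
  have h1 : ∀ k, ∃ y : CV d, ND y ∧ ‖y - x₀‖ ≤ 2 * ε * ‖x₀‖ ∧ (k < n → sp y = m k) := by
    intro k
    by_cases hk : k < n
    · obtain ⟨α, β, γ, κ, e1, e2, e3, e4, e5, e6⟩ := hm k hk
      have hn : Near ε α β γ κ := ⟨e1, e2, e3, e4, e5⟩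
      exact ⟨post α β γ κ x₀, post_ND (near_ne hn) hx₀, post_near hn x₀, fun _ => by
        rw [sp_post (near_ne hn) hx₀, e6]⟩
    · exact ⟨x₀, hx₀, by rw [sub_self, norm_zero]; positivity, fun h => absurd h hk⟩
  choose y hy using h1
  refine ⟨y, fun k => ⟨(hy k).1, (hy k).2.1⟩, ?_⟩
  rw [← hmG]
  have h2 : ∀ j ≤ n, comp y j = Pool.Agent.R239.Fat.run m j := by
    intro j
    induction j with
    | zero => intro _; rfl
    | succ j ih =>
      intro hj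
      show sp (y j) ∘ comp y j = m j ∘ Pool.Agent.R239.Fat.run m j
      rw [ih (by omega), (hy j).2.2 (by omega)]
  exact h2 n le_rfl

/-- the base family -/
noncomputable def base {d : ℕ} (hd : 2 ≤ d) : Fam (NDs d) :=
  fam hd ∅ ∅ isOpen_empty (by simp)

theorem comp_base {d : ℕ} (hd : 2 ≤ d) {x : ℕ → CV d} {α : ℕ → NDs d} {n : ℕ}
    (h : ∀ k < n, (α k).1 = x k) : run (base hd) α n = comp x n := comp_eq hd _ _ _ _ h

/-- the union of two sequences of maps -/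
def Hc {d : ℕ} (T : ℕ) (h : Bool → ℕ → CV d) : Fin (2 * T + 1) → CV d := fun j =>
  if (j : ℕ) < T then h false j else h true (j - T)

theorem Hc_pos {d : ℕ} {T : ℕ} (h : Bool → ℕ → CV d) {b : Bool} {i : ℕ} (hi : i < bl T b) :
    Hc T h (pos T b i) = h b i := by
  unfold bl at hi
  unfold Hc pos
  cases b with
  | true =>
    simp only [if_true] at hi ⊢
    have h1 : ((Fin.ofNat (2 * T + 1) (T + i) : Fin (2 * T + 1)) : ℕ) = T + i := by
      simp only [Fin.ofNat]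
      exact Nat.mod_eq_of_lt (by omega)
    rw [h1, if_neg (by omega), Nat.add_sub_cancel_left]
  | false =>
    simp only [Bool.false_eq_true, if_false] at hi ⊢
    have h1 : ((Fin.ofNat (2 * T + 1) i : Fin (2 * T + 1)) : ℕ) = i := by
      simp only [Fin.ofNat]
      exact Nat.mod_eq_of_lt (by omega)
    rw [h1, if_pos hi]

/-- blocks of the lengths `T` and `T + 1` near `x₀` with a common trap -/
theorem loops {d : ℕ} (hd : 2 ≤ d) {x₀ : CV d} (hx₀ : ND x₀) (hno : ¬ HasTrap (sp x₀)) {ε : ℝ}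
    (hε : 0 < ε) : ∃ T, T ≠ 0 ∧ ∃ h : Bool → ℕ → CV d,
      (∀ b k, ND (h b k) ∧ ‖h b k - x₀‖ ≤ 2 * ε * ‖x₀‖) ∧
      ∃ A : Set Sph, IsOpen A ∧ A.Nonempty ∧ ¬ Dense A ∧
        ∀ b, ∀ w ∈ closure A, comp (h b) (bl T b) w ∈ A := by
  have hf : Hol (sp x₀) := hol_sp (by omega) hx₀
  obtain ⟨c, hc⟩ := exists_crit hd hx₀
  obtain ⟨α, hα⟩ := exists_fixed hd hx₀
  obtain ⟨n₁, G₁, hn₁, hG₁, h1⟩ := move hf hno hε c α
  obtain ⟨n₂, G₂, hn₂, hG₂, h2⟩ := move hf hno hε α c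
  have hMh : ∀ m, MStep (sp x₀) ε m → Hol m := fun m hm => hm.hol hf
  have k0 : Comp (MStep (sp x₀) ε) (n₁ + n₂) (G₂ ∘ G₁) := hG₁.append hG₂
  have k1 : Comp (MStep (sp x₀) ε) (n₁ + n₂ + 1) (G₂ ∘ (sp x₀ ∘ G₁)) := by
    have h3 := (Comp.succ hG₁ (MStep.self (sp x₀) hε)).append hG₂
    have h4 : n₁ + 1 + n₂ = n₁ + n₂ + 1 := by ring
    rw [h4] at h3
    exact h3
  obtain ⟨R, hR⟩ := MStep.factor hG₁ hn₁
  have hnl : ∀ Q : Sph → Sph, ¬ LocInj (Q ∘ sp x₀) c := by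
    rintro Q ⟨U, hU, hU'⟩
    exact hc ⟨U, hU, fun a ha b hb hab => hU' ha hb (congrArg Q hab)⟩
  obtain ⟨A, hA, hne, hnd, ha0, ha1⟩ := super_trap (c := c) (k0.hol hMh) (k1.hol hMh)
    (by show G₂ (G₁ c) = c; rw [h1, h2])
    (by show G₂ (sp x₀ (G₁ c)) = c; rw [h1, hα, h2])
    (by rw [hR]; exact hnl (G₂ ∘ R)) (by rw [hR]; exact hnl (G₂ ∘ (sp x₀ ∘ R)))
  obtain ⟨y0, hy0, hc0⟩ := seq_of_comp hx₀ hε k0
  obtain ⟨y1, hy1, hc1⟩ := seq_of_comp hx₀ hε k1
  refine ⟨n₁ + n₂, by omega, fun b => if b then y1 else y0, fun b k => ?_, A, hA, hne, hnd,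
    fun b w hw => ?_⟩
  · cases b with
    | true => exact hy1 k
    | false => exact hy0 k
  · cases b with
    | true =>
      show comp y1 (n₁ + n₂ + 1) w ∈ A
      rw [hc1]
      exact ha1 w hw
    | false =>
      show comp y0 (n₁ + n₂) w ∈ A
      rw [hc0]
      exact ha0 w hw

/-- **Block data near every rational map.** -/
theorem block_data {d : ℕ} (hd : 2 ≤ d) {x₀ : CV d} (hx₀ : ND x₀) {ε : ℝ} (hε : 0 < ε) :
    ∃ T, T ≠ 0 ∧ ∃ H : Fin (2 * T + 1) → CV d,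
      (∀ j, ND (H j) ∧ ‖H j - x₀‖ ≤ 2 * ε * ‖x₀‖) ∧
      ∃ A : Set Sph, IsOpen A ∧ A.Nonempty ∧ ¬ Dense A ∧ ∃ δ : ℝ, 0 < δ ∧
        (∀ j x, ‖x - H j‖ < δ → ND x) ∧
        ∀ e : Bool × (Fin (2 * T + 1) → NDs d), (∀ j, ‖(e.2 j).1 - H j‖ < δ) →
          ∀ w ∈ closure A, run (base hd) (cc T e.1 e.2) (bl T e.1) w ∈ A := by
  by_cases ht : HasTrap (sp x₀)
  · obtain ⟨D, hD, hne, hnd, hm⟩ := ht
    obtain ⟨ε₀, hε₀, h1⟩ := trap_near hx₀ isClosed_closure.isCompact hD hm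
    refine ⟨1, one_ne_zero, fun _ => x₀, fun j => ⟨hx₀, by rw [sub_self, norm_zero]; positivity⟩,
      D, hD, hne, hnd, ε₀, hε₀, fun j x hx => (h1 x hx).1, fun e he w hw => ?_⟩
    have key : ∀ n, 1 ≤ n → run (base hd) (cc 1 e.1 e.2) n w ∈ D := by
      intro n hn
      induction n, hn using Nat.le_induction with
      | base => exact (h1 _ (he _)).2 w hw
      | succ n _ ih => exact (h1 _ (he _)).2 _ (subset_closure ih)
    exact key _ (by unfold bl; split_ifs <;> omega)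
  · obtain ⟨T, hT, h, hh, A, hA, hne, hnd, hm⟩ := loops hd hx₀ ht hε
    have hH : ∀ j, ND (Hc T h j) ∧ ‖Hc T h j - x₀‖ ≤ 2 * ε * ‖x₀‖ := by
      intro j
      unfold Hc
      split_ifs
      · exact hh _ _
      · exact hh _ _
    refine ⟨T, hT, Hc T h, hH, A, hA, hne, hnd, ?_⟩
    set H' : Fin (2 * T + 1) → NDs d := fun j => ⟨Hc T h j, (hH j).1⟩ with hH'
    have h1 : ∀ b : Bool, ∀ᶠ c : Fin (2 * T + 1) → NDs d in 𝓝 H',
        ∀ w ∈ closure A, run (base hd) (cc T b c) (bl T b) w ∈ A := by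
      intro b
      apply isClosed_closure.isCompact.eventually_forall_of_forall_eventually
      intro w hw
      have h2 : Continuous fun p : (Fin (2 * T + 1) → NDs d) × Sph =>
          run (base hd) (cc T b p.1) (bl T b) p.2 :=
        run_joint (base hd) (Y := Fin (2 * T + 1) → NDs d) (α := fun y => cc T b y)
          (fun k => cc_cont T b k) _
      have h3 : run (base hd) (cc T b H') (bl T b) w ∈ A := by
        have h4 : run (base hd) (cc T b H') (bl T b) = comp (h b) (bl T b) :=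
          comp_base hd fun k hk => Hc_pos h hk
        rw [h4]
        exact hm b w hw
      exact h2.continuousAt.eventually (hA.mem_nhds h3)
    have h2 : ∀ᶠ c : Fin (2 * T + 1) → NDs d in 𝓝 H', ∀ b : Bool,
        ∀ w ∈ closure A, run (base hd) (cc T b c) (bl T b) w ∈ A := by
      rw [eventually_all]
      exact h1
    obtain ⟨δ₁, hδ₁, h3⟩ := Metric.eventually_nhds_iff.1 h2
    have h4 : ∀ j, ∃ r : ℝ, 0 < r ∧ ∀ x, ‖x - Hc T h j‖ < r → ND x := by
      intro j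
      obtain ⟨r, hr, h5⟩ := Metric.eventually_nhds_iff.1 (ND_open (hH j).1)
      exact ⟨r, hr, fun x hx => h5 (by rw [dist_eq_norm]; exact hx)⟩
    choose r hr hr' using h4
    obtain ⟨δ₂, hδ₂, h5⟩ : ∃ δ₂ : ℝ, 0 < δ₂ ∧ ∀ j, δ₂ ≤ r j := by
      refine ⟨Finset.univ.inf' Finset.univ_nonempty r, ?_, fun j =>
        Finset.inf'_le _ (Finset.mem_univ j)⟩
      rw [Finset.lt_inf'_iff]
      exact fun j _ => hr j
    refine ⟨min δ₁ δ₂, lt_min hδ₁ hδ₂, fun j x hx => hr' j x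
      (hx.trans_le ((min_le_right _ _).trans (h5 j))), ?_⟩
    rintro ⟨b, c⟩ he w hw
    refine h3 ?_ b w hw
    rw [dist_pi_lt_iff hδ₁]
    intro j
    have h6 := he j
    rw [Subtype.dist_eq, dist_eq_norm]
    exact lt_of_lt_of_le h6 (min_le_left _ _)

end Pool.Agent.U202.RM
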