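import Mathlib

/-! Products of mixtures, and selections of coordinates. -/

set_option autoImplicit false
set_option linter.unusedSectionVars false

open MeasureTheory Filter Topology Set
open scoped ENNReal

namespace Pool.Agent.U202.RM

section mix

variable {C : Type} [MeasurableSpace C] (ν : Measure C)

/-- a fair coin and an independent element of law `ν` -/
noncomputable def mixm : Measure (Bool × C) :=
  (2 : ℝ≥0∞)⁻¹ • (ν.map (Prod.mk true) + ν.map (Prod.mk false))

theorem mixm_apply {B : Set (Bool × C)} (hB : MeasurableSet B) :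
    mixm ν B = ∑ b : Bool, (2 : ℝ≥0∞)⁻¹ * ν (Prod.mk b ⁻¹' B) := by
  unfold mixm
  rw [Measure.smul_apply, Measure.add_apply, Measure.map_apply measurable_prodMk_left hB,
    Measure.map_apply measurable_prodMk_left hB, smul_eq_mul, Fintype.sum_bool, mul_add]

theorem mixm_ge (b : Bool) (B : Set (Bool × C)) :
    (2 : ℝ≥0∞)⁻¹ * ν (Prod.mk b ⁻¹' B) ≤ mixm ν B := by
  have h1 := Measure.le_map_apply (μ := ν) (f := Prod.mk b)
    (measurable_prodMk_left (α := Bool) (β := C)).aemeasurable B
  unfold mixm
  rw [Measure.smul_apply, Measure.add_apply, smul_eq_mul]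
  refine mul_le_mul_right ?_ _
  cases b with
  | true => exact h1.trans le_self_add
  | false => exact h1.trans le_add_self

instance mixm_prob [IsProbabilityMeasure ν] : IsProbabilityMeasure (mixm ν) := by
  constructor
  rw [mixm_apply ν MeasurableSet.univ, Fintype.sum_bool]
  simp only [preimage_univ, measure_univ, mul_one]
  exact ENNReal.inv_two_add_inv_two

theorem mixm_ae {p : Bool × C → Prop} (h : ∀ b, ∀ᵐ c ∂ν, p (b, c)) : ∀ᵐ e ∂(mixm ν), p e := by
  rw [ae_iff]
  have hb : ∀ b, ∃ t, MeasurableSet t ∧ ν t = 0 ∧ {c | ¬ p (b, c)} ⊆ t := by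
    intro b
    obtain ⟨t, h1, h2, h3⟩ := exists_measurable_superset_of_null (ae_iff.1 (h b))
    exact ⟨t, h2, h3, h1⟩
  choose t ht h0 hs using hb
  have hm : MeasurableSet {e : Bool × C | e.2 ∈ t e.1} := by
    have h1 : {e : Bool × C | e.2 ∈ t e.1} = ⋃ b : Bool, ({e | e.1 = b} ∩ Prod.snd ⁻¹' t b) := by
      ext e
      simp only [mem_iUnion]
      constructor
      · intro he
        exact ⟨e.1, rfl, he⟩
      · rintro ⟨b, hb, he⟩
        have hb' : e.1 = b := hb
        subst hb'
        exact he
    rw [h1]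
    exact MeasurableSet.iUnion fun b =>
      (measurable_fst (measurableSet_singleton b)).inter (measurable_snd (ht b))
  refine measure_mono_null (t := {e : Bool × C | e.2 ∈ t e.1}) ?_ ?_
  · rintro ⟨b, c⟩ he
    exact hs b he
  · rw [mixm_apply ν hm]
    refine Finset.sum_eq_zero fun b _ => ?_
    have : Prod.mk b ⁻¹' {e : Bool × C | e.2 ∈ t e.1} = t b := rfl
    rw [this, h0, mul_zero]

theorem pi_mixm [IsProbabilityMeasure ν] (n : ℕ) :
    Measure.pi (fun _ : Fin n => mixm ν) = ∑ t : Fin n → Bool, ((2 : ℝ≥0∞)⁻¹ ^ n) •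
      (Measure.pi fun _ : Fin n => ν).map fun c k => (t k, c k) := by
  classical
  refine Measure.pi_eq fun B hB => ?_
  have hm : ∀ t : Fin n → Bool, Measurable fun (c : Fin n → C) (k : Fin n) => (t k, c k) := by
    intro t
    exact measurable_pi_lambda _ fun k => measurable_const.prodMk (measurable_pi_apply k)
  rw [Measure.finsetSum_apply]
  have h1 : ∀ t : Fin n → Bool, (((2 : ℝ≥0∞)⁻¹ ^ n) •
      (Measure.pi fun _ : Fin n => ν).map fun c k => (t k, c k)) (univ.pi B) =
      ∏ k, ((2 : ℝ≥0∞)⁻¹ * ν (Prod.mk (t k) ⁻¹' B k)) := by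
    intro t
    rw [Measure.smul_apply, Measure.map_apply (hm t) (MeasurableSet.univ_pi hB)]
    have h2 : (fun (c : Fin n → C) (k : Fin n) => (t k, c k)) ⁻¹' univ.pi B =
        univ.pi fun k => Prod.mk (t k) ⁻¹' B k := by
      ext c
      simp only [mem_preimage, Set.mem_pi, mem_univ, true_implies]
    rw [h2, Measure.pi_pi, smul_eq_mul, Finset.prod_mul_distrib, Finset.prod_const,
      Finset.card_univ, Fintype.card_fin]
  rw [Finset.sum_congr rfl fun t _ => h1 t]
  have h3 := Finset.prod_univ_sum (fun _ : Fin n => (Finset.univ : Finset Bool))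
    fun (k : Fin n) (b : Bool) => ((2 : ℝ≥0∞)⁻¹ * ν (Prod.mk b ⁻¹' B k))
  rw [Fintype.piFinset_univ] at h3
  rw [← h3]
  exact Finset.prod_congr rfl fun k _ => (mixm_apply ν (hB k)).symm

end mix

section sel

/-- selection of coordinates -/
def sel {F : Type} {n M N : ℕ} (J : Fin N → Fin n × Fin M) (c : Fin n → Fin M → F) : Fin N → F :=
  fun p => c (J p).1 (J p).2

theorem sel_map {F : Type} [MeasurableSpace F] {n M N : ℕ} (J : Fin N → Fin n × Fin M)
    (hJ : Function.Injective J) (U : Fin M → Measure F) [∀ j, IsProbabilityMeasure (U j)] :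
    (Measure.pi fun _ : Fin n => Measure.pi U).map (sel J) = Measure.pi fun p => U (J p).2 := by
  classical
  refine (Measure.pi_eq fun B hB => ?_).symm
  have hm : Measurable (sel J : (Fin n → Fin M → F) → (Fin N → F)) :=
    measurable_pi_lambda _ fun p => (measurable_pi_apply _).comp (measurable_pi_apply _)
  rw [Measure.map_apply hm (MeasurableSet.univ_pi hB)]
  set D : Fin n → Fin M → Set F := fun k j => ⋂ (p : Fin N) (_ : J p = (k, j)), B p with hD
  have h1 : sel J ⁻¹' univ.pi B = univ.pi fun k => univ.pi (D k) := by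
    ext c
    simp only [mem_preimage, Set.mem_pi, mem_univ, true_implies, hD, mem_iInter]
    constructor
    · intro h k j p hp
      have h2 := h p
      unfold sel at h2
      rw [hp] at h2
      exact h2
    · intro h p
      exact h (J p).1 (J p).2 p rfl
  rw [h1, Measure.pi_pi]
  simp only [Measure.pi_pi]
  have h2 : (∏ k, ∏ j, U j (D k j)) = ∏ r : Fin n × Fin M, U r.2 (D r.1 r.2) :=
    (Fintype.prod_prod_type fun r : Fin n × Fin M => U r.2 (D r.1 r.2)).symm
  rw [h2]
  have h3 : ∏ r : Fin n × Fin M, U r.2 (D r.1 r.2) =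
      ∏ r ∈ Finset.univ.image J, U r.2 (D r.1 r.2) := by
    refine (Finset.prod_subset (Finset.subset_univ _) fun r _ hr => ?_).symm
    have h4 : D r.1 r.2 = univ := by
      rw [hD]
      refine iInter_eq_univ.2 fun p => iInter_eq_univ.2 fun hp => ?_
      exact absurd (Finset.mem_image.2 ⟨p, Finset.mem_univ _, hp⟩) hr
    rw [h4, measure_univ]
  rw [h3, Finset.prod_image fun a _ b _ hab => hJ hab]
  refine Finset.prod_congr rfl fun p _ => ?_
  congr 1
  rw [hD]
  ext y
  simp only [mem_iInter]
  constructor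
  · intro h; exact h p rfl
  · intro h q hq
    have : q = p := hJ hq
    rw [this]
    exact h

end sel

end Pool.Agent.U202.RM
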