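import Mathlib
import Pool.Agent.U202.RM.Data
import Pool.Agent.U202.RM.Mix

/-! The bad events of the blocks in terms of the single maps. -/

set_option autoImplicit false
set_option linter.unusedSectionVars false

open MeasureTheory Filter Topology Set Metric
open scoped ENNReal

namespace Pool.Agent.U202.RM

open Pool.Agent.R239.Fat (Sph LocInj Hol Hyp Att)
open Pool.Agent.H790R3.RB (CV hF cr ND sp pr hc)

section general

variable {E : Type} [TopologicalSpace E] (X : Fam E)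

/-- the union of the bad events -/
def BadR (N : ℕ) : Set (Fin (N + 1) → E) := ⋃ i : Fin (N + 1), rot i ⁻¹' Bad X N

/-- the parameters have the same map and the same critical values -/
def Rel (a a' : E) : Prop := X.f a = X.f a' ∧ ∀ u, (a, u) ∈ X.Z ↔ (a', u) ∈ X.Z

theorem stay_congr (N : ℕ) : ∀ (c c' : Fin N → E), (∀ k, Rel X (c k) (c' k)) → ∀ z,
    (stay X N c z ↔ stay X N c' z) := by
  induction N with
  | zero => intro c c' _ z; exact Iff.rfl
  | succ N ih =>
    intro c c' h z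
    show (z ∉ X.A ∧ stay X N (Fin.tail c) (X.f (c 0) z)) ↔
      (z ∉ X.A ∧ stay X N (Fin.tail c') (X.f (c' 0) z))
    rw [(h 0).1, ih (Fin.tail c) (Fin.tail c') fun k => h k.succ]

theorem Bad_congr (N : ℕ) {c c' : Fin (N + 1) → E} (h : ∀ k, Rel X (c k) (c' k)) :
    c ∈ Bad X N ↔ c' ∈ Bad X N := by
  constructor
  · rintro ⟨u, h1, h2⟩
    exact ⟨u, ((h 0).2 u).1 h1, (stay_congr X N _ _ (fun k => h k.succ) u).1 h2⟩
  · rintro ⟨u, h1, h2⟩
    exact ⟨u, ((h 0).2 u).2 h1, (stay_congr X N _ _ (fun k => h k.succ) u).2 h2⟩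

theorem BadR_congr (N : ℕ) {c c' : Fin (N + 1) → E} (h : ∀ k, Rel X (c k) (c' k)) :
    c ∈ BadR X N ↔ c' ∈ BadR X N := by
  unfold BadR
  simp only [mem_iUnion, mem_preimage]
  exact exists_congr fun i => Bad_congr X N fun k => h (k + i)

variable [SecondCountableTopology E] [MeasurableSpace E] [BorelSpace E]

theorem rot_meas {N : ℕ} (i : Fin (N + 1)) :
    Measurable (rot i : (Fin (N + 1) → E) → (Fin (N + 1) → E)) :=
  measurable_pi_lambda _ fun _ => measurable_pi_apply _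

theorem BadR_meas (N : ℕ) : MeasurableSet (BadR X N) :=
  MeasurableSet.iUnion fun i => rot_meas i (Bad_meas X N)

/-- exponential bound for the bad events -/
theorem badR_iid (μ : Measure E) [IsProbabilityMeasure μ] (hS : ∀ a ∈ X.S, ∀ V ∈ 𝓝 a, 0 < μ V)
    (hreach : ∀ z, Esc X.f X.S X.A z) :
    ∃ K θ : ℝ, 0 < K ∧ 0 < θ ∧ θ < 1 ∧ ∀ N : ℕ,
      Measure.pi (fun _ : Fin (N + 1) => μ) (BadR X N) ≤ ENNReal.ofReal (K * θ ^ (N + 1)) := by
  obtain ⟨K₁, θ₁, hK₁, hθ₁, hθ₁', hb⟩ := absorb_exp X μ hS hreach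
  set θ := (1 + θ₁) / 2 with hθ
  have hθρ : θ₁ < θ := by rw [hθ]; linarith
  have hθ0 : 0 < θ := hθ₁.trans hθρ
  have hθ1 : θ < 1 := by rw [hθ]; linarith
  obtain ⟨C, hC, hCb⟩ := exists_bound hθ₁ hθρ
  set K := X.cn * K₁ * C / θ₁ + 1 with hK
  have hK0 : 0 < K := by positivity
  refine ⟨K, θ, hK0, hθ0, hθ1, fun N => ?_⟩
  set P := Measure.pi (fun _ : Fin (N + 1) => μ) with hP
  calc P (⋃ i : Fin (N + 1), rot i ⁻¹' Bad X N)
      ≤ ∑ i : Fin (N + 1), P (rot i ⁻¹' Bad X N) := measure_iUnion_fintype_le _ _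
    _ ≤ ∑ _i : Fin (N + 1), (X.cn : ℝ≥0∞) * ENNReal.ofReal (K₁ * θ₁ ^ N) := by
        refine Finset.sum_le_sum fun i _ => ?_
        rw [(rot_mp i fun _ => μ).measure_preimage (Bad_meas X N).nullMeasurableSet]
        refine Bad_prob X N _ fun z => ?_
        rw [stay_prob]
        exact hb N z
    _ = ENNReal.ofReal ((N + 1 : ℝ) * (X.cn * (K₁ * θ₁ ^ N))) := by
        rw [Finset.sum_const, Finset.card_univ, Fintype.card_fin, nsmul_eq_mul,
          ENNReal.ofReal_mul (by positivity : (0 : ℝ) ≤ (N + 1 : ℝ)),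
          ENNReal.ofReal_mul (Nat.cast_nonneg _ : (0 : ℝ) ≤ (X.cn : ℝ)),
          ENNReal.ofReal_natCast]
        congr 1
        rw [← Nat.cast_succ, ENNReal.ofReal_natCast]
    _ ≤ ENNReal.ofReal (K * θ ^ (N + 1)) := by
        refine ENNReal.ofReal_le_ofReal ?_
        have h2 := hCb (N + 1)
        push_cast at h2
        have h3 : X.cn * K₁ * C / θ₁ ≤ K := by rw [hK]; linarith
        calc (N + 1 : ℝ) * (X.cn * (K₁ * θ₁ ^ N))
            = X.cn * K₁ / θ₁ * ((N + 1 : ℝ) * θ₁ ^ (N + 1)) := by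
              rw [pow_succ]; field_simp
          _ ≤ X.cn * K₁ / θ₁ * (C * θ ^ (N + 1)) := by gcongr
          _ = X.cn * K₁ * C / θ₁ * θ ^ (N + 1) := by ring
          _ ≤ K * θ ^ (N + 1) := by gcongr

/-- the region version -/
theorem badR_region (μ : Measure E) [IsProbabilityMeasure μ] (h : MO X) (hA : X.A.Nonempty)
    (hd : ¬ Dense X.A) (hS : ∀ a ∈ X.S, ∀ V ∈ 𝓝 a, 0 < μ V) (hne : X.S.Nonempty) :
    (∃ K θ : ℝ, 0 < K ∧ 0 < θ ∧ θ < 1 ∧ ∀ N : ℕ,
      Measure.pi (fun _ : Fin (N + 1) => μ) (BadR (enl X h) N) ≤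
        ENNReal.ofReal (K * θ ^ (N + 1))) ∧
    ∀ (N : ℕ) (c : Fin (N + 1) → E), (∀ k, c k ∈ X.S) → c ∉ BadR (enl X h) N →
      Hyp (run X (per c) (N + 1)) := by
  refine ⟨badR_iid (enl X h) μ hS (enl_reach h hne), fun N c hc hB => ?_⟩
  rw [← enl_run h]
  refine det_hyp (enl X h) (fun k => hc k) (fun i hi => hB ?_) (enl_att h hA hd N c fun k => hc k)
  exact mem_iUnion.2 ⟨i, hi⟩

end general

section blocks

variable {E : Type} [TopologicalSpace E] (X : Fam E)

theorem bz_congr {T : ℕ} {b : Bool} {c c' : Fin (2 * T + 1) → E}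
    (h : ∀ i < bl T b, cc T b c i = cc T b c' i) {u : Sph} (hu : ((b, c), u) ∈ bz X T) :
    ((b, c'), u) ∈ bz X T := by
  obtain ⟨i, hi, v, h1, h2⟩ := hu
  have hi' : i < bl T b := hi
  have h1' : (cc T b c i, v) ∈ X.Z := h1
  have h2' : u = run X (sh (i + 1) (cc T b c)) (bl T b - (i + 1)) v := h2
  refine ⟨i, hi', v, ?_, ?_⟩
  · show (cc T b c' i, v) ∈ X.Z
    rw [← h i hi']
    exact h1'
  · show u = run X (sh (i + 1) (cc T b c')) (bl T b - (i + 1)) v
    rw [h2']
    refine congrFun (run_congr X fun k hk => ?_) v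
    exact h (i + 1 + k) (by omega)

theorem blk_rel {T : ℕ} {S : Set (Bool × (Fin (2 * T + 1) → E))} {A : Set Sph} {hA : IsOpen A}
    {hinv : ∀ e ∈ S, ∀ z ∈ A, run X (cc T e.1 e.2) (bl T e.1) z ∈ A} {b : Bool}
    {c c' : Fin (2 * T + 1) → E} (h : ∀ i < bl T b, cc T b c i = cc T b c' i) :
    Rel (blk X T S A hA hinv) (b, c) (b, c') := by
  refine ⟨run_congr X fun i hi => h i hi, fun u => ⟨fun hu => bz_congr X h hu, fun hu => ?_⟩⟩
  exact bz_congr X (fun i hi => (h i hi).symm) hu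

/-- the positions of the blocks -/
def tot (T : ℕ) (t : ℕ → Bool) (n : ℕ) : ℕ := ∑ i ∈ Finset.range n, bl T (t i)

theorem tot_succ (T : ℕ) (t : ℕ → Bool) (n : ℕ) : tot T t (n + 1) = tot T t n + bl T (t n) :=
  Finset.sum_range_succ _ _

theorem tot_mono (T : ℕ) (t : ℕ → Bool) : Monotone (tot T t) := by
  refine monotone_nat_of_le_succ fun n => ?_
  rw [tot_succ]
  omega

theorem exists_ki (T : ℕ) (t : ℕ → Bool) (n : ℕ) : ∀ p, p < tot T t n →
    ∃ k < n, ∃ i < bl T (t k), p = tot T t k + i := by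
  induction n with
  | zero => intro p hp; exact absurd hp (Nat.not_lt_zero _)
  | succ n ih =>
    intro p hp
    rcases lt_or_ge p (tot T t n) with h | h
    · obtain ⟨k, hk, i, hi, e⟩ := ih p h
      exact ⟨k, by omega, i, hi, e⟩
    · rw [tot_succ] at hp
      exact ⟨n, n.lt_succ_self, p - tot T t n, by omega, by omega⟩

theorem unique_ki {T : ℕ} {t : ℕ → Bool} {k k' i i' : ℕ} (hi : i < bl T (t k))
    (hi' : i' < bl T (t k')) (h : tot T t k + i = tot T t k' + i') : k = k' ∧ i = i' := by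
  have key : ∀ {k k' i i' : ℕ}, i < bl T (t k) → i' < bl T (t k') →
      tot T t k + i = tot T t k' + i' → ¬ k < k' := by
    intro k k' i i' hi hi' h hlt
    have h1 := tot_mono T t (show k + 1 ≤ k' by omega)
    rw [tot_succ] at h1
    omega
  have h1 : k = k' := by
    rcases lt_trichotomy k k' with h2 | h2 | h2
    · exact absurd h2 (key hi hi' h)
    · exact h2
    · exact absurd h2 (key hi' hi h.symm)
  subst h1
  exact ⟨rfl, by omega⟩

theorem exists_J (T : ℕ) (t : ℕ → Bool) (n : ℕ) :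
    ∃ J : Fin (tot T t n) → Fin n × Fin (2 * T + 1), Function.Injective J ∧
      ∀ k (hk : k < n) i, i < bl T (t k) → ∀ hp : tot T t k + i < tot T t n,
        J ⟨tot T t k + i, hp⟩ = (⟨k, hk⟩, pos T (t k) i) := by
  choose k hk i hi he using fun p : Fin (tot T t n) => exists_ki T t n p.1 p.2
  refine ⟨fun p => (⟨k p, hk p⟩, pos T (t (k p)) (i p)), fun p q hpq => ?_, ?_⟩
  · have h1 : k p = k q := congrArg (fun r : Fin n × Fin (2 * T + 1) => (r.1 : ℕ)) hpq
    have h2 : pos T (t (k p)) (i p) = pos T (t (k q)) (i q) := congrArg Prod.snd hpq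
    rw [← h1] at h2
    have h3 : i p = i q := pos_inj (hi p) (by rw [h1]; exact hi q) h2
    refine Fin.ext ?_
    rw [he p, he q, h1, h3]
  · intro k' hk' i' hi' hp
    obtain ⟨h1, h2⟩ := unique_ki (hi ⟨_, hp⟩) hi' (he ⟨_, hp⟩).symm
    refine Prod.ext (Fin.ext h1) ?_
    show pos T (t (k _)) (i _) = pos T (t k') i'
    rw [h1, h2]

theorem flat_run {T : ℕ} {S : Set (Bool × (Fin (2 * T + 1) → E))} {A : Set Sph} {hA : IsOpen A}
    {hinv : ∀ e ∈ S, ∀ z ∈ A, run X (cc T e.1 e.2) (bl T e.1) z ∈ A}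
    (e : ℕ → Bool × (Fin (2 * T + 1) → E)) {t : ℕ → Bool} {α : ℕ → E} {n : ℕ}
    (ht : ∀ k < n, (e k).1 = t k)
    (h : ∀ k < n, ∀ i < bl T (t k), α (tot T t k + i) = cc T (t k) (e k).2 i) :
    run X α (tot T t n) = run (blk X T S A hA hinv) e n := by
  induction n with
  | zero => rfl
  | succ n ih =>
    funext z
    rw [tot_succ, run_add, ih (fun k hk => ht k (by omega)) fun k hk => h k (by omega)]
    show _ = run X (cc T (e n).1 (e n).2) (bl T (e n).1) (run (blk X T S A hA hinv) e n z)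
    rw [ht n n.lt_succ_self]
    exact congrFun (run_congr X fun i hi => h n n.lt_succ_self i hi) _

end blocks

end Pool.Agent.U202.RM
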