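import Mathlib
import Pool.Agent.U202.RM.Flat

/-! From the blocks to the single maps. -/

set_option autoImplicit false
set_option linter.unusedSectionVars false

open MeasureTheory Filter Topology Set Metric
open scoped ENNReal

namespace Pool.Agent.U202.RM

open Pool.Agent.R239.Fat (Sph LocInj Hol Hyp Att)
open Pool.Agent.H790R3.RB (CV hF cr ND sp pr hc)

/-- `N` maps as the beginning of a sequence -/
def extF {d N : ℕ} (α : Fin N → CV d) : ℕ → CV d := fun k => if h : k < N then α ⟨k, h⟩ else 0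

/-- the bad set of `N` maps -/
def BadN (d N : ℕ) : Set (Fin N → NDs d) := {α | ¬ Hyp (comp (extF fun p => (α p).1) N)}

section spread

variable {F : Type} {n M N : ℕ} (J : Fin N → Fin n × Fin M) (D : Fin M → F)

open Classical in
/-- the inverse of the selection, with default values -/
noncomputable def spread (α : Fin N → F) : Fin n → Fin M → F := fun k j =>
  if h : ∃ p, J p = (k, j) then α h.choose else D j

theorem spread_meas [MeasurableSpace F] : Measurable (spread J D) := by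
  classical
  refine measurable_pi_lambda _ fun k => measurable_pi_lambda _ fun j => ?_
  by_cases h : ∃ p, J p = (k, j)
  · have : (fun α : Fin N → F => spread J D α k j) = fun α => α h.choose := by
      funext α
      unfold spread
      rw [dif_pos h]
    rw [this]
    exact measurable_pi_apply _
  · have : (fun α : Fin N → F => spread J D α k j) = fun _ => D j := by
      funext α
      unfold spread
      rw [dif_neg h]
    rw [this]
    exact measurable_const

theorem spread_sel (c : Fin n → Fin M → F) {k : Fin n} {j : Fin M} (h : ∃ p, J p = (k, j)) :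
    spread J D (sel J c) k j = c k j := by
  unfold spread
  rw [dif_pos h]
  have h1 := h.choose_spec
  show c (J h.choose).1 (J h.choose).2 = c k j
  rw [h1]

theorem spread_at (hJ : Function.Injective J) (α : Fin N → F) {k : Fin n} {j : Fin M} {p : Fin N}
    (h : J p = (k, j)) : spread J D α k j = α p := by
  have h1 : ∃ p, J p = (k, j) := ⟨p, h⟩
  unfold spread
  rw [dif_pos h1]
  congr 1
  exact hJ (h1.choose_spec.trans h.symm)

theorem spread_prop (α : Fin N → F) {Q : Fin M → F → Prop} (hD : ∀ j, Q j (D j))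
    (hα : ∀ p, Q (J p).2 (α p)) (k : Fin n) (j : Fin M) : Q j (spread J D α k j) := by
  unfold spread
  split_ifs with h
  · have h1 := hα h.choose
    rw [h.choose_spec] at h1
    exact h1
  · exact hD j

end spread

/-- extension of a finite sequence of types -/
def extB {n : ℕ} (t : Fin n → Bool) : ℕ → Bool := fun k => if h : k < n then t ⟨k, h⟩ else false

theorem extB_lt {n : ℕ} (t : Fin n → Bool) {k : ℕ} (h : k < n) : extB t k = t ⟨k, h⟩ := dif_pos h

theorem per_type {d : ℕ} (hd : 2 ≤ d) {T : ℕ} (H : Fin (2 * T + 1) → CV d)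
    (hH : ∀ j, ND (H j)) {A : Set Sph} (hA : IsOpen A) {δ : ℝ} (hδ : 0 < δ)
    (hinv : ∀ e ∈ SH T H δ, ∀ z ∈ A, run (base hd) (cc T e.1 e.2) (bl T e.1) z ∈ A)
    (hMO : MO (blk (base hd) T (SH T H δ) A hA hinv))
    (hhyp : ∀ (N : ℕ) (c : Fin (N + 1) → Bool × (Fin (2 * T + 1) → NDs d)),
      (∀ k, c k ∈ SH T H δ) → c ∉ BadR (enl (blk (base hd) T (SH T H δ) A hA hinv) hMO) N →
      Hyp (run (blk (base hd) T (SH T H δ) A hA hinv) (per c) (N + 1)))
    (U : Fin (2 * T + 1) → Measure (NDs d)) [∀ j, IsProbabilityMeasure (U j)]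
    (hU0 : ∀ j, ∀ᵐ a ∂(U j), ‖a.1 - H j‖ < δ) (n : ℕ) (t : Fin (n + 1) → Bool) :
    ∃ ι : Fin (tot T (extB t) (n + 1)) → Fin (2 * T + 1),
      Measure.pi (fun p => U (ι p)) (BadN d (tot T (extB t) (n + 1))) ≤
        (Measure.pi fun _ : Fin (n + 1) => Measure.pi U)
          ((fun c k => (t k, c k)) ⁻¹' BadR (enl (blk (base hd) T (SH T H δ) A hA hinv) hMO) n) := by
  classical
  set X := base hd with hX
  set Xb := blk X T (SH T H δ) A hA hinv with hXb
  set Xe := enl Xb hMO with hXe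
  set t' := extB t with ht'
  set N := tot T t' (n + 1) with hN
  obtain ⟨J, hJ, hJ2⟩ := exists_J T t' (n + 1)
  set D : Fin (2 * T + 1) → NDs d := fun j => ⟨H j, hH j⟩ with hD
  have hlt : ∀ k < n + 1, ∀ i < bl T (t' k), tot T t' k + i < N := by
    intro k hk i hi
    have h1 := tot_mono T t' (show k + 1 ≤ n + 1 by omega)
    rw [tot_succ] at h1
    omega
  set Φ : (Fin (n + 1) → Fin (2 * T + 1) → NDs d) →
      (Fin (n + 1) → Bool × (Fin (2 * T + 1) → NDs d)) := fun c k => (t k, c k) with hΦ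
  have hΦm : Measurable Φ :=
    measurable_pi_lambda _ fun k => measurable_const.prodMk (measurable_pi_apply k)
  set G : Set (Fin N → NDs d) := (Φ ∘ spread J D) ⁻¹' BadR Xe n with hG
  have hGm : MeasurableSet G := (hΦm.comp (spread_meas J D)) (BadR_meas Xe n)
  refine ⟨fun p => (J p).2, ?_⟩
  set P := Measure.pi (fun p : Fin N => U (J p).2) with hP
  have hsel : sel J ⁻¹' G = Φ ⁻¹' BadR Xe n := by
    ext c
    show Φ (spread J D (sel J c)) ∈ BadR Xe n ↔ Φ c ∈ BadR Xe n
    refine BadR_congr Xe n fun k => ?_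
    have h1 : ∀ i < bl T (t k), cc T (t k) (spread J D (sel J c) k) i = cc T (t k) (c k) i := by
      intro i hi
      refine spread_sel J D c ?_
      have h2 : t' k = t k := extB_lt t k.2
      have h3 : i < bl T (t' k) := by rw [h2]; exact hi
      refine ⟨⟨_, hlt k k.2 i h3⟩, ?_⟩
      rw [hJ2 k k.2 i h3, h2]
    exact blk_rel X h1
  have hgood : ∀ α : Fin N → NDs d, α ∉ G → (∀ p, ‖(α p).1 - H (J p).2‖ < δ) →
      Hyp (comp (extF fun p => (α p).1) N) := by
    intro α hαG hα
    set e : Fin (n + 1) → Bool × (Fin (2 * T + 1) → NDs d) := Φ (spread J D α) with he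
    have heS : ∀ k, e k ∈ SH T H δ := by
      intro k j
      exact spread_prop J D α (Q := fun j a => ‖a.1 - H j‖ < δ)
        (fun j => by show ‖H j - H j‖ < δ; rw [sub_self, norm_zero]; exact hδ) hα k j
    have h1 := hhyp n e heS hαG
    set α' : ℕ → NDs d := fun p => if h : p < N then α ⟨p, h⟩ else ⟨H 0, hH 0⟩ with hα'
    have h2 : run X α' N = run Xb (per e) (n + 1) := by
      refine flat_run X (per e) (fun k hk => ?_) fun k hk i hi => ?_
      · have h3 : per e k = e ⟨k, hk⟩ := per_val e ⟨k, hk⟩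
        rw [h3]
        exact (extB_lt t hk).symm
      · have h3 : per e k = e ⟨k, hk⟩ := per_val e ⟨k, hk⟩
        rw [h3]
        have h4 := hlt k hk i hi
        have h5 : α' (tot T t' k + i) = α ⟨_, h4⟩ := dif_pos h4
        rw [h5]
        exact (spread_at J D hJ α (hJ2 k hk i hi h4)).symm
    have h3 : run X α' N = comp (extF fun p => (α p).1) N := by
      refine comp_base hd fun k hk => ?_
      have h4 : α' k = α ⟨k, hk⟩ := dif_pos hk
      have h5 : extF (fun p => (α p).1) k = (α ⟨k, hk⟩).1 := by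
        unfold extF
        rw [dif_pos hk]
      rw [h4, h5]
    rw [← h3, h2]
    exact h1
  have hnull : P (⋃ p, {α : Fin N → NDs d | ¬ ‖(α p).1 - H (J p).2‖ < δ}) = 0 := by
    rw [measure_iUnion_null_iff]
    intro p
    exact (measurePreserving_eval (fun p : Fin N => U (J p).2) p).quasiMeasurePreserving.ae
      (hU0 (J p).2)
  calc P (BadN d N) ≤ P (G ∪ ⋃ p, {α : Fin N → NDs d | ¬ ‖(α p).1 - H (J p).2‖ < δ}) := by
        refine measure_mono fun α hα => ?_
        by_contra hcon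
        simp only [mem_union, mem_iUnion, not_or, not_exists, mem_ofPred_eq, not_not] at hcon
        exact hα (hgood α hcon.1 hcon.2)
    _ ≤ P G + P (⋃ p, {α : Fin N → NDs d | ¬ ‖(α p).1 - H (J p).2‖ < δ}) := measure_union_le _ _
    _ = P G := by rw [hnull, add_zero]
    _ = (Measure.pi fun _ : Fin (n + 1) => Measure.pi U) (sel J ⁻¹' G) := by
        rw [hP, ← sel_map J hJ U, Measure.map_apply ?_ hGm]
        exact measurable_pi_lambda _ fun p => (measurable_pi_apply _).comp (measurable_pi_apply _)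
    _ = _ := by rw [hsel]

theorem tot_card {T n : ℕ} (t : Fin n → Bool) :
    tot T (extB t) n = T * n + (Finset.univ.filter fun k => t k = true).card := by
  unfold tot
  rw [Finset.sum_range]
  have h1 : ∀ i : Fin n, bl T (extB t i) = T + (if t i = true then 1 else 0) := by
    intro i
    rw [extB_lt t i.2]
    unfold bl
    cases t i <;> simp
  rw [Finset.sum_congr rfl fun i _ => h1 i, Finset.sum_add_distrib, Finset.card_filter]
  simp [mul_comm]

theorem card_types (n m : ℕ) : n.choose m ≤ (Finset.univ.filter fun t : Fin n → Bool =>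
    (Finset.univ.filter fun k => t k = true).card = m).card := by
  classical
  have h1 : (Finset.powersetCard m (Finset.univ : Finset (Fin n))).card = n.choose m := by
    rw [Finset.card_powersetCard, Finset.card_univ, Fintype.card_fin]
  rw [← h1]
  refine Finset.card_le_card_of_injOn (fun S k => decide (k ∈ S)) ?_ ?_
  · intro S hS
    have h2 := (Finset.mem_powersetCard.1 (Finset.mem_coe.1 hS)).2
    simp only [Finset.coe_filter, Finset.mem_univ, true_and, mem_ofPred_eq, decide_eq_true_eq]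
    rw [← h2]
    congr 1
    ext k
    simp
  · intro S _ S' _ h
    ext k
    have := congrFun h k
    simpa using this

theorem asm {d : ℕ} (hd : 2 ≤ d) {T : ℕ} (hT : T ≠ 0) (H : Fin (2 * T + 1) → CV d)
    (hH : ∀ j, ND (H j)) {A : Set Sph} (hA : IsOpen A) (hne : A.Nonempty) (hnd : ¬ Dense A)
    {δ : ℝ} (hδ : 0 < δ)
    (hm : ∀ e : Bool × (Fin (2 * T + 1) → NDs d), (∀ j, ‖(e.2 j).1 - H j‖ < δ) →
      ∀ w ∈ closure A, run (base hd) (cc T e.1 e.2) (bl T e.1) w ∈ A)
    (U : Fin (2 * T + 1) → Measure (NDs d)) [∀ j, IsProbabilityMeasure (U j)]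
    (hU0 : ∀ j, ∀ᵐ a ∂(U j), ‖a.1 - H j‖ < δ)
    (hUp : ∀ j (a : NDs d), ‖a.1 - H j‖ < δ → ∀ V ∈ 𝓝 a, 0 < U j V) :
    ∃ K θ : ℝ, 0 < K ∧ 0 < θ ∧ θ < 1 ∧ ∀ n m : ℕ, m ≤ n + 1 →
      ∃ ι : Fin (T * (n + 1) + m) → Fin (2 * T + 1),
        ((n + 1).choose m : ℝ≥0∞) *
          Measure.pi (fun p => U (ι p)) (BadN d (T * (n + 1) + m)) ≤
        2 ^ (n + 1) * ENNReal.ofReal (K * θ ^ (n + 1)) := by
  classical
  have hinv : ∀ e ∈ SH T H δ, ∀ z ∈ A, run (base hd) (cc T e.1 e.2) (bl T e.1) z ∈ A :=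
    fun e he z hz => hm e he z (subset_closure hz)
  have hMO : MO (blk (base hd) T (SH T H δ) A hA hinv) := blk_MO hd hT H δ A hA hinv
  have hS : ∀ e ∈ SH T H δ, ∀ V ∈ 𝓝 e, 0 < mixm (Measure.pi U) V := by
    rintro ⟨b, c⟩ he V hV
    refine lt_of_lt_of_le ?_ (mixm_ge (Measure.pi U) b V)
    refine ENNReal.mul_pos (by simp) ?_
    have h1 : Prod.mk b ⁻¹' V ∈ 𝓝 c :=
      (Continuous.prodMk_right b).continuousAt.preimage_mem_nhds hV
    rw [nhds_pi, Filter.mem_pi'] at h1
    obtain ⟨I, s, hs, hsV⟩ := h1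
    have h2 : univ.pi s ⊆ Prod.mk b ⁻¹' V := fun a ha => hsV fun i _ => ha i (mem_univ i)
    refine (lt_of_lt_of_le ?_ (measure_mono h2)).ne'
    rw [Measure.pi_pi]
    exact pos_iff_ne_zero.2 (Finset.prod_ne_zero_iff.2 fun j _ =>
      (hUp j (c j) (he j) _ (hs j)).ne')
  have hSne : (SH T H δ).Nonempty :=
    ⟨(true, fun j => ⟨H j, hH j⟩), fun j => by
      show ‖H j - H j‖ < δ
      rw [sub_self, norm_zero]; exact hδ⟩
  obtain ⟨⟨K, θ, hK, h0, h1, hbad⟩, hhyp⟩ :=
    badR_region (blk (base hd) T (SH T H δ) A hA hinv) (mixm (Measure.pi U)) hMO hne hnd hS hSne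
  refine ⟨K, θ, hK, h0, h1, fun n m hmn => ?_⟩
  set B := BadR (enl (blk (base hd) T (SH T H δ) A hA hinv) hMO) n with hB
  have hBm : MeasurableSet B := BadR_meas _ n
  set v : (Fin (n + 1) → Bool) → ℝ≥0∞ := fun t =>
    (Measure.pi fun _ : Fin (n + 1) => Measure.pi U) ((fun c k => (t k, c k)) ⁻¹' B) with hv
  have hsum : ∑ t : Fin (n + 1) → Bool, (2 : ℝ≥0∞)⁻¹ ^ (n + 1) * v t ≤
      ENNReal.ofReal (K * θ ^ (n + 1)) := by
    refine le_trans (le_of_eq ?_) (hbad n)
    rw [pi_mixm, Measure.finsetSum_apply]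
    refine Finset.sum_congr rfl fun t _ => ?_
    rw [Measure.smul_apply, smul_eq_mul, Measure.map_apply ?_ hBm]
    exact measurable_pi_lambda _ fun k => measurable_const.prodMk (measurable_pi_apply k)
  have hsum' : ∑ t : Fin (n + 1) → Bool, v t ≤ 2 ^ (n + 1) * ENNReal.ofReal (K * θ ^ (n + 1)) := by
    rw [← Finset.mul_sum] at hsum
    calc ∑ t : Fin (n + 1) → Bool, v t
        = 2 ^ (n + 1) * ((2 : ℝ≥0∞)⁻¹ ^ (n + 1) * ∑ t : Fin (n + 1) → Bool, v t) := by
          rw [← mul_assoc, ← mul_pow, ENNReal.mul_inv_cancel two_ne_zero ENNReal.ofNat_ne_top,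
            one_pow, one_mul]
      _ ≤ _ := by gcongr
  set 𝒯 := Finset.univ.filter fun t : Fin (n + 1) → Bool =>
    (Finset.univ.filter fun k => t k = true).card = m with h𝒯
  have hcard := card_types (n + 1) m
  have hpos : 0 < (n + 1).choose m := Nat.choose_pos hmn
  have hne' : 𝒯.Nonempty := Finset.card_pos.1 (lt_of_lt_of_le hpos hcard)
  obtain ⟨t, ht, hmin⟩ := Finset.exists_min_image 𝒯 v hne'
  have hle : ((n + 1).choose m : ℝ≥0∞) * v t ≤ 2 ^ (n + 1) * ENNReal.ofReal (K * θ ^ (n + 1)) := by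
    calc ((n + 1).choose m : ℝ≥0∞) * v t ≤ (𝒯.card : ℝ≥0∞) * v t := by
          gcongr
      _ = ∑ _t ∈ 𝒯, v t := by rw [Finset.sum_const, nsmul_eq_mul]
      _ ≤ ∑ s ∈ 𝒯, v s := Finset.sum_le_sum fun s hs => hmin s hs
      _ ≤ ∑ s : Fin (n + 1) → Bool, v s :=
          Finset.sum_le_sum_of_subset (Finset.subset_univ _)
      _ ≤ _ := hsum'
  obtain ⟨ι, hι⟩ := per_type hd H hH hA hδ hinv hMO hhyp U hU0 n t
  have htc : tot T (extB t) (n + 1) = T * (n + 1) + m := by
    rw [tot_card, (Finset.mem_filter.1 ht).2]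
  have key : ∀ N', tot T (extB t) (n + 1) = N' → ∃ ι : Fin N' → Fin (2 * T + 1),
      Measure.pi (fun p => U (ι p)) (BadN d N') ≤ v t := by
    rintro N' rfl
    exact ⟨ι, hι⟩
  obtain ⟨ι', hι'⟩ := key _ htc
  refine ⟨ι', ?_⟩
  calc _ ≤ ((n + 1).choose m : ℝ≥0∞) * v t := by gcongr
    _ ≤ _ := hle

end Pool.Agent.U202.RM
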