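import Mathlib
import Pool.Agent.U202.RM.Asm

/-! Near every rational map most compositions of maps from suitable small balls are hyperbolic. -/

set_option autoImplicit false
set_option linter.unusedSectionVars false

open MeasureTheory Filter Topology Set Metric ProbabilityTheory
open scoped ENNReal

namespace Pool.Agent.U202.RM

open Pool.Agent.R239.Fat (Sph LocInj Hol Hyp Att)
open Pool.Agent.H790R3.RB (CV hF cr ND sp pr hc)

theorem choose_step {q r : ℕ} (h : 3 * r + 1 ≤ q) :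
    (2 * q).choose (q + r) ≤ 2 * (2 * q).choose (q + (r + 1)) := by
  have h1 := Nat.choose_succ_right_eq (2 * q) (q + r)
  have h2 : 2 * q - (q + r) = q - r := by omega
  rw [h2] at h1
  have h3 : q + r + 1 ≤ 2 * (q - r) := by omega
  have h4 : (2 * q).choose (q + r) * (q + r + 1) ≤
      2 * (2 * q).choose (q + r + 1) * (q + r + 1) := by
    calc (2 * q).choose (q + r) * (q + r + 1) ≤ (2 * q).choose (q + r) * (2 * (q - r)) :=
          Nat.mul_le_mul_left _ h3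
      _ = 2 * ((2 * q).choose (q + r) * (q - r)) := by ring
      _ = 2 * ((2 * q).choose (q + r + 1) * (q + r + 1)) := by rw [h1]
      _ = 2 * (2 * q).choose (q + r + 1) * (q + r + 1) := by ring
  exact Nat.le_of_mul_le_mul_right h4 (by omega)

theorem choose_shift {q : ℕ} (r : ℕ) (h : 3 * r ≤ q) :
    (2 * q).choose q ≤ 2 ^ r * (2 * q).choose (q + r) := by
  induction r with
  | zero => simp
  | succ r ih =>
    calc (2 * q).choose q ≤ 2 ^ r * (2 * q).choose (q + r) := ih (by omega)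
      _ ≤ 2 ^ r * (2 * (2 * q).choose (q + (r + 1))) :=
          Nat.mul_le_mul_left _ (choose_step (by omega))
      _ = 2 ^ (r + 1) * (2 * q).choose (q + (r + 1)) := by ring

theorem two_pow_le {q r L : ℕ} (h : 3 * r ≤ q) (hr : r ≤ L) :
    2 ^ (2 * q) ≤ (2 * q + 1) * 2 ^ L * (2 * q).choose (q + r) := by
  have h1 : 4 ^ q ≤ (2 * q + 1) * (2 * q).choose q :=
    Nat.four_pow_le_two_mul_add_one_mul_central_binom q
  have h2 := choose_shift r h
  calc 2 ^ (2 * q) = 4 ^ q := by rw [pow_mul]; norm_num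
    _ ≤ (2 * q + 1) * (2 * q).choose q := h1
    _ ≤ (2 * q + 1) * (2 ^ r * (2 * q).choose (q + r)) := Nat.mul_le_mul_left _ h2
    _ ≤ (2 * q + 1) * (2 ^ L * (2 * q).choose (q + r)) :=
        Nat.mul_le_mul_left _ (Nat.mul_le_mul_right _ (Nat.pow_le_pow_right (by norm_num) hr))
    _ = _ := by ring

/-- from all pairs `(n, m)` to all lengths -/
theorem all_N {T : ℕ} {v : ∀ N : ℕ, (Fin N → Fin (2 * T + 1)) → ℝ≥0∞} {K θ : ℝ} (hK : 0 < K)
    (h0 : 0 < θ) (h1 : θ < 1)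
    (h : ∀ n m : ℕ, m ≤ n + 1 → ∃ ι : Fin (T * (n + 1) + m) → Fin (2 * T + 1),
      ((n + 1).choose m : ℝ≥0∞) * v _ ι ≤ 2 ^ (n + 1) * ENNReal.ofReal (K * θ ^ (n + 1))) :
    ∃ K' θ' : ℝ, 0 < K' ∧ 0 < θ' ∧ θ' < 1 ∧ ∃ N₀ : ℕ, ∀ N, N₀ ≤ N →
      ∃ ι : Fin N → Fin (2 * T + 1), v N ι ≤ ENNReal.ofReal (K' * θ' ^ N) := by
  obtain ⟨L, hL⟩ : ∃ L, L = 2 * T + 1 := ⟨_, rfl⟩
  have hL0 : 0 < L := by omega
  set ρ := (1 + θ) / 2 with hρ
  have hθρ : θ < ρ := by rw [hρ]; linarith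
  have hρ0 : 0 < ρ := h0.trans hθρ
  have hρ1 : ρ < 1 := by rw [hρ]; linarith
  obtain ⟨C, hC, hCb⟩ := exists_bound h0 hθρ
  set θ' : ℝ := ρ ^ ((1 : ℝ) / L) with hθ'
  have hθ'0 : 0 < θ' := Real.rpow_pos_of_pos hρ0 _
  have hLr : (0 : ℝ) < L := by exact_mod_cast hL0
  have hθ'1 : θ' < 1 := Real.rpow_lt_one hρ0.le hρ1 (by positivity)
  have hpow : θ' ^ L = ρ := by
    rw [hθ', ← Real.rpow_natCast, ← Real.rpow_mul hρ0.le, one_div_mul_cancel hLr.ne',
      Real.rpow_one]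
  set K' := 2 ^ L * K * C / (θ * ρ) with hK'
  refine ⟨K', θ', by positivity, hθ'0, hθ'1, 3 * L * L, fun N hN => ?_⟩
  set q := N / L with hq
  set r := N % L with hr
  have hrL : r < L := Nat.mod_lt _ hL0
  have hNq : L * q + r = N := Nat.div_add_mod N L
  have hqL : 3 * L ≤ q := (Nat.le_div_iff_mul_le hL0).2 hN
  have hq1 : 1 ≤ q := by omega
  obtain ⟨n, hn⟩ : ∃ n, n + 1 = 2 * q := ⟨2 * q - 1, by omega⟩
  have h2 := h n (q + r) (by omega)
  have hN' : T * (n + 1) + (q + r) = N := by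
    rw [hn, ← hNq, hL]
    ring
  rw [hN', hn] at h2
  obtain ⟨ι, hι⟩ := h2
  refine ⟨ι, ?_⟩
  have hc0 : ((2 * q).choose (q + r) : ℝ≥0∞) ≠ 0 := by
    have : 0 < (2 * q).choose (q + r) := Nat.choose_pos (by omega)
    exact_mod_cast this.ne'
  have hct : ((2 * q).choose (q + r) : ℝ≥0∞) ≠ ⊤ := ENNReal.natCast_ne_top _
  have h3 : ((2 * q).choose (q + r) : ℝ≥0∞) * v N ι ≤ ((2 * q).choose (q + r) : ℝ≥0∞) *
      (((2 * q + 1 : ℕ) : ℝ≥0∞) * ((2 ^ L : ℕ) : ℝ≥0∞) * ENNReal.ofReal (K * θ ^ (2 * q))) := by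
    refine hι.trans ?_
    have h4 : ((2 ^ (2 * q) : ℕ) : ℝ≥0∞) ≤ (((2 * q + 1) * 2 ^ L * (2 * q).choose (q + r) : ℕ) :
        ℝ≥0∞) := by exact_mod_cast two_pow_le (by omega) hrL.le
    have h5 : (2 : ℝ≥0∞) ^ (2 * q) = ((2 ^ (2 * q) : ℕ) : ℝ≥0∞) := by push_cast; rfl
    rw [h5]
    calc ((2 ^ (2 * q) : ℕ) : ℝ≥0∞) * ENNReal.ofReal (K * θ ^ (2 * q))
        ≤ (((2 * q + 1) * 2 ^ L * (2 * q).choose (q + r) : ℕ) : ℝ≥0∞) *
          ENNReal.ofReal (K * θ ^ (2 * q)) := by gcongr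
      _ = _ := by
        rw [Nat.cast_mul, Nat.cast_mul]
        ring
  have h4 : v N ι ≤ ((2 * q + 1 : ℕ) : ℝ≥0∞) * ((2 ^ L : ℕ) : ℝ≥0∞) *
      ENNReal.ofReal (K * θ ^ (2 * q)) := (ENNReal.mul_le_mul_iff_right hc0 hct).1 h3
  refine h4.trans ?_
  rw [← ENNReal.ofReal_natCast, ← ENNReal.ofReal_natCast, ← ENNReal.ofReal_mul (by positivity),
    ← ENNReal.ofReal_mul (by positivity)]
  refine ENNReal.ofReal_le_ofReal ?_
  have h5 := hCb (2 * q + 1)
  push_cast at h5 ⊢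
  have h6 : ρ ^ q ≤ θ' ^ N / ρ := by
    rw [le_div_iff₀ hρ0]
    calc ρ ^ q * ρ = θ' ^ (L * q) * θ' ^ L := by rw [pow_mul, hpow]
      _ ≤ θ' ^ (L * q) * θ' ^ r := by
          have := pow_le_pow_of_le_one hθ'0.le hθ'1.le hrL.le
          gcongr
      _ = θ' ^ N := by rw [← pow_add, hNq]
  have h7 : (2 * (q : ℝ) + 1) * θ ^ (2 * q) ≤ C / θ * (θ' ^ N / ρ) := by
    calc (2 * (q : ℝ) + 1) * θ ^ (2 * q) = (2 * (q : ℝ) + 1) * θ ^ (2 * q + 1) / θ := by
          rw [pow_succ]; field_simp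
      _ ≤ C * ρ ^ (2 * q + 1) / θ := by gcongr
      _ = C / θ * ρ ^ (2 * q + 1) := by ring
      _ ≤ C / θ * ρ ^ q := by
          have := pow_le_pow_of_le_one hρ0.le hρ1.le (show q ≤ 2 * q + 1 by omega)
          gcongr
      _ ≤ C / θ * (θ' ^ N / ρ) := by gcongr
  calc (2 * (q : ℝ) + 1) * 2 ^ L * (K * θ ^ (2 * q))
      = 2 ^ L * K * ((2 * (q : ℝ) + 1) * θ ^ (2 * q)) := by ring
    _ ≤ 2 ^ L * K * (C / θ * (θ' ^ N / ρ)) := by gcongr
    _ = K' * θ' ^ N := by rw [hK']; field_simp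

/-- a measurable retraction -/
theorem exists_retract {d : ℕ} {a₀ : CV d} (ha₀ : ND a₀) :
    ∃ g : CV d → NDs d, Measurable g ∧ ∀ a : NDs d, g a.1 = a := by
  have hNm : MeasurableSet {x : CV d | ND x} := (isOpen_ND d).measurableSet
  have hemb : MeasurableEmbedding (fun a : NDs d => a.1) := MeasurableEmbedding.subtype_coe hNm
  obtain ⟨g, hg, hgi⟩ := hemb.exists_measurable_extend (g := fun a : NDs d => a) measurable_id
    fun _ => ⟨⟨a₀, ha₀⟩⟩
  exact ⟨g, hg, fun a => congrFun hgi a⟩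

theorem ball_law {d : ℕ} (h : CV d) {δ : ℝ} (hδ : 0 < δ) :
    IsProbabilityMeasure (cond volume (ball h δ)) ∧ (∀ᵐ x ∂(cond volume (ball h δ)), x ∈ ball h δ) ∧
      ∀ x ∈ ball h δ, ∀ V ∈ 𝓝 x, 0 < cond volume (ball h δ) V := by
  have hb0 : volume (ball h δ) ≠ 0 := (Metric.measure_ball_pos volume h hδ).ne'
  have hb1 : volume (ball h δ) ≠ ⊤ := measure_ball_lt_top.ne
  refine ⟨cond_isProbabilityMeasure_of_finite hb0 hb1, ae_cond_mem measurableSet_ball,
    fun x hx V hV => ?_⟩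
  rw [cond_apply isOpen_ball.measurableSet]
  refine ENNReal.mul_pos (ENNReal.inv_ne_zero.2 hb1) ?_
  exact (Measure.measure_pos_of_mem_nhds volume (inter_mem (isOpen_ball.mem_nhds hx) hV)).ne'

/-- **Every rational map.** -/
theorem every {d : ℕ} (hd : 2 ≤ d) {x₀ : CV d} (hx₀ : ND x₀) {ε : ℝ} (hε : 0 < ε) :
    ∃ δ K θ : ℝ, 0 < δ ∧ 0 < K ∧ 0 < θ ∧ θ < 1 ∧ ∃ N₀ : ℕ, ∀ N, N₀ ≤ N →
      ∃ h : Fin N → CV d, (∀ p, ball (h p) δ ⊆ ball x₀ ε) ∧
        (∀ p, ∀ x ∈ ball (h p) δ, ND x) ∧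
        Measure.pi (fun p => cond volume (ball (h p) δ))
          {x | ¬ Hyp (comp (extF x) N)} ≤ ENNReal.ofReal (K * θ ^ N) := by
  set ε₁ := ε / (4 * (‖x₀‖ + 1)) with hε₁
  have hε₁0 : 0 < ε₁ := by positivity
  have hε₁' : 2 * ε₁ * ‖x₀‖ ≤ ε / 2 := by
    rw [hε₁]
    have h1 : (0 : ℝ) < ‖x₀‖ + 1 := by positivity
    rw [show 2 * (ε / (4 * (‖x₀‖ + 1))) * ‖x₀‖ = ε / 2 * (‖x₀‖ / (‖x₀‖ + 1)) by
      field_simp; ring]
    have h2 : ‖x₀‖ / (‖x₀‖ + 1) ≤ 1 := by rw [div_le_one h1]; linarith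
    calc ε / 2 * (‖x₀‖ / (‖x₀‖ + 1)) ≤ ε / 2 * 1 := by gcongr
      _ = ε / 2 := mul_one _
  obtain ⟨T, hT, H, hH, A, hA, hne, hnd, δ₁, hδ₁, hND, hm⟩ := block_data hd hx₀ hε₁0
  set δ := min δ₁ (ε / 2) with hδ
  have hδ0 : 0 < δ := lt_min hδ₁ (by positivity)
  have hδ1 : δ ≤ δ₁ := min_le_left _ _
  have hδ2 : δ ≤ ε / 2 := min_le_right _ _
  obtain ⟨g, hg, hgi⟩ := exists_retract hx₀
  have hgb : ∀ j, ∀ x ∈ ball (H j) δ, (g x).1 = x := by
    intro j x hx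
    have h1 : ND x := hND j x (by
      rw [← dist_eq_norm]
      exact lt_of_lt_of_le hx hδ1)
    have h2 := hgi ⟨x, h1⟩
    simp only at h2
    rw [h2]
  set U : Fin (2 * T + 1) → Measure (NDs d) := fun j => (cond volume (ball (H j) δ)).map g with hU
  have hp : ∀ j, IsProbabilityMeasure (cond volume (ball (H j) δ)) := fun j =>
    (ball_law (H j) hδ0).1
  have hUp : ∀ j, IsProbabilityMeasure (U j) := fun j =>
    Measure.isProbabilityMeasure_map hg.aemeasurable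
  have hU0 : ∀ j, ∀ᵐ a ∂(U j), ‖a.1 - H j‖ < δ := by
    intro j
    have hms : MeasurableSet {a : NDs d | ‖a.1 - H j‖ < δ} := by
      have h1 : Continuous fun a : NDs d => ‖a.1 - H j‖ :=
        (continuous_subtype_val.sub continuous_const).norm
      exact (isOpen_lt h1 continuous_const).measurableSet
    rw [hU, ae_map_iff hg.aemeasurable hms]
    filter_upwards [(ball_law (H j) hδ0).2.1] with x hx
    rw [hgb j x hx, ← dist_eq_norm]
    exact hx
  have hopen : IsOpenEmbedding (fun a : NDs d => a.1) := (isOpen_ND d).isOpenEmbedding_subtypeVal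
  have hUpos : ∀ j (a : NDs d), ‖a.1 - H j‖ < δ → ∀ V ∈ 𝓝 a, 0 < U j V := by
    intro j a ha V hV
    obtain ⟨O, hOV, hO, haO⟩ := _root_.mem_nhds_iff.1 hV
    refine lt_of_lt_of_le ?_ (measure_mono hOV)
    rw [hU, Measure.map_apply hg hO.measurableSet]
    have h1 : (fun a : NDs d => a.1) '' O ⊆ g ⁻¹' O := by
      rintro _ ⟨b, hb, rfl⟩
      show g b.1 ∈ O
      rw [hgi b]
      exact hb
    refine lt_of_lt_of_le ?_ (measure_mono h1)
    refine (ball_law (H j) hδ0).2.2 a.1 ?_ _ ((hopen.isOpenMap O hO).mem_nhds ⟨a, haO, rfl⟩)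
    rw [mem_ball, dist_eq_norm]
    exact ha
  obtain ⟨K, θ, hK, h0, h1, hasm⟩ := asm hd hT H (fun j => (hH j).1) hA hne hnd hδ0
    (fun e he => hm e fun j => (he j).trans_le hδ1) U hU0 hUpos
  obtain ⟨K', θ', hK', h0', h1', N₀, hN₀⟩ := all_N (T := T)
    (v := fun N ι => Measure.pi (fun p => U (ι p)) (BadN d N)) hK h0 h1 hasm
  refine ⟨δ, K', θ', hδ0, hK', h0', h1', N₀, fun N hN => ?_⟩
  obtain ⟨ι, hι⟩ := hN₀ N hN
  refine ⟨fun p => H (ι p), fun p x hx => ?_, fun p x hx => ?_, ?_⟩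
  · rw [mem_ball] at hx ⊢
    have h2 := dist_triangle x (H (ι p)) x₀
    have h3 : dist (H (ι p)) x₀ ≤ ε / 2 := by
      rw [dist_eq_norm]
      exact (hH (ι p)).2.trans hε₁'
    linarith
  · exact hND (ι p) x (by
      rw [← dist_eq_norm]
      exact lt_of_lt_of_le hx hδ1)
  · set P := Measure.pi (fun p => cond volume (ball (H (ι p)) δ)) with hP
    set Γ : (Fin N → CV d) → (Fin N → NDs d) := fun x p => g (x p) with hΓ
    have hΓm : Measurable Γ := measurable_pi_lambda _ fun p => hg.comp (measurable_pi_apply p)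
    have hΓP : P.map Γ = Measure.pi (fun p => U (ι p)) :=
      Measure.pi_map_pi fun p => hg.aemeasurable
    set M := toMeasurable (Measure.pi fun p => U (ι p)) (BadN d N) with hM
    have hMm : MeasurableSet M := measurableSet_toMeasurable _ _
    have hnull : P (⋃ p, {x : Fin N → CV d | ¬ x p ∈ ball (H (ι p)) δ}) = 0 := by
      rw [measure_iUnion_null_iff]
      intro p
      exact (measurePreserving_eval (fun p : Fin N =>
        cond volume (ball (H (ι p)) δ)) p).quasiMeasurePreserving.ae (ball_law (H (ι p)) hδ0).2.1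
    calc P {x | ¬ Hyp (comp (extF x) N)}
        ≤ P (Γ ⁻¹' M ∪ ⋃ p, {x : Fin N → CV d | ¬ x p ∈ ball (H (ι p)) δ}) := by
          refine measure_mono fun x hx => ?_
          by_contra hcon
          simp only [mem_union, mem_iUnion, not_or, not_exists, mem_ofPred_eq, not_not] at hcon
          obtain ⟨h2, h3⟩ := hcon
          apply h2
          refine subset_toMeasurable _ _ ?_
          have h4 : (fun p => ((Γ x) p).1) = x := funext fun p => hgb (ι p) _ (h3 p)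
          show ¬ Hyp (comp (extF fun p => ((Γ x) p).1) N)
          rw [h4]
          exact hx
      _ ≤ P (Γ ⁻¹' M) + P (⋃ p, {x : Fin N → CV d | ¬ x p ∈ ball (H (ι p)) δ}) :=
          measure_union_le _ _
      _ = P (Γ ⁻¹' M) := by rw [hnull, add_zero]
      _ = (P.map Γ) M := (Measure.map_apply hΓm hMm).symm
      _ = Measure.pi (fun p => U (ι p)) (BadN d N) := by rw [hΓP, hM, measure_toMeasurable]
      _ ≤ _ := hι

end Pool.Agent.U202.RM
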