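import Mathlib
import Pool.Agent.U202.RM.Every

/-! The proportion of hyperbolic compositions of maps of a whole ball. -/

set_option autoImplicit false
set_option linter.unusedSectionVars false

open MeasureTheory Filter Topology Set Metric ProbabilityTheory
open scoped ENNReal

namespace Pool.Agent.U202.RM

open Pool.Agent.R239.Fat (Sph LocInj Hol Hyp Att)
open Pool.Agent.H790R3.RB (CV hF cr ND sp pr hc)

/-- the ratio of the volumes of balls -/
noncomputable def rat (d : ℕ) (δ ε : ℝ) : ℝ≥0∞ :=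
  (volume (ball (0 : CV d) ε))⁻¹ * volume (ball (0 : CV d) δ)

theorem rat_ne_top {d : ℕ} {δ ε : ℝ} (hε : 0 < ε) : rat d δ ε ≠ ⊤ :=
  ENNReal.mul_ne_top (ENNReal.inv_ne_top.2 (Metric.measure_ball_pos volume _ hε).ne')
    measure_ball_lt_top.ne

theorem rat_pos {d : ℕ} {δ ε : ℝ} (hδ : 0 < δ) : 0 < rat d δ ε :=
  ENNReal.mul_pos (ENNReal.inv_ne_zero.2 measure_ball_lt_top.ne)
    (Metric.measure_ball_pos volume _ hδ).ne'

theorem cond_sub {d : ℕ} {x₀ h : CV d} {δ ε : ℝ} (hδ : 0 < δ)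
    (hsub : ball h δ ⊆ ball x₀ ε) (s : Set (CV d)) :
    (cond volume (ball x₀ ε)) (s ∩ ball h δ) = rat d δ ε * cond volume (ball h δ) s := by
  rw [cond_apply isOpen_ball.measurableSet, cond_apply isOpen_ball.measurableSet]
  have h1 : ball x₀ ε ∩ (s ∩ ball h δ) = ball h δ ∩ s := by
    ext y
    constructor
    · rintro ⟨-, h2, h3⟩; exact ⟨h3, h2⟩
    · rintro ⟨h3, h2⟩; exact ⟨hsub h3, h2, h3⟩
  have e1 : volume (ball x₀ ε) = volume (ball (0 : CV d) ε) := Measure.addHaar_ball_center _ _ _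
  have e2 : volume (ball h δ) = volume (ball (0 : CV d) δ) := Measure.addHaar_ball_center _ _ _
  have hb0 : volume (ball (0 : CV d) δ) ≠ 0 := (Metric.measure_ball_pos volume _ hδ).ne'
  have hb1 : volume (ball (0 : CV d) δ) ≠ ⊤ := measure_ball_lt_top.ne
  rw [h1, e1, e2]
  unfold rat
  rw [mul_assoc, ← mul_assoc (volume (ball (0 : CV d) δ)), ENNReal.mul_inv_cancel hb0 hb1,
    one_mul]

theorem whole {d : ℕ} (hd : 2 ≤ d) {x₀ : CV d} (hx₀ : ND x₀) {ε : ℝ} (hε : 0 < ε) :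
    ∃ c : ℝ, 0 < c ∧ c < 1 ∧ ∃ N₀ : ℕ, ∀ N, N₀ ≤ N →
      Measure.pi (fun _ : Fin N => cond volume (ball x₀ ε))
          {x | ¬ ((∀ p, ND (x p)) ∧ Hyp (comp (extF x) N))} ≤ 1 - ENNReal.ofReal (c ^ N) := by
  obtain ⟨δ, K, θ, hδ, hK, h0, h1, N₀, h⟩ := every hd hx₀ hε
  have hp0 := (ball_law x₀ hε).1
  set κ' := rat d δ ε with hκ'
  have hκt : κ' ≠ ⊤ := rat_ne_top hε
  have hκp : 0 < κ' := rat_pos hδ
  set κ := κ'.toReal with hκ
  have hκ0 : 0 < κ := ENNReal.toReal_pos hκp.ne' hκt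
  have hκe : κ' = ENNReal.ofReal κ := (ENNReal.ofReal_toReal hκt).symm
  -- `κ ≤ 1`
  obtain ⟨h₀, hh₀, -, -⟩ := h (max N₀ 1) (le_max_left _ _)
  have hκ1 : κ ≤ 1 := by
    have p : Fin (max N₀ 1) := ⟨0, by omega⟩
    have h2 := cond_sub hδ (hh₀ p) univ
    have h3 := (ball_law (h₀ p) hδ).1
    rw [measure_univ, mul_one] at h2
    have h4 : κ' ≤ 1 := by rw [hκ', ← h2]; exact prob_le_one
    rw [hκ, ← ENNReal.toReal_one]
    exact ENNReal.toReal_mono ENNReal.one_ne_top h4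
  have ht : Tendsto (fun n : ℕ => K * θ ^ n) atTop (𝓝 (K * 0)) :=
    (tendsto_pow_atTop_nhds_zero_of_lt_one h0.le h1).const_mul K
  rw [mul_zero] at ht
  obtain ⟨N₁, hN₁⟩ := eventually_atTop.1 (ht.eventually (ge_mem_nhds (show (0 : ℝ) < 1 / 2 by
    norm_num)))
  refine ⟨κ / 2, by positivity, by linarith, max (max N₀ N₁) 1, fun N hN => ?_⟩
  have hN0 : N₀ ≤ N := (le_max_left _ _).trans ((le_max_left _ _).trans hN)
  have hN1 : N₁ ≤ N := (le_max_right _ _).trans ((le_max_left _ _).trans hN)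
  have hN2 : 1 ≤ N := (le_max_right _ _).trans hN
  obtain ⟨c, hsub, hnd, hbad⟩ := h N hN0
  set μ₀ := cond volume (ball x₀ ε) with hμ₀
  set P := Measure.pi (fun _ : Fin N => μ₀) with hP
  set Q : Set (Fin N → CV d) := univ.pi fun p => ball (c p) δ with hQ
  have hQm : MeasurableSet Q := MeasurableSet.univ_pi fun p => isOpen_ball.measurableSet
  set B : Set (Fin N → CV d) := {x | ¬ ((∀ p, ND (x p)) ∧ Hyp (comp (extF x) N))} with hB
  set B' : Set (Fin N → CV d) := {x | ¬ Hyp (comp (extF x) N)} with hB'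
  have hcp : ∀ p, IsProbabilityMeasure (cond volume (ball (c p) δ)) := fun p =>
    (ball_law (c p) hδ).1
  have hrestr : Measure.pi (fun p => μ₀.restrict (ball (c p) δ)) =
      κ' ^ N • Measure.pi (fun p => cond volume (ball (c p) δ)) := by
    refine Measure.pi_eq fun s hs => ?_
    rw [Measure.smul_apply, Measure.pi_pi, smul_eq_mul]
    have h2 : κ' ^ N = ∏ _p : Fin N, κ' := by
      rw [Finset.prod_const, Finset.card_univ, Fintype.card_fin]
    rw [h2, ← Finset.prod_mul_distrib]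
    refine Finset.prod_congr rfl fun p _ => ?_
    rw [Measure.restrict_apply (hs p), cond_sub hδ (hsub p) _]
  have hQP : P Q = κ' ^ N := by
    rw [hP, hQ, Measure.pi_pi]
    have h2 : ∀ p, μ₀ (ball (c p) δ) = κ' := by
      intro p
      have h3 := cond_sub hδ (hsub p) univ
      rw [measure_univ, mul_one, univ_inter] at h3
      exact h3
    rw [Finset.prod_congr rfl fun p _ => h2 p, Finset.prod_const, Finset.card_univ,
      Fintype.card_fin]
  have hBQ : P (B ∩ Q) ≤ κ' ^ N * ENNReal.ofReal (1 / 2) := by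
    have h2 : P (B' ∩ Q) = (P.restrict Q) B' := (Measure.restrict_apply' hQm).symm
    have h3 : B ∩ Q ⊆ B' ∩ Q := by
      rintro x ⟨hx, hxQ⟩
      exact ⟨fun h4 => hx ⟨fun p => hnd p (x p) (hxQ p (mem_univ p)), h4⟩, hxQ⟩
    refine (measure_mono h3).trans ?_
    rw [h2, hP, hQ, Measure.restrict_pi_pi, hrestr, Measure.smul_apply, smul_eq_mul]
    gcongr
    exact hbad.trans (ENNReal.ofReal_le_ofReal (hN₁ N hN1))
  have hκN : κ' ^ N = ENNReal.ofReal (κ ^ N) := by
    rw [hκe, ENNReal.ofReal_pow hκ0.le]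
  have hκN1 : κ ^ N ≤ 1 := pow_le_one₀ hκ0.le hκ1
  calc P B ≤ P (Qᶜ ∪ (B ∩ Q)) := by
        refine measure_mono fun x hx => ?_
        by_cases hxQ : x ∈ Q
        · exact Or.inr ⟨hx, hxQ⟩
        · exact Or.inl hxQ
    _ ≤ P Qᶜ + P (B ∩ Q) := measure_union_le _ _
    _ ≤ (1 - κ' ^ N) + κ' ^ N * ENNReal.ofReal (1 / 2) := by
        rw [prob_compl_eq_one_sub hQm, hQP]
        gcongr
    _ = ENNReal.ofReal (1 - κ ^ N + κ ^ N * (1 / 2)) := by
        rw [hκN, ← ENNReal.ofReal_mul (by positivity),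
          ENNReal.ofReal_add (by linarith) (by positivity), ENNReal.ofReal_sub _ (by positivity),
          ENNReal.ofReal_one]
    _ ≤ ENNReal.ofReal (1 - (κ / 2) ^ N) := by
        refine ENNReal.ofReal_le_ofReal ?_
        have h3 : (κ / 2) ^ N ≤ κ ^ N * (1 / 2) := by
          rw [div_eq_mul_one_div, mul_pow]
          have h4 : ((1 : ℝ) / 2) ^ N ≤ 1 / 2 := by
            calc ((1 : ℝ) / 2) ^ N ≤ (1 / 2) ^ 1 :=
                  pow_le_pow_of_le_one (by norm_num) (by norm_num) hN2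
              _ = 1 / 2 := pow_one _
          gcongr
        linarith
    _ = 1 - ENNReal.ofReal ((κ / 2) ^ N) := by
        rw [ENNReal.ofReal_sub _ (by positivity), ENNReal.ofReal_one]

end Pool.Agent.U202.RM
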